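import Pool.Agent.Lib.MP_aa40d3_nt.CV.Defs

/-! Algebraic functions. -/

open Polynomial Matrix
open scoped Polynomial.Bivariate

namespace Pool.Agent.GR.CV

/-- An algebraic function on a set. -/
def AlgF (V : Set ℂ) (f : ℂ → ℂ) : Prop := ∃ Q : ℂ[X][Y], Q ≠ 0 ∧ ∀ x ∈ V, Q.evalEval x (f x) = 0

variable {V V' : Set ℂ} {f g : ℂ → ℂ}

theorem AlgF.mono (h : AlgF V f) (hV : V' ⊆ V) : AlgF V' f :=
  h.imp fun _ h => ⟨h.1, fun x hx => h.2 x (hV hx)⟩

theorem AlgF.congr (h : AlgF V f) (e : ∀ x ∈ V, g x = f x) : AlgF V g :=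
  h.imp fun _ h => ⟨h.1, fun x hx => e x hx ▸ h.2 x hx⟩

/-- Polynomials as functions on `V`. -/
@[reducible] noncomputable def algAlg (V : Set ℂ) : Algebra ℂ[X] (V → ℂ) :=
  (RingHom.pi fun x : V => evalRingHom (x : ℂ)).toAlgebra

theorem alg_iff : AlgF V f ↔ @IsAlgebraic ℂ[X] (V → ℂ) _ _ (algAlg V) fun x => f x := by
  let _ := algAlg V
  have key : ∀ (Q : ℂ[X][Y]) (x : V), aeval (fun x : V => f x) Q x = Q.evalEval (x : ℂ) (f x) := by
    intro Q x
    rw [← eval₂_evalRingHom]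
    exact hom_eval₂ Q (algebraMap ℂ[X] (V → ℂ)) (Pi.evalRingHom (fun _ : V => ℂ) x) _
  exact exists_congr fun Q => and_congr_right fun _ =>
    ⟨fun h => funext fun x => (key Q x).trans (h x x.2),
      fun h x hx => (key Q ⟨x, hx⟩).symm.trans (congrFun h ⟨x, hx⟩)⟩

/-- Make `V → ℂ` an algebra over `ℂ[X]` (`RingHom.toAlgebra` of `RingHom.pi fun x => evalRingHom x`);
`AlgF V f` is `IsAlgebraic ℂ[X] fun x : V => f x`; `IsAlgebraic.add`. -/
theorem AlgF.add (h : AlgF V f) (h' : AlgF V g) : AlgF V fun x => f x + g x := by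
  let _ := algAlg V
  exact alg_iff.2 ((alg_iff.1 h).add (alg_iff.1 h'))

theorem AlgF.mul (h : AlgF V f) (h' : AlgF V g) : AlgF V fun x => f x * g x := by
  let _ := algAlg V
  exact alg_iff.2 ((alg_iff.1 h).mul (alg_iff.1 h'))

theorem algF_poly (V : Set ℂ) (p : ℂ[X]) : AlgF V fun x => p.eval x := by
  exact ⟨X - C p, X_sub_C_ne_zero p, fun x _ => by simp [evalEval_C]⟩

theorem algF_const (V : Set ℂ) (c : ℂ) : AlgF V fun _ => c := by
  simpa using algF_poly V (C c)

theorem algF_inv {p : ℂ[X]} (hp : p ≠ 0) (h : ∀ x ∈ V, p.eval x ≠ 0) :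
    AlgF V fun x => (p.eval x)⁻¹ := by
  refine ⟨C p * X - 1, fun e => hp ?_, fun x hx => by simp [evalEval_C, h x hx]⟩
  simpa [coeff_one] using congrArg (fun Q : ℂ[X][Y] => Q.coeff 1) e

theorem AlgF.pow (h : AlgF V f) (k : ℕ) : AlgF V fun x => f x ^ k := by
  induction k with
  | zero => simpa using algF_const V 1
  | succ k ih => simpa [pow_succ] using ih.mul h

theorem AlgF.sum {ι : Type} {s : Finset ι} {f : ι → ℂ → ℂ} (h : ∀ i ∈ s, AlgF V (f i)) :
    AlgF V fun x => ∑ i ∈ s, f i x := by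
  classical
  induction s using Finset.induction_on with
  | empty => simpa using algF_const V 0
  | insert i s hi ih =>
    simpa [Finset.sum_insert hi] using (h i (Finset.mem_insert_self i s)).add
      (ih fun j hj => h j (Finset.mem_insert_of_mem hj))

theorem AlgF.mat_mul {α β γ : Type} [Fintype β] {U : ℂ → Matrix α β ℂ} {W : ℂ → Matrix β γ ℂ}
    (hU : ∀ a b, AlgF V fun x => U x a b) (hW : ∀ a b, AlgF V fun x => W x a b) (a : α) (c : γ) :
    AlgF V fun x => (U x * W x) a c := by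
  simpa only [Matrix.mul_apply] using AlgF.sum fun b _ => (hU a b).mul (hW b c)

end Pool.Agent.GR.CV
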