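import Pool.Agent.Lib.MP_aa40d3_nt.CV.Defs

/-! Gauge transformations. -/

open Polynomial Matrix
open scoped Polynomial.Bivariate

namespace Pool.Agent.GR.CV

variable {N : ℕ}

section
variable {R R' : Type} [CommRing R] [CommRing R'] {D D' D'' ρ ρ' : R[X]}
  {B B' B'' G G' : Matrix (Fin N) (Fin N) R[X]}

theorem map_deriv_mul {α β γ : Type} [Fintype β] (U : Matrix α β R[X]) (V : Matrix β γ R[X]) :
    (U * V).map derivative = U.map derivative * V + U * V.map derivative := by
  refine Matrix.ext fun a b => ?_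
  simp [Matrix.mul_apply, Finset.sum_add_distrib]

theorem map_deriv_smul {α β : Type} (c : R[X]) (U : Matrix α β R[X]) :
    (c • U).map derivative = derivative c • U + c • U.map derivative := by
  refine Matrix.ext fun a b => ?_
  simp

/-- Multiply the goal by `D'`; it is `(D'' * ρ') • G' *` the first identity plus `(ρ * D) •` the
second identity `* G`. -/
theorem Gau.comp [IsDomain R] (h : Gau D B D' B' ρ G) (h' : Gau D' B' D'' B'' ρ' G') (hD : D' ≠ 0) :
    Gau D B D'' B'' (ρ * ρ') (G' * G) := by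
  have h1 := congrArg (G' * ·) h
  have h2 := congrArg (· * G) h'
  simp only [Matrix.mul_smul, Matrix.smul_mul, Matrix.mul_add, Matrix.mul_sub, Matrix.add_mul,
    Matrix.sub_mul, Matrix.mul_assoc] at h1 h2
  rw [Gau, map_deriv_mul, derivative_mul]
  refine Matrix.ext fun a b => mul_left_cancel₀ hD ?_
  have h3 := congrFun (congrFun h1 a) b
  have h4 := congrFun (congrFun h2 a) b
  simp only [Matrix.smul_apply, Matrix.add_apply, Matrix.sub_apply, smul_eq_mul,
    Matrix.mul_assoc] at h3 h4 ⊢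
  linear_combination (D'' * ρ') * h3 + (ρ * D) * h4

theorem gau_scale (D ρ : R[X]) (B : Matrix (Fin N) (Fin N) R[X]) :
    Gau D B (ρ * D) (ρ • B - (derivative ρ * D) • 1) ρ 1 := by
  have h : (1 : Matrix (Fin N) (Fin N) R[X]).map derivative = 0 :=
    Matrix.ext fun a b => by simp [Matrix.one_apply, apply_ite]
  rw [Gau, h, Matrix.one_mul, Matrix.mul_one, smul_zero, zero_sub, neg_add_eq_sub]

theorem gau_one : Gau D B D' B' 1 G ↔ D' • (D • G.map derivative + G * B) = D • (B' * G) := by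
  simp [Gau]

theorem gau_map_iff {φ : R →+* R'} :
    Gau (D.map φ) (B.map (Polynomial.map φ)) (D'.map φ) (B'.map (Polynomial.map φ)) (ρ.map φ)
      (G.map (Polynomial.map φ)) ↔ (D' • ((ρ * D) • G.map derivative - (derivative ρ * D) • G +
        ρ • (G * B))).map (Polynomial.map φ) = ((ρ * D) • (B' * G)).map (Polynomial.map φ) := by
  simp [Gau, ← Matrix.ext_iff, Matrix.mul_apply, Polynomial.map_sum, derivative_map]

theorem Gau.map (h : Gau D B D' B' ρ G) (φ : R →+* R') :
    Gau (D.map φ) (B.map (Polynomial.map φ)) (D'.map φ) (B'.map (Polynomial.map φ)) (ρ.map φ)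
      (G.map (Polynomial.map φ)) := by
  exact gau_map_iff.2 (congrArg (Matrix.map · (Polynomial.map φ)) h)

theorem Gau.of_map {φ : R →+* R'} (hφ : Function.Injective φ)
    (h : Gau (D.map φ) (B.map (Polynomial.map φ)) (D'.map φ) (B'.map (Polynomial.map φ)) (ρ.map φ)
      (G.map (Polynomial.map φ))) : Gau D B D' B' ρ G := by
  exact Matrix.ext fun a b => map_injective φ hφ (congrFun (congrFun (gau_map_iff.1 h) a) b)

/-- Take `ρ ^ (p - 1) • (G * Φ)`; `ρ * (ρ ^ (p - 1))' = -ρ' * ρ ^ (p - 1)` since `(ρ ^ p)' = 0`.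
Cancel `ρ * D`. -/
theorem Gau.hf [IsDomain R] {p : ℕ} (hp : 0 < p) (hc : (p : R) = 0) (h : Gau D B D' B' ρ G)
    (hD : D ≠ 0) (hρ : ρ ≠ 0) (hG : G.det ≠ 0) (hf : HF D B) : HF D' B' := by
  obtain ⟨Φ, h0, hf⟩ := hf
  obtain ⟨m, rfl⟩ : ∃ m, p = m + 1 := ⟨p - 1, by omega⟩
  have hq : derivative (ρ ^ m * ρ) = 0 := by
    rw [← pow_succ, derivative_pow, hc, C_0, zero_mul, zero_mul]
  rw [derivative_mul] at hq
  refine ⟨ρ ^ m • (G * Φ), ?_, ?_⟩
  · rw [det_smul, det_mul]
    exact mul_ne_zero (pow_ne_zero _ (pow_ne_zero _ hρ)) (mul_ne_zero hG h0)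
  have h1 := congrArg (· * Φ) h
  have h2 := congrArg (G * ·) hf
  simp only [Matrix.mul_smul, Matrix.smul_mul, Matrix.add_mul, Matrix.sub_mul,
    Matrix.mul_assoc] at h1 h2
  rw [map_deriv_smul, map_deriv_mul, Matrix.mul_smul]
  refine Matrix.ext fun a b => mul_left_cancel₀ (mul_ne_zero hρ hD) ?_
  have h3 := congrFun (congrFun h1 a) b
  have h4 := congrFun (congrFun h2 a) b
  simp only [Matrix.smul_apply, Matrix.add_apply, Matrix.sub_apply, smul_eq_mul] at h3 h4 ⊢
  linear_combination ρ ^ m * h3 + (ρ * D' * ρ ^ m) * h4 + D * D' * (G * Φ) a b * hq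

end

end Pool.Agent.GR.CV
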