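import Pool.Agent.Lib.MP_aa40d3_nt.CV.Alg

/-! Holomorphic branches. -/

open Polynomial Matrix
open scoped Polynomial.Bivariate

namespace Pool.Agent.GR.CV

/-- A smaller disc without zeros of `p`. -/
theorem exists_ball {p : ℂ[X]} (hp : p ≠ 0) (x₀ : ℂ) {ε : ℝ} (hε : 0 < ε) :
    ∃ (x₁ : ℂ) (η : ℝ), 0 < η ∧ Metric.ball x₁ η ⊆ Metric.ball x₀ ε ∧
      ∀ x ∈ Metric.ball x₁ η, p.eval x ≠ 0 := by
  have hfin : {x : ℂ | p.IsRoot x}.Finite := by
    by_contra hinf
    exact hp (Polynomial.eq_zero_of_infinite_isRoot p hinf)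
  have hopen : IsOpen (Metric.ball x₀ ε ∩ {x : ℂ | p.IsRoot x}ᶜ) :=
    Metric.isOpen_ball.inter hfin.isClosed.isOpen_compl
  have hinf : (Metric.ball x₀ ε).Infinite :=
    infinite_of_mem_nhds x₀ (Metric.ball_mem_nhds x₀ hε)
  obtain ⟨x₁, hx₁⟩ : (Metric.ball x₀ ε ∩ {x : ℂ | p.IsRoot x}ᶜ).Nonempty :=
    (hinf.sdiff hfin).nonempty
  obtain ⟨η, hη, hsub⟩ := Metric.isOpen_iff.1 hopen x₁ hx₁
  exact ⟨x₁, η, hη, fun x hx => (hsub hx).1, fun x hx => (hsub hx).2⟩

theorem algb_contDiff_eval (q : ℂ[X]) : ContDiff ℂ 1 (fun z : ℂ × ℂ => q.eval z.1) := by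
  induction q using Polynomial.induction_on' with
  | add a b ha hb =>
    simp only [eval_add]
    exact ha.add hb
  | monomial n a =>
    simp only [eval_monomial]
    exact contDiff_const.mul (contDiff_fst.pow n)

theorem algb_contDiff (P : ℂ[X][Y]) : ContDiff ℂ 1 (fun z : ℂ × ℂ => P.evalEval z.1 z.2) := by
  induction P using Polynomial.induction_on' with
  | add a b ha hb =>
    simp only [evalEval_add]
    exact ha.add hb
  | monomial n a =>
    have : (fun z : ℂ × ℂ => (monomial n a : ℂ[X][Y]).evalEval z.1 z.2) =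
        fun z : ℂ × ℂ => a.eval z.1 * z.2 ^ n := by
      funext z
      simp [evalEval, eval_monomial]
    rw [this]
    exact (algb_contDiff_eval a).mul (contDiff_snd.pow n)

theorem algb_hasDerivAt (P : ℂ[X][Y]) (x y : ℂ) :
    HasDerivAt (fun t : ℂ => P.evalEval x t) ((derivative P).evalEval x y) y := by
  have h1 := (P.map (evalRingHom x)).hasDerivAt y
  rw [derivative_map, map_evalRingHom_eval] at h1
  simpa only [map_evalRingHom_eval] using h1

/-- A simple root moves holomorphically. For instance: implicit function theorem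
(`HasStrictFDerivAt.implicitFunction`, or the inverse function theorem for
`(x, y) ↦ (x, P x y)`, which is analytic: `HasStrictFDerivAt.localInverse`,
`ContDiffAt.to_localInverse`). -/
theorem exists_branch {P : ℂ[X][Y]} {x₀ y₀ : ℂ} (h : P.evalEval x₀ y₀ = 0)
    (h' : (derivative P).evalEval x₀ y₀ ≠ 0) : ∃ y : ℂ → ℂ,
      ∀ᶠ x in nhds x₀, DifferentiableAt ℂ y x ∧ P.evalEval x (y x) = 0 := by
  set f : ℂ × ℂ → ℂ := fun z => P.evalEval z.1 z.2 with hf
  have cdf : ContDiffAt ℂ 1 f (x₀, y₀) := (algb_contDiff P).contDiffAt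
  have hF : HasFDerivAt f (fderiv ℂ f (x₀, y₀)) (x₀, y₀) :=
    (cdf.differentiableAt one_ne_zero).hasFDerivAt
  have h1 : HasFDerivAt (fun t : ℂ => f (x₀, t))
      (fderiv ℂ f (x₀, y₀) ∘L .inr ℂ ℂ ℂ) y₀ :=
    hF.comp y₀ (hasFDerivAt_prodMk_right x₀ y₀)
  have h2 : HasFDerivAt (fun t : ℂ => f (x₀, t))
      (ContinuousLinearMap.toSpanSingleton ℂ ((derivative P).evalEval x₀ y₀)) y₀ :=
    (algb_hasDerivAt P x₀ y₀).hasFDerivAt
  have h3 := h1.unique h2
  have if₂ : (fderiv ℂ f (x₀, y₀) ∘L .inr ℂ ℂ ℂ).IsInvertible := by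
    rw [h3]
    refine ⟨ContinuousLinearEquiv.unitsEquivAut ℂ (Units.mk0 _ h'), ?_⟩
    ext
    simp
  refine ⟨cdf.implicitFunction one_ne_zero if₂, ?_⟩
  have e1 := cdf.eventually_apply_implicitFunction one_ne_zero if₂
  have e2 := (cdf.contDiffAt_implicitFunction one_ne_zero if₂).eventually (by simp)
  filter_upwards [e1, e2] with x hx1 hx2
  exact ⟨hx2.differentiableAt one_ne_zero, hx1.trans h⟩

end Pool.Agent.GR.CV
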