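import Pool.Agent.Lib.MP_aa40d3_nt.CV.KatC

/-! The three types of frames. -/

open Polynomial Matrix
open scoped Polynomial.Bivariate

namespace Pool.Agent.GR.CV

variable {r d : ℕ} {S : Sys ℂ r} {q : ℂ[X][Y]} {δ : ℂ[X]} {x : LL} {t : ℂ}

theorem pushb_bd : bd (fun _ : Fin d => (0 : Matrix (Fin r) (Fin r) LL)) = 0 := by
  refine Matrix.ext fun i j => ?_
  simp [bd]

theorem pushb_loc {y : LL} (h : S.Loc x y) : ∃ G, LocG S x y G 0 := h.locG

theorem pushb_card (o : Fin d) :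
    (Finset.univ.image fun a : Fin r => (ix a o : Fin (r * d))).card ≤ r :=
  Finset.card_image_le.trans (by simp)

theorem pushb_mem {o : Fin d} {i : Fin (r * d)} (h : sh i = o) :
    i ∈ Finset.univ.image fun a : Fin r => (ix a o : Fin (r * d)) :=
  Finset.mem_image.2 ⟨co i, Finset.mem_univ _, by rw [← h, ix_co_sh]⟩

theorem push_unr (h : Prep S d q δ) (hS : S.Unr x d) : ∃ (U : LM (r * d)) (y : Fin d → LL),
    Function.Injective y ∧ MSol (δ * S.D) (pB S d q δ) x U 0 ∧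
      (pM S d).map (ev x) * U = U * diagonal fun i => y (sh i) := by
  obtain ⟨y, hy, hl⟩ := hS
  choose G hG using fun j => pushb_loc (hl j)
  obtain ⟨U, h1, h2, -⟩ := push_loc h hy (B := fun _ => 0) hG
  rw [pushb_bd] at h1
  exact ⟨U, y, hy, h1, h2⟩

theorem pushb_last {K : Type} [Field K] {m : ℕ} {p : K[X]} (hm : p.Monic)
    (hd : p.natDegree = m + 1) {y : Fin m → K} (hy : Function.Injective y)
    (h0 : ∀ j, p.eval (y j) = 0) (h1 : ∀ j, (derivative p).eval (y j) ≠ 0) :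
    ∃ z, z ∉ Set.range y ∧ p.eval z = 0 := by
  have hp : (∏ j, (X - C (y j))).Monic := monic_prod_of_monic _ _ fun j _ => monic_X_sub_C _
  obtain ⟨w, rfl⟩ : ∏ j, (X - C (y j)) ∣ p :=
    Fintype.prod_dvd_of_coprime (pairwise_coprime_X_sub_C hy) fun j => dvd_iff_isRoot.2 (h0 j)
  have hw1 : w.Monic := hp.of_mul_monic_left hm
  rw [hp.natDegree_mul hw1, natDegree_finsetProd_X_sub_C_eq_card, Finset.card_univ,
    Fintype.card_fin] at hd
  have hw : w.eval (-w.coeff 0) = 0 := by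
    conv_lhs => rw [hw1.eq_X_add_C (by omega)]
    simp
  refine ⟨-w.coeff 0, fun ⟨j, hj⟩ => h1 j ?_, by rw [eval_mul, hw, mul_zero]⟩
  have h2 : (∏ j, (X - C (y j))).eval (y j) = 0 := by
    rw [eval_prod]
    exact Finset.prod_eq_zero (Finset.mem_univ j) (by simp)
  rw [derivative_mul, eval_add, eval_mul, eval_mul, h2, hj, hw, mul_zero, zero_mul, add_zero]

/-- The last root. -/
theorem last_root {m : ℕ} (h : Prep S (m + 1) q δ) (hδ : ev x δ ≠ 0) {y : Fin m → LL}
    (hy : Function.Injective y) (h0 : ∀ j, aevalAeval x (y j) S.P = 0) :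
    ∃ z, z ∉ Set.range y ∧ aevalAeval x z S.P = 0 := by
  obtain ⟨z, h1, h2⟩ := pushb_last (K := LL) (h.1.map (ev x)) ((h.1.natDegree_map _).trans h.2.1) hy
    (fun j => (sep_eval x (y j) S.P).symm.trans (h0 j)) fun j h2 => hδ (by
      obtain ⟨u, hu⟩ := h.2.2
      have h1 := congrArg (aevalAeval x (y j)) hu
      have h3 : aevalAeval x (y j) (derivative S.P) = 0 := by
        rw [sep_eval, ← derivative_map]
        exact h2
      rw [map_sub, map_mul, map_mul, h3, h0, mul_zero, zero_mul, zero_sub, neg_eq_zero,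
        sep_eval, map_C, eval_C] at h1
      exact h1)
  exact ⟨z, h1, (sep_eval x z S.P).trans h2⟩

/-- `J` is the image of `fun a => ix a 0`. -/
theorem push_pun (h : Prep S d q δ) (hd : d ≠ 0) (hδ : δ ≠ 0) (hS : S.Unr (xt t 1) (d - 1))
    (hK : ∃ U Cm : LM (r * d), (∀ i j, Ov 0 (Cm i j)) ∧
      MSol (δ * S.D) (pB S d q δ) (xt t 1) U Cm) :
    ∃ U : LM (r * d), TP r (δ * S.D) (pB S d q δ) t U := by
  obtain ⟨m, rfl⟩ : ∃ m, d = m + 1 := ⟨d - 1, by omega⟩
  obtain ⟨y, hy, hl⟩ := hS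
  obtain ⟨U₀, C₀, h2, h3⟩ := hK
  have hx := ev_xt_ne (t := t) le_rfl hδ
  obtain ⟨z, hz, hz'⟩ := last_root h hx hy fun j => (hl j).1
  obtain ⟨G₀, B₀, h4, h5⟩ := branch_frame h hd hx hz' h3 h2
  choose G hG using fun j => pushb_loc (hl j)
  obtain ⟨U, h1, -, -⟩ := push_loc h (y := Fin.cons z y) (G := Fin.cons G₀ G)
    (B := Fin.cons B₀ fun _ => 0) (Fin.cons_injective_iff.2 ⟨hz, hy⟩)
    fun j => Fin.cases h5 hG j
  refine ⟨U, _, _, pushb_card 0, fun i j => ?_, fun i hi j => ?_, h1⟩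
  · rw [bd, Matrix.of_apply]
    split_ifs
    · exact Fin.cases (h4 _ _) (fun _ => Ov.zero 0) (sh i)
    · exact Ov.zero 0
  · obtain ⟨l, hl⟩ := Fin.exists_succ_eq.2 fun e => hi (pushb_mem e)
    rw [bd, Matrix.of_apply, ← hl]
    simp

/-- Write `d = m + 2`; the roots are `Fin.cons y (Fin.cons (sg y) fun j => ps (y' j))`, and the same
for the matrices (`LocG.ps`, `LocG.sg`); they are distinct (`sg_ne`, `sg_ps`, `sg_sg`; `ps` is
injective). -/
theorem bra_roots (hd : 2 ≤ d) (hS : S.Bra d t) : ∃ (y : Fin d → LL)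
    (G : Fin d → Matrix (Fin r) (Fin r) LL) (u v : Fin d), Function.Injective y ∧
      (∀ j, LocG S (xt t 2) (y j) (G j) 0) ∧ sg (y u) ≠ y u ∧
      (∀ j, sg (y j) = y (Equiv.swap u v j)) ∧ ∀ j, (G j).map sg = G (Equiv.swap u v j) := by
  obtain ⟨m, rfl⟩ : ∃ m, d = m + 2 := ⟨d - 2, by omega⟩
  obtain ⟨⟨y', hy', hl'⟩, y, hl, k, hk, hk'⟩ := hS
  choose G' hG' using fun j => pushb_loc (hl' j)
  obtain ⟨G, hG⟩ := pushb_loc hl
  have hne := sg_ne hk hk'
  have hsw : ∀ j : Fin m, Equiv.swap (0 : Fin (m + 2)) 1 j.succ.succ = j.succ.succ := fun j =>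
    Equiv.swap_apply_of_ne_of_ne (Fin.succ_ne_zero _) (Fin.succ_succ_ne_one _)
  refine ⟨Fin.cons y (Fin.cons (sg y) fun j : Fin m => ps (y' j)),
    Fin.cons G (Fin.cons (G.map sg) fun j : Fin m => (G' j).map ps), 0, 1, ?_, fun j => ?_, hne,
    fun j => ?_, fun j => ?_⟩
  · refine Fin.cons_injective_iff.2 ⟨?_, Fin.cons_injective_iff.2 ⟨?_, ps.injective.comp hy'⟩⟩
    · rintro ⟨j, hj⟩
      refine Fin.cases (fun hj => hne hj) (fun j hj => hne ?_) j hj
      rw [Fin.cons_succ] at hj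
      rw [← hj, sg_ps]
    · rintro ⟨j, hj⟩
      have h1 := congrArg sg hj
      rw [sg_ps, sg_sg] at h1
      exact hne (hj.symm.trans h1)
  · exact Fin.cases hG (fun j => Fin.cases hG.sg (fun j => (hG' j).ps) j) j
  · refine Fin.cases ?_ (fun j => Fin.cases ?_ (fun j => ?_) j) j
    · rw [Equiv.swap_apply_left]
      rfl
    · rw [Fin.succ_zero_eq_one, Equiv.swap_apply_right]
      exact sg_sg y
    · rw [hsw]
      exact sg_ps _
  · refine Fin.cases ?_ (fun j => Fin.cases ?_ (fun j => ?_) j) j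
    · rw [Equiv.swap_apply_left]
      rfl
    · rw [Fin.succ_zero_eq_one, Equiv.swap_apply_right]
      exact Matrix.ext fun a b => sg_sg _
    · rw [hsw]
      exact Matrix.ext fun a b => sg_ps _

/-- With `π i = ix (co i) (Equiv.swap u v (sh i))` the matrices `U.map sg` and `U.submatrix id π` have
the same products with all `Om r d (y j)` (`om_map` for `sgH`, `om_inj`). `J` is the image of
`fun a => ix a u`. -/
theorem push_bra (hr : 1 ≤ r) (hd : 2 ≤ d) (h : Prep S d q δ) (hS : S.Bra d t) :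
    ∃ U : LM (r * d), TB r (δ * S.D) (pB S d q δ) t U ∧ ∃ (j : Fin (r * d)) (τ : LL), sg τ ≠ τ ∧
      ((pM S d).map (ev (xt t 2)) *ᵥ fun i => U i j) = τ • fun i => U i j := by
  obtain ⟨y, G, u, v, hy, hG, hne, hys, hGs⟩ := bra_roots hd hS
  obtain ⟨U, h1, h2, h3⟩ := push_loc h hy (B := fun _ => 0) hG
  rw [pushb_bd] at h1
  let π : Fin (r * d) → Fin (r * d) := fun i => ix (co i) (Equiv.swap u v (sh i))
  have key : U.map sg = U.submatrix id π := by
    refine om_inj hy fun j => ?_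
    have e1 : Om r d (y j) * U.map sg = (Om r d (y (Equiv.swap u v j)) * U).map sgH := by
      rw [Matrix.map_mul, om_map, sgH_apply, hys, Equiv.swap_apply_self]
      rfl
    have e2 : Om r d (y j) * U.submatrix id π = (Om r d (y j) * U).submatrix id π := rfl
    rw [e1, e2, h3, h3]
    refine Matrix.ext fun a i => ?_
    simp only [blk, π, Matrix.map_apply, Matrix.submatrix_apply, Matrix.of_apply, id, sh_ix, co_ix,
      Equiv.swap_apply_eq_iff]
    split_ifs
    · have e3 := congrFun (congrFun (hGs (Equiv.swap u v j)) a) (co i)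
      rwa [Equiv.swap_apply_self] at e3
    · exact map_zero _
  refine ⟨U, ⟨h1, π, _, pushb_card u, fun i j => congrFun (congrFun key i) j, fun j hj => ?_⟩,
    ix ⟨0, hr⟩ u, y u, hne, funext fun i => ?_⟩
  · by_cases hv : sh j = v
    · exact Or.inr (pushb_mem (by simp only [π, sh_ix, hv, Equiv.swap_apply_right]))
    · refine Or.inl ?_
      simp only [π]
      rw [Equiv.swap_apply_of_ne_of_ne (fun e => hj (pushb_mem e)) hv, ix_co_sh]
  · have e := congrFun (congrFun h2 i) (ix ⟨0, hr⟩ u)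
    rw [mul_diagonal, sh_ix, mul_comm (U i _)] at e
    exact e

end Pool.Agent.GR.CV
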