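import Pool.Agent.Lib.MP_aa40d3_nt.CV.Gau

/-! The connection on rows. -/

open Polynomial Matrix
open scoped Polynomial.Bivariate

namespace Pool.Agent.GR.CV

variable {N : ℕ}

variable {D D' : ℂ[X]} {B B' G : PM N}

theorem th_add (u v : Fin N → ℂ[X]) : th D B (u + v) = th D B u + th D B v := by
  rw [th, th, th, add_vecMul]
  funext a
  simp only [Pi.add_apply, Pi.smul_apply, smul_eq_mul, derivative_add]
  ring

theorem th_smul (c : ℂ[X]) (u : Fin N → ℂ[X]) :
    th D B (c • u) = c • th D B u + (D * derivative c) • u := by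
  rw [th, th, smul_vecMul]
  funext a
  simp only [Pi.add_apply, Pi.smul_apply, smul_eq_mul, derivative_mul]
  ring

theorem th_const (c : Fin N → ℂ) : th D B (fun i => C (c i)) = (fun i => C (c i)) ᵥ* B := by
  funext a
  simp only [th, Pi.add_apply, Pi.smul_apply, smul_eq_mul, derivative_C, mul_zero, zero_add]

theorem gaut_iff : Gau D B D' B' 1 G ↔ D' • (D • G.map derivative + G * B) = D • (B' * G) := by
  rw [Gau, derivative_one, zero_mul, zero_smul, sub_zero, one_mul, one_smul]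

theorem gaut_der (c : Fin N → ℂ[X]) (G : PM N) : (fun a => derivative ((c ᵥ* G) a)) =
    (fun a => derivative (c a)) ᵥ* G + c ᵥ* G.map derivative := by
  funext a
  simp only [vecMul, dotProduct, derivative_sum, derivative_mul, Pi.add_apply, map_apply,
    Finset.sum_add_distrib]

theorem Gau.th (h : Gau D B D' B' 1 G) (c : Fin N → ℂ[X]) :
    D' • th D B (c ᵥ* G) = D • (th D' B' c ᵥ* G) := by
  have h1 := congrArg (c ᵥ* ·) (gaut_iff.1 h)
  simp only [vecMul_smul, vecMul_add, ← vecMul_vecMul] at h1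
  rw [CV.th, CV.th, gaut_der, add_vecMul, smul_vecMul, smul_add D, smul_add D, ← h1, add_assoc,
    smul_add D', smul_comm D' D]

/-- Row `i` of `Q` is the coordinate vector of the `l'` that belongs to `G i`. -/
theorem Bas.gau {S : Submodule ℂ[X] (Fin N → ℂ[X])} (h : Bas S G)
    (hs : ∀ l ∈ S, ∃ l' ∈ S, D • l' = D' • th D B l) : ∃ Q, Gau D B D' Q 1 G := by
  have h1 : ∀ i, ∃ c : Fin N → ℂ[X], D • (c ᵥ* G) = D' • th D B (G i) := fun i => by
    obtain ⟨l', hl', e⟩ := hs _ (h.2.1 i)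
    obtain ⟨c, rfl⟩ := h.2.2 l' hl'
    exact ⟨c, e⟩
  choose Q hQ using h1
  refine ⟨Matrix.of Q, gaut_iff.2 ?_⟩
  funext i
  exact (hQ i).symm

theorem vecMul_cancel (hG : G.det ≠ 0) {u v : Fin N → ℂ[X]} (h : u ᵥ* G = v ᵥ* G) : u = v := by
  refine sub_eq_zero.1 (Matrix.eq_zero_of_vecMul_eq_zero hG ?_)
  rw [sub_vecMul, h, sub_self]

end Pool.Agent.GR.CV
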