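import Pool.Agent.Lib.MP_aa40d3_nt.CV.AlgB
import Pool.Agent.Lib.MP_aa40d3_nt.CV.GauT
import Pool.Agent.Lib.MP_aa40d3_nt.GR.Mono

/-! Gauge transformations of analytic solutions. -/

open Polynomial Matrix
open scoped Polynomial.Bivariate

namespace Pool.Agent.GR.CV

variable {N n : ℕ} {D D' ρ : ℂ[X]} {B B' G : PM N}

/-- `mono_pm`, `mono_dl_ne`. -/
theorem algM_of_algSol {t : Fin n → ℂ} {A : Fin n → Matrix (Fin N) (Fin N) ℂ} (h : AlgSol t A) :
    AlgM (dl t) (pm t A) := by
  obtain ⟨x₀, ε, U, hε, h1, h2⟩ := h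
  refine ⟨x₀, ε, U, hε, fun x hx => ?_, h2⟩
  obtain ⟨hne, hd, hD⟩ := h1 x hx
  have h0 := mono_dl_ne t hne
  refine ⟨h0, hd, fun a b => ?_⟩
  have e : (pm t A).map (eval x) = (dl t).eval x • ∑ i, (x - t i)⁻¹ • A i := by
    ext a b
    exact mono_pm t A hne a b
  rw [e, Matrix.smul_mul, smul_smul, inv_mul_cancel₀ h0, one_smul]
  exact hD a b

theorem gaua_mul {F H : ℂ → Matrix (Fin N) (Fin N) ℂ} {F' H' : Matrix (Fin N) (Fin N) ℂ} {x : ℂ}
    (hF : ∀ a b, HasDerivAt (fun z => F z a b) (F' a b) x)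
    (hH : ∀ a b, HasDerivAt (fun z => H z a b) (H' a b) x) (a b : Fin N) :
    HasDerivAt (fun z => (F z * H z) a b) ((F' * H x + F x * H') a b) x := by
  simp only [Matrix.mul_apply, Matrix.add_apply, ← Finset.sum_add_distrib]
  exact HasDerivAt.fun_sum fun c _ => (hF a c).fun_mul (hH c b)

theorem gaua_smul {F : ℂ → Matrix (Fin N) (Fin N) ℂ} {F' : Matrix (Fin N) (Fin N) ℂ} {x c' : ℂ}
    {c : ℂ → ℂ} (hc : HasDerivAt c c' x)
    (hF : ∀ a b, HasDerivAt (fun z => F z a b) (F' a b) x) (a b : Fin N) :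
    HasDerivAt (fun z => (c z • F z) a b) ((c' • F x + c x • F') a b) x := by
  simp only [Matrix.add_apply, Matrix.smul_apply, smul_eq_mul]
  exact hc.fun_mul (hF a b)

theorem gaua_poly (G : PM N) (x : ℂ) (a b : Fin N) :
    HasDerivAt (fun z => G.map (eval z) a b) ((G.map derivative).map (eval x) a b) x :=
  (G a b).hasDerivAt x

theorem gaua_adj (G : PM N) (x : ℂ) :
    G.map (eval x) * G.adjugate.map (eval x) = G.det.eval x • (1 : Matrix (Fin N) (Fin N) ℂ) := by
  have e := congrArg (fun M : PM N => M.map (evalRingHom x)) (mul_adjugate G)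
  simp only [Matrix.map_mul] at e
  refine e.trans ?_
  ext a b
  by_cases hab : a = b <;> simp [hab]

theorem gaua_det (G : PM N) (x : ℂ) : (G.map (eval x)).det = G.det.eval x :=
  ((evalRingHom x).map_det G).symm

theorem gaua_eval (h : Gau D B D' B' ρ G) (x : ℂ) :
    D'.eval x • ((ρ.eval x * D.eval x) • (G.map derivative).map (eval x) -
      ((derivative ρ).eval x * D.eval x) • G.map (eval x) +
      ρ.eval x • (G.map (eval x) * B.map (eval x))) =
      (ρ.eval x * D.eval x) • (B'.map (eval x) * G.map (eval x)) := by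
  ext a b
  have e := congrArg (eval x) (congrFun (congrFun h a) b)
  simpa [Matrix.mul_apply, eval_finsetSum] using e

/-- On a smaller disc (`exists_ball` for `D * ρ * G.det`) take
`U x = (ρ x * (G.det x)⁻¹) • (adjugate G x * U' x)`. It is differentiable and `G x * U x = ρ x • U' x`;
differentiate this relation, use `h` at `x`, and cancel the invertible matrix `G x`. -/
theorem Gau.algM (h : Gau D B D' B' ρ G) (hD : D ≠ 0) (hρ : ρ ≠ 0) (hG : G.det ≠ 0)
    (hA : AlgM D' B') : AlgM D B := by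
  obtain ⟨x₀, ε, V, hε, h1, h2⟩ := hA
  obtain ⟨x₁, η, hη, hsub, hne⟩ := exists_ball (mul_ne_zero (mul_ne_zero hD hρ) hG) x₀ hε
  have hne' : ∀ x ∈ Metric.ball x₁ η, D.eval x ≠ 0 ∧ ρ.eval x ≠ 0 ∧ G.det.eval x ≠ 0 := by
    intro x hx
    have := hne x hx
    simp only [eval_mul, ne_eq, mul_eq_zero, not_or] at this
    exact ⟨this.1.1, this.1.2, this.2⟩
  set U : ℂ → Matrix (Fin N) (Fin N) ℂ := fun x =>
    (ρ.eval x * (G.det.eval x)⁻¹) • (G.adjugate.map (eval x) * V x) with hU
  have hrel : ∀ x ∈ Metric.ball x₁ η, G.map (eval x) * U x = ρ.eval x • V x := by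
    intro x hx
    simp only [hU]
    rw [Matrix.mul_smul, ← Matrix.mul_assoc, gaua_adj, Matrix.smul_mul, Matrix.one_mul, smul_smul,
      mul_assoc, inv_mul_cancel₀ (hne' x hx).2.2, mul_one]
  refine ⟨x₁, η, U, hη, fun x hx => ?_, fun a b => ?_⟩
  · obtain ⟨hDx, hρx, hGx⟩ := hne' x hx
    obtain ⟨hD'x, hVx, hV⟩ := h1 x (hsub hx)
    refine ⟨hDx, ?_, ?_⟩
    · intro h0
      have e := congrArg Matrix.det (hrel x hx)
      rw [det_mul, h0, mul_zero, det_smul] at e
      exact mul_ne_zero (pow_ne_zero _ hρx) hVx e.symm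
    · obtain ⟨U', hU'⟩ : ∃ U' : Matrix (Fin N) (Fin N) ℂ,
          ∀ a b, HasDerivAt (fun z => U z a b) (U' a b) x :=
        ⟨_, gaua_smul ((ρ.hasDerivAt x).fun_mul ((G.det.hasDerivAt x).fun_inv hGx))
          (gaua_mul (gaua_poly G.adjugate x) hV)⟩
      have e1 : (G.map derivative).map (eval x) * U x + G.map (eval x) * U' =
          (derivative ρ).eval x • V x +
            ρ.eval x • ((D'.eval x)⁻¹ • (B'.map (eval x) * V x)) := by
        ext a b
        refine (gaua_mul (gaua_poly G x) hU' a b).unique ?_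
        refine (gaua_smul (ρ.hasDerivAt x) hV a b).congr_of_eventuallyEq ?_
        filter_upwards [Metric.isOpen_ball.mem_nhds hx] with z hz
        rw [hrel z hz]
      have e2 := congrArg (· * U x) (gaua_eval h x)
      simp only [Matrix.smul_mul, Matrix.add_mul, Matrix.sub_mul, Matrix.mul_assoc, hrel x hx,
        Matrix.mul_smul] at e2
      have e3 : G.map (eval x) * U' =
          G.map (eval x) * ((D.eval x)⁻¹ • (B.map (eval x) * U x)) := by
        rw [Matrix.mul_smul]
        ext a b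
        have f1 := congrFun (congrFun e1 a) b
        have f2 := congrFun (congrFun e2 a) b
        simp only [Matrix.add_apply, Matrix.sub_apply, Matrix.smul_apply, smul_eq_mul] at f1 f2 ⊢
        field_simp at f1 f2 ⊢
        apply mul_left_cancel₀ hD'x
        linear_combination D.eval x * f1 - f2
      have hu : IsUnit (G.map (eval x)).det := by
        rw [gaua_det]
        exact hGx.isUnit
      have e4 : U' = (D.eval x)⁻¹ • (B.map (eval x) * U x) := by
        have := congrArg ((G.map (eval x))⁻¹ * ·) e3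
        simpa only [← Matrix.mul_assoc, nonsing_inv_mul _ hu, Matrix.one_mul] using this
      rw [← e4]
      exact hU'
  · have hV : ∀ a b, AlgF (Metric.ball x₁ η) fun x => V x a b := fun a b =>
      AlgF.mono (h2 a b) hsub
    have hG' : ∀ a b, AlgF (Metric.ball x₁ η) fun x => G.adjugate.map (eval x) a b := fun a b =>
      algF_poly _ (G.adjugate a b)
    exact ((algF_poly _ ρ).mul (algF_inv hG fun x hx => (hne' x hx).2.2)).mul
      (AlgF.mat_mul hG' hV a b)

end Pool.Agent.GR.CV
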