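import Pool.Agent.Lib.MP_aa40d3_nt.CV.PushL

/-! A frame on one branch. -/

open Polynomial Matrix
open scoped Polynomial.Bivariate

namespace Pool.Agent.GR.CV

/-- Expand `det (T * M)` by multilinearity in the columns (`Matrix.detRowAlternating` for the
transpose, `MultilinearMap.map_sum`, `map_smul_univ`). -/
theorem exists_minor {K : Type} [Field K] {r N : ℕ} {T : Matrix (Fin r) (Fin N) K}
    {M : Matrix (Fin N) (Fin r) K} (h : (T * M).det ≠ 0) :
    ∃ σ : Fin r → Fin N, (T.submatrix id σ).det ≠ 0 := by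
  by_contra hc
  simp only [not_exists, not_not] at hc
  have e : (T * M).det = ∑ p : Fin r → Fin N, (T.submatrix id p).det * ∏ i, M (p i) i := by
    simp only [det_apply', Matrix.mul_apply, Finset.prod_univ_sum, Finset.mul_sum,
      Fintype.piFinset_univ, Finset.sum_mul]
    rw [Finset.sum_comm]
    refine Finset.sum_congr rfl fun p _ => Finset.sum_congr rfl fun τ _ => ?_
    rw [Finset.prod_mul_distrib, mul_assoc]
    rfl
  exact h (e.trans (Finset.sum_eq_zero fun p _ => by rw [hc p, zero_mul]))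

theorem katc_cramer {K : Type} [Field K] {r N : ℕ} (T : Matrix (Fin r) (Fin N) K)
    {σ : Fin r → Fin N} (h : (T.submatrix id σ).det ≠ 0) :
    T = T.submatrix id σ * Matrix.of fun a j =>
      (T.submatrix id σ).det⁻¹ * (T.submatrix id (Function.update σ a j)).det := by
  refine Matrix.ext fun i j => ?_
  have e : ∀ a, T.submatrix id (Function.update σ a j) =
      (T.submatrix id σ).updateCol a fun i => T i j := fun a => by
    refine Matrix.ext fun u v => ?_
    rw [Matrix.updateCol_apply, Matrix.submatrix_apply, Function.update_apply]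
    split_ifs <;> rfl
  have h1 := congrFun (Matrix.mulVec_cramer (T.submatrix id σ) fun i => T i j) i
  simp only [mulVec, dotProduct, cramer_apply, Pi.smul_apply, smul_eq_mul] at h1
  simp only [Matrix.mul_apply, Matrix.of_apply, e, mul_left_comm _ (T.submatrix id σ).det⁻¹]
  rw [← Finset.mul_sum, h1, inv_mul_cancel_left₀ h]

/-- Among the `σ` with a nonzero minor take one of least order (`exists_lead`, or
`HahnSeries.order`). By Cramer's rule the entries of `(T.submatrix id σ)⁻¹ * T` are quotients of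
the minors for `Function.update σ a j` by the minor for `σ` (`Ov.inv`, `Ov.mul`). -/
theorem exists_unimod {r N : ℕ} {T : Matrix (Fin r) (Fin N) LL} {M : Matrix (Fin N) (Fin r) LL}
    (h : (T * M).det ≠ 0) : ∃ (σ : Fin r → Fin N) (T₀ : Matrix (Fin r) (Fin N) LL),
      (T.submatrix id σ).det ≠ 0 ∧ (∀ a j, Ov 0 (T₀ a j)) ∧ T = T.submatrix id σ * T₀ := by
  classical
  obtain ⟨σ₀, h0⟩ := exists_minor h
  obtain ⟨σ, hσ, hm⟩ := Finset.exists_min_image
    (Finset.univ.filter fun σ : Fin r → Fin N => (T.submatrix id σ).det ≠ 0)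
    (fun σ => (T.submatrix id σ).det.order) ⟨σ₀, Finset.mem_filter.2 ⟨Finset.mem_univ _, h0⟩⟩
  have hd := (Finset.mem_filter.1 hσ).2
  refine ⟨σ, _, hd, fun a j => ?_, katc_cramer T hd⟩
  rw [Matrix.of_apply]
  by_cases h1 : (T.submatrix id (Function.update σ a j)).det = 0
  · rw [h1, mul_zero]
    exact Ov.zero 0
  · have h2 := hm _ (Finset.mem_filter.2 ⟨Finset.mem_univ _, h1⟩)
    have h3 : Ov (T.submatrix id σ).det.order (T.submatrix id σ).det :=
      fun _ hk => HahnSeries.coeff_eq_zero_of_lt_order hk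
    have h4 : Ov (T.submatrix id σ).det.order (T.submatrix id (Function.update σ a j)).det :=
      fun _ hk => HahnSeries.coeff_eq_zero_of_lt_order (hk.trans_le h2)
    have h5 := (h3.inv fun e => hd (HahnSeries.coeff_order_eq_zero.1 e)).mul h4
    rwa [neg_add_cancel] at h5

theorem katc_alg {K m n : Type} [Field K] [Fintype m] [Fintype n] {O O' : Matrix m n K}
    {U U' Cm Pb : Matrix n n K} {A : Matrix m m K} {e D s x' y' w : K} (he : e ≠ 0)
    (h1 : O * Pb = e • (A * O) + (D * w) • O')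
    (h3 : (e * D) • (s • U' + U * Cm) = (s * x') • (Pb * U)) (h4 : e * y' = -(w * x')) :
    D • (s • (y' • O' * U + O * U') + O * U * Cm) = (s * x') • (A * (O * U)) := by
  have h2 := congrArg (O * ·) h3
  simp only [Matrix.mul_smul, Matrix.mul_add, ← Matrix.mul_assoc, h1, Matrix.add_mul,
    Matrix.smul_mul] at h2
  rw [Matrix.smul_mul, ← Matrix.mul_assoc]
  refine Matrix.ext fun a i => mul_left_cancel₀ he ?_
  have h5 := congrFun (congrFun h2 a) i
  simp only [Matrix.smul_apply, Matrix.add_apply, smul_eq_mul] at h5 ⊢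
  linear_combination h5 + D * s * (O' * U) a i * h4

theorem katc_om {K : Type} [Field K] {r d : ℕ} (hd : d ≠ 0) (y : K) :
    Om r d y * (Om r d (0 : K))ᵀ = 1 := by
  refine Matrix.ext fun a b => ?_
  rw [Matrix.mul_apply, sum_ix, Finset.sum_eq_single a, Finset.sum_eq_single ⟨0, hd.bot_lt⟩]
  · simp [Om, Matrix.one_apply, eq_comm]
  · intro k _ hk
    have : (k : ℕ) ≠ 0 := fun e => hk (Fin.ext e)
    simp [Om, this]
  · exact fun h => absurd (Finset.mem_univ _) h
  · intro c _ hc
    simp [Om, hc.symm]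
  · exact fun h => absurd (Finset.mem_univ _) h

theorem katc_det {K : Type} [Field K] {r d : ℕ} (hd : d ≠ 0) (y : K)
    {U : Matrix (Fin (r * d)) (Fin (r * d)) K} (hU : U.det ≠ 0) :
    (Om r d y * U * (U⁻¹ * (Om r d (0 : K))ᵀ)).det ≠ 0 := by
  rw [Matrix.mul_assoc, Matrix.mul_nonsing_inv_cancel_left _ _ (isUnit_iff_ne_zero.2 hU),
    katc_om hd, det_one]
  exact one_ne_zero

theorem katc_col {K m n : Type} [Field K] [Fintype m] [Fintype n] {T T₀ : Matrix m n K}
    {σ : m → n} (hT : T = T.submatrix id σ * T₀) (Cm : Matrix n n K) (a b : m) :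
    (T.submatrix id σ * (T₀ * Cm).submatrix id σ) a b = (T * Cm) a (σ b) := by
  conv_rhs => rw [hT, Matrix.mul_assoc]
  rfl

variable {r d : ℕ} {S : Sys ℂ r} {q : ℂ[X][Y]} {δ : ℂ[X]} {x y : LL} {U Cm : LM (r * d)}

/-- Multiply the equation of the frame by `Om r d y`; `om_dL`, `om_pB`, `Prep.der`; cancel
`ev x δ`. -/
theorem om_msol (h : Prep S d q δ) (hδ : ev x δ ≠ 0) (hy : aevalAeval x y S.P = 0)
    (hU : MSol (δ * S.D) (pB S d q δ) x U Cm) :
    ev x S.D • (sL • (Om r d y * U).map dL + Om r d y * U * Cm) =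
      (sL * dL x) • (S.A.map (aevalAeval x y) * (Om r d y * U)) := by
  have hC : (fun c : ℂ[X] => (aevalAeval x y : ℂ[X][Y] →ₐ[ℂ] LL).toRingHom (C c)) = ev x :=
    funext fun c => pushl_C x y c
  have hY : (aevalAeval x y : ℂ[X][Y] →ₐ[ℂ] LL).toRingHom Y = y := pushl_Y x y
  have h1 := om_pB h (aevalAeval x y : ℂ[X][Y] →ₐ[ℂ] LL).toRingHom hy
  rw [hC, hY] at h1
  have h1' : Om r d y * (pB S d q δ).map (ev x) =
      ev x δ • (S.A.map (aevalAeval x y) * Om r d y) +
        (ev x S.D * aevalAeval x y (q * dX S.P)) • Om' r d y := by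
    rw [h1, ← pushl_C x y δ, ← pushl_C x y S.D, ← map_mul]
    rfl
  have h2 := hU.2
  rw [map_mul] at h2
  rw [map_dL_mul, om_dL]
  exact katc_alg hδ h1' h2 (h.der hy)

/-- `Om r d y * (Om r d 0)ᵀ = 1`, so `exists_unimod` applies to `T = Om r d y * U` and
`M = U⁻¹ * (Om r d 0)ᵀ`. Take the columns `σ` of `om_msol`: `G = T.submatrix id σ`,
`B = (T₀ * Cm).submatrix id σ`. -/
theorem branch_frame (h : Prep S d q δ) (hd : d ≠ 0) (hδ : ev x δ ≠ 0)
    (hy : aevalAeval x y S.P = 0) (hU : MSol (δ * S.D) (pB S d q δ) x U Cm)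
    (hC : ∀ i j, Ov 0 (Cm i j)) :
    ∃ G B : Matrix (Fin r) (Fin r) LL, (∀ a b, Ov 0 (B a b)) ∧ LocG S x y G B := by
  obtain ⟨σ, T₀, h1, h2, h3⟩ := exists_unimod (katc_det hd y hU.1)
  refine ⟨(Om r d y * U).submatrix id σ, (T₀ * Cm).submatrix id σ, fun a b => ?_, hy, h1,
    Matrix.ext fun a b => ?_⟩
  · rw [Matrix.submatrix_apply, Matrix.mul_apply]
    exact Ov.sum fun j _ => (h2 a j).mul_left (hC j (σ b))
  · have h4 := congrFun (congrFun (om_msol h hδ hy hU) a) (σ b)
    simp only [Matrix.smul_apply, Matrix.add_apply] at h4 ⊢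
    rw [katc_col h3]
    exact h4

end Pool.Agent.GR.CV
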