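import Pool.Agent.Lib.MP_aa40d3_nt.CV.PushN
import Pool.Agent.Lib.MP_aa40d3_nt.CV.AlgB

/-! From the direct image back to the curve. -/

open Polynomial Matrix
open scoped Polynomial.Bivariate

namespace Pool.Agent.GR.CV

variable {r d : ℕ} {S : Sys ℂ r} {q : ℂ[X][Y]} {δ : ℂ[X]}

theorem hasDerivAt_om {y : ℂ → ℂ} {y' x : ℂ} (hy : HasDerivAt y y' x) (a : Fin r)
    (j : Fin (r * d)) : HasDerivAt (fun z => Om r d (y z) a j) (y' * Om' r d (y x) a j) x := by
  by_cases h : a = co j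
  · simp only [Om, Om', Matrix.of_apply, if_pos h]
    exact (hy.fun_pow (sh j : ℕ)).congr_deriv (by ring)
  · simp only [Om, Om', Matrix.of_apply, if_neg h, mul_zero]
    exact hasDerivAt_const x 0

/-- Differentiate `P(x, y x) = 0` (`hasDerivAt_evalEval`) and multiply by `q`. -/
theorem Prep.deriv (h : Prep S d q δ) {y : ℂ → ℂ} {y' x : ℂ} (hy : HasDerivAt y y' x)
    (h0 : ∀ᶠ z in nhds x, S.P.evalEval z (y z) = 0) :
    δ.eval x * y' = -(q * dX S.P).evalEval x (y x) := by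
  have h1 := (hasDerivAt_evalEval hy S.P).unique
    ((hasDerivAt_const x (0 : ℂ)).congr_of_eventuallyEq h0)
  obtain ⟨c, hc⟩ := h.2.2
  have h2 := congrArg (evalEval x (y x)) hc
  rw [evalEval_sub, evalEval_mul, evalEval_mul, evalEval_C, h0.self_of_nhds, zero_mul] at h2
  rw [evalEval_mul]
  linear_combination q.evalEval x (y x) * h1 - y' * h2

theorem pusha_mul {α β γ : Type} [Fintype β] {F : ℂ → Matrix α β ℂ} {G : ℂ → Matrix β γ ℂ}
    {F' : Matrix α β ℂ} {G' : Matrix β γ ℂ} {x : ℂ}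
    (hF : ∀ a b, HasDerivAt (fun z => F z a b) (F' a b) x)
    (hG : ∀ a b, HasDerivAt (fun z => G z a b) (G' a b) x) (a : α) (c : γ) :
    HasDerivAt (fun z => (F z * G z) a c) ((F' * G x + F x * G') a c) x := by
  simp only [Matrix.add_apply, Matrix.mul_apply, ← Finset.sum_add_distrib]
  exact HasDerivAt.fun_sum fun b _ => (hF a b).fun_mul (hG b c)

theorem pusha_one (hd : d ≠ 0) (y : ℂ) : Om r d y * (Om r d (0 : ℂ))ᵀ = 1 := by
  obtain ⟨e, rfl⟩ := Nat.exists_eq_succ_of_ne_zero hd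
  ext a b
  rw [om_mul, Fin.sum_univ_succ]
  simp [Om, Matrix.one_apply, eq_comm]

theorem pusha_root (h : Prep S d q δ) (hd : d ≠ 0) {x₀ : ℂ} (hδ : δ.eval x₀ ≠ 0) :
    ∃ y₀, S.P.evalEval x₀ y₀ = 0 ∧ (derivative S.P).evalEval x₀ y₀ ≠ 0 := by
  have hm : (S.P.map (evalRingHom x₀)).degree ≠ 0 := by
    rw [h.1.degree_map, degree_eq_natDegree h.1.ne_zero, h.2.1]
    exact_mod_cast hd
  obtain ⟨y₀, hy⟩ := IsAlgClosed.exists_root _ hm
  have h0 : S.P.evalEval x₀ y₀ = 0 := by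
    rw [← map_evalRingHom_eval]
    exact hy
  refine ⟨y₀, h0, fun h1 => hδ ?_⟩
  obtain ⟨c, hc⟩ := h.2.2
  have h2 := congrArg (evalEval x₀ y₀) hc
  rw [evalEval_sub, evalEval_mul, evalEval_mul, evalEval_C, h0, h1, zero_mul, mul_zero] at h2
  linear_combination -h2

theorem pusha_eq (h : Prep S d q δ) {x y y' : ℂ} (h0 : S.P.evalEval x y = 0)
    (hD : (δ * S.D).eval x ≠ 0) (hy : δ.eval x * y' = -(q * dX S.P).evalEval x y) :
    y' • Om' r d y + ((δ * S.D).eval x)⁻¹ • (Om r d y * (pB S d q δ).map (eval x)) =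
      (S.D.eval x)⁻¹ • (S.A.map (evalEval x y) * Om r d y) := by
  have h1 := om_pB h (evalEvalRingHom x y) h0
  simp only [coe_evalEvalRingHom, evalEval_X, evalEval_C, evalEval_mul] at h1
  rw [eval_mul] at hD
  have ha := left_ne_zero_of_mul hD
  have hb := right_ne_zero_of_mul hD
  rw [evalEval_mul] at hy
  have h2 : q.evalEval x y * (dX S.P).evalEval x y = -(δ.eval x * y') := by
    linear_combination hy
  rw [h2] at h1
  rw [show (pB S d q δ).map (eval x) = (pB S d q δ).map fun c => eval x c from rfl, h1, eval_mul,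
    smul_add, smul_smul, smul_smul,
    show (δ.eval x * S.D.eval x)⁻¹ * δ.eval x = (S.D.eval x)⁻¹ by field_simp,
    show (δ.eval x * S.D.eval x)⁻¹ * (S.D.eval x * -(δ.eval x * y')) = -y' by field_simp, neg_smul]
  abel

/-- At the centre `x₀` the monic polynomial `P(x₀, ·)` has a root `y₀`, simple because
`δ(x₀) ≠ 0`; `exists_branch`. Put `Z x = Om r d (y x) * U x * E`, with
`E = (U x₀)⁻¹ * (Om r d 0)ᵀ`, so that `Z x₀ = 1`; the determinant is not zero near `x₀`. The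
equation follows from `om_pB` for `ψ = evalEvalRingHom x (y x)`. `AlgF.mat_mul`. -/
theorem push_alg (h : Prep S d q δ) (hd : d ≠ 0) (hA : AlgM (δ * S.D) (pB S d q δ)) : S.Alg := by
  obtain ⟨x₀, ε, U, hε, hU, hQ⟩ := hA
  have hx₀ := hU x₀ (Metric.mem_ball_self hε)
  obtain ⟨y₀, h0, h1⟩ := pusha_root h hd (left_ne_zero_of_mul (eval_mul.symm.trans_ne hx₀.1))
  obtain ⟨y, hy⟩ := exists_branch h0 h1
  obtain ⟨E, hE⟩ : ∃ E : Matrix (Fin (r * d)) (Fin r) ℂ, E = (U x₀)⁻¹ * (Om r d (0 : ℂ))ᵀ :=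
    ⟨_, rfl⟩
  have hZ : ∀ᶠ x in nhds x₀, ∀ a b, HasDerivAt (fun z => (Om r d (y z) * U z * E) a b)
      (((S.D.eval x)⁻¹ • (S.A.map (evalEval x (y x)) * (Om r d (y x) * U x * E))) a b) x := by
    filter_upwards [hy.eventually_nhds, Metric.ball_mem_nhds x₀ hε] with x hx hb a b
    have hdy := hx.self_of_nhds.1.hasDerivAt
    have h2 := pusha_eq h hx.self_of_nhds.2 (hU x hb).1 (h.deriv hdy (hx.mono fun _ t => t.2))
    have h3 := pusha_mul (F' := _root_.deriv y x • Om' r d (y x)) (hasDerivAt_om hdy)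
      (hU x hb).2.2
    have h4 := pusha_mul h3 (G := fun _ => E) (G' := 0) (fun a b => hasDerivAt_const x _) a b
    have h5 := congrArg (fun M => (M * U x * E) a b) h2
    refine h4.congr_deriv ?_
    simpa only [Matrix.mul_zero, add_zero, Matrix.add_mul, Matrix.smul_mul, Matrix.mul_smul,
      Matrix.mul_assoc] using h5
  have hc : ContinuousAt (fun z => (Om r d (y z) * U z * E).det) x₀ :=
    (continuous_id.matrix_det.continuousAt).comp (continuousAt_pi.2 fun a => continuousAt_pi.2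
      fun b => (hZ.self_of_nhds a b).continuousAt)
  have h5 : (Om r d (y x₀) * U x₀ * E).det ≠ 0 := by
    rw [hE, Matrix.mul_assoc, Matrix.mul_nonsing_inv_cancel_left _ _ (Ne.isUnit hx₀.2.1),
      pusha_one hd, det_one]
    exact one_ne_zero
  obtain ⟨η, hη, hb⟩ := Metric.eventually_nhds_iff_ball.1
    ((hy.and hZ).and ((hc.eventually_ne h5).and (Metric.ball_mem_nhds x₀ hε)))
  refine ⟨x₀, η, y, fun z => Om r d (y z) * U z * E, hη, fun x hx => ⟨(hb x hx).1.1.1,
    (hb x hx).1.1.2, right_ne_zero_of_mul (eval_mul.symm.trans_ne (hU x (hb x hx).2.2).1),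
    (hb x hx).2.1, (hb x hx).1.2⟩, fun a b => ?_⟩
  have hya : AlgF (Metric.ball x₀ η) y := ⟨S.P, h.1.ne_zero, fun x hx => (hb x hx).1.1.2⟩
  refine AlgF.mat_mul (V := Metric.ball x₀ η) (W := fun _ => E)
    (AlgF.mat_mul (fun a j => ?_) fun a j => AlgF.mono (hQ a j) fun x hx => (hb x hx).2.2)
    (fun a j => algF_const _ _) a b
  by_cases e : a = co j
  · simp only [Om, Matrix.of_apply, if_pos e]
    exact hya.pow _
  · simp only [Om, Matrix.of_apply, if_neg e]
    exact algF_const _ _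

end Pool.Agent.GR.CV
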