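import Pool.Agent.Lib.MP_aa40d3_nt.CV.SigP
import Pool.Agent.Lib.MP_aa40d3_nt.CV.GauT

/-! Gauge transformations of frames. -/

open Polynomial Matrix
open scoped Polynomial.Bivariate

namespace Pool.Agent.GR.CV

variable {N n r : ℕ} {D D' ρ ρ' : ℂ[X]} {B B' G G' : PM N} {x : LL} {U Cm : LM N}

theorem gaul_id {K : Type} [Field K] {d d' q q₁ s ξ : K}
    {g g₁ b b' V V₁ E : Matrix (Fin N) (Fin N) K} (hd : d ≠ 0) (hq : q ≠ 0)
    (h1 : d' • ((q * d) • g₁ - (q₁ * d) • g + q • (g * b)) = (q * d) • (b' * g))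
    (h2 : d • (s • V₁ + V * E) = (s * ξ) • (b * V)) :
    d' • (s • (-(q⁻¹ ^ 2 * (q₁ * ξ)) • (g * V) + q⁻¹ • (ξ • g₁ * V + g * V₁)) +
      q⁻¹ • (g * V) * E) = (s * ξ) • (b' * q⁻¹ • (g * V)) := by
  have e1 := congrArg (· * V) h1
  have e2 := congrArg (g * ·) h2
  simp only [Matrix.smul_mul, Matrix.mul_smul, Matrix.add_mul, Matrix.sub_mul, Matrix.mul_add,
    Matrix.mul_assoc] at e1 e2 ⊢
  linear_combination (norm := skip) (s * ξ * q⁻¹ ^ 2 * d⁻¹) • e1 + (d' * q⁻¹ * d⁻¹) • e2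
  match_scalars <;> field_simp <;> ring

theorem gaul_comp {K : Type} [Field K] (q q' : K) (g g' V : Matrix (Fin N) (Fin N) K) :
    q'⁻¹ • (g' * q⁻¹ • (g * V)) = (q * q')⁻¹ • (g' * g * V) := by
  rw [Matrix.mul_smul, smul_smul, _root_.mul_inv_rev, Matrix.mul_assoc]

theorem gaul_diag {K : Type} [Field K] {s : K} (hs : s ≠ 0) (m : ℤ) (k : Fin N → ℤ)
    (g V : Matrix (Fin N) (Fin N) K) :
    g * (V * diagonal fun j => s ^ k j) = s ^ m • g * V * diagonal fun j => s ^ (k j - m) := by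
  rw [Matrix.smul_mul, Matrix.smul_mul, ← Matrix.mul_smul, ← diagonal_smul, Matrix.mul_assoc]
  congr 3
  funext j
  rw [Pi.smul_apply, smul_eq_mul, ← zpow_add₀ hs, add_sub_cancel]

theorem gaul_smul (x : LL) (c : ℂ[X]) (G : PM N) : (c • G).map (ev x) = ev x c • G.map (ev x) :=
  Matrix.ext fun _ _ => map_mul (ev x) _ _

theorem ga_one : ga 1 G x U = G.map (ev x) * U := by
  rw [ga, map_one, inv_one, one_smul]

theorem ga_comp : ga ρ' G' x (ga ρ G x U) = ga (ρ * ρ') (G' * G) x U := by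
  rw [ga, ga, ga, map_mul, Matrix.map_mul]
  exact gaul_comp _ _ _ _ _

/-- Apply `ev x` to the identity `h`; `map_dL_smul`, `map_dL_mul`, `map_dL_ev`, `dL_inv`, `dL_ev`;
cancel `ev x (ρ * D)`. -/
theorem Gau.msol (h : Gau D B D' B' ρ G) (hD : ev x D ≠ 0) (hρ : ev x ρ ≠ 0)
    (hG : ev x G.det ≠ 0) (hU : MSol D B x U Cm) : MSol D' B' x (ga ρ G x U) Cm := by
  refine ⟨?_, ?_⟩
  · rw [ga, det_smul, det_mul, ← RingHom.mapMatrix_apply, ← RingHom.map_det]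
    exact mul_ne_zero (pow_ne_zero _ (inv_ne_zero hρ)) (mul_ne_zero hG hU.1)
  · have h1 := congrArg (fun M : PM N => M.map (ev x)) h
    simp only [gaul_smul, Matrix.map_add _ (map_add (ev x)), Matrix.map_sub _ (map_sub (ev x)),
      Matrix.map_mul, map_mul] at h1
    rw [ga, map_dL_smul, map_dL_mul, map_dL_ev, dL_inv, dL_ev]
    exact gaul_id hD hρ h1 hU.2

theorem Gau.tg (h : Gau D B D' B' ρ G) (hD : D ≠ 0) (hρ : ρ ≠ 0) (hG : G.det ≠ 0) {t : ℂ}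
    (hU : TG D B t U) : TG D' B' t (ga ρ G (xt t 1) U) :=
  h.msol (ev_xt_ne le_rfl hD) (ev_xt_ne le_rfl hρ) (ev_xt_ne le_rfl hG) hU

theorem Gau.tp (h : Gau D B D' B' ρ G) (hD : D ≠ 0) (hρ : ρ ≠ 0) (hG : G.det ≠ 0) {t : ℂ}
    (hU : TP r D B t U) : TP r D' B' t (ga ρ G (xt t 1) U) := by
  obtain ⟨Cm, J, h1, h2, h3, h4⟩ := hU
  exact ⟨Cm, J, h1, h2, h3,
    h.msol (ev_xt_ne le_rfl hD) (ev_xt_ne le_rfl hρ) (ev_xt_ne le_rfl hG) h4⟩

/-- `sgH` fixes `ev (xt t 2) p` (`sg_ev`, `sg_xt`). -/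
theorem Gau.tb (h : Gau D B D' B' ρ G) (hD : D ≠ 0) (hρ : ρ ≠ 0) (hG : G.det ≠ 0) {t : ℂ}
    (hU : TB r D B t U) : TB r D' B' t (ga ρ G (xt t 2) U) := by
  obtain ⟨h1, π, J, h2, h3, h4⟩ := hU
  refine ⟨h.msol (ev_xt_ne one_le_two hD) (ev_xt_ne one_le_two hρ) (ev_xt_ne one_le_two hG) h1,
    π, J, h2, fun i j => ?_, h4⟩
  simp only [ga, Matrix.smul_apply, smul_eq_mul, Matrix.mul_apply, Matrix.map_apply]
  rw [← sgH_apply, map_mul, map_inv₀, map_sum]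
  simp only [map_mul, sgH_apply, sg_ev, sg_xt, h3]

/-- Differentiate `ex x U l`. -/
theorem MSol.ex_th (h : MSol D B x U Cm) (l : Fin N → ℂ[X]) :
    (sL * dL x) • ex x U (th D B l) =
      ev x D • ((fun j => sL * dL (ex x U l j)) + ex x U l ᵥ* Cm) := by
  funext j
  have e1 : dL (ex x U l j) =
      dL x * ex x U (fun a => derivative (l a)) j + ex x (U.map dL) l j := by
    simp only [ex, vecMul, dotProduct, dL_sum, dL_mul, dL_ev, Finset.mul_sum,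
      ← Finset.sum_add_distrib, Matrix.map_apply]
    exact Finset.sum_congr rfl fun i _ => by ring
  have e2 := congrFun (congrArg (fun M => (fun i => ev x (l i)) ᵥ* M) h.2) j
  simp only [vecMul_smul, vecMul_add, ← vecMul_vecMul _ U Cm, Pi.smul_apply, Pi.add_apply,
    smul_eq_mul] at e2
  rw [th, ex_add, ex_smul, ex_vecMul]
  simp only [Pi.smul_apply, Pi.add_apply, smul_eq_mul, e1]
  simp only [ex]
  linear_combination -e2

/-- `G(1/s) * V * s ^ K = (s ^ m • G(1/s)) * V * s ^ (K - m)`; `ov_ev_inv_iff`, `ev_inv_coeff`,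
`ov_mat_mul`, `coeff_mat_mul`. -/
theorem NF.mul (h : NF U) {m : ℕ} (hm : ∀ a b, (G a b).natDegree ≤ m)
    (h0 : (G.map fun p => p.coeff m).det ≠ 0) : NF (G.map (ev sL⁻¹) * U) := by
  obtain ⟨V, K, h1, h2, rfl⟩ := h
  have h3 : ∀ a b, Ov 0 ((sL ^ (m : ℤ) • G.map (ev sL⁻¹)) a b) := fun a b => by
    have h4 := (ov_ev_inv_iff (G a b) (m + 1)).2
      ((degree_le_of_natDegree_le (hm a b)).trans_lt (Nat.cast_lt.2 m.lt_succ_self))
    have h5 := (ov_zpow_mul (m : ℤ)).2 h4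
    rwa [show (m : ℤ) + (1 - (m + 1 : ℕ)) = 0 by push_cast; ring] at h5
  have h4 : ((sL ^ (m : ℤ) • G.map (ev sL⁻¹)).map fun f => f.coeff 0) =
      G.map fun p => p.coeff m := Matrix.ext fun a b => by
    change (sL ^ (m : ℤ) * ev sL⁻¹ (G a b)).coeff 0 = (G a b).coeff m
    rw [coeff_zpow_mul, zero_sub, ev_inv_coeff]
  refine ⟨sL ^ (m : ℤ) • G.map (ev sL⁻¹) * V, fun j => K j - m, fun i j => ?_, ?_,
    gaul_diag sL_ne m K _ V⟩
  · simpa only [add_zero] using ov_mat_mul h3 h1 i j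
  · have h5 := coeff_mat_mul h3 h1
    rw [add_zero] at h5
    rw [h5, det_mul, h4]
    exact mul_ne_zero h0 h2

end Pool.Agent.GR.CV
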