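import Pool.Agent.Lib.MP_aa40d3_nt.CV.GauT

/-! Cyclic vectors. -/

open Polynomial Matrix
open scoped Polynomial.Bivariate

namespace Pool.Agent.GR.CV

variable {N : ℕ} {D : ℂ[X]} {B : PM N}

theorem cyca_iter (a : ℂ) (k : ℕ) (c : Fin N → ℂ[X]) (i : ℕ) : ∀ m, m + i = k →
    ∃ w : Fin N → ℂ[X], (th D B)^[i] ((X - C a) ^ k • c) =
      (X - C a) ^ m • ((D ^ i * (k.descFactorial i : ℂ[X])) • c + (X - C a) • w) := by
  induction i with
  | zero =>
    intro m hm
    refine ⟨0, ?_⟩
    have : m = k := by omega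
    subst this
    simp
  | succ i ih =>
    intro m hm
    obtain ⟨w, hw⟩ := ih (m + 1) (by omega)
    refine ⟨th D B ((D ^ i * (k.descFactorial i : ℂ[X])) • c + (X - C a) • w) +
      (D * ((m : ℂ[X]) + 1)) • w, ?_⟩
    have hk : k - i = m + 1 := by omega
    rw [Function.iterate_succ_apply', hw, th_smul, Nat.descFactorial_succ, hk,
      derivative_X_sub_C_pow]
    generalize th D B ((D ^ i * (k.descFactorial i : ℂ[X])) • c + (X - C a) • w) = z
    funext j
    simp only [Pi.add_apply, Pi.smul_apply, smul_eq_mul, Nat.add_sub_cancel, map_natCast]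
    push_cast
    ring

theorem cyca_iter_add (i : ℕ) (u v : Fin N → ℂ[X]) :
    (th D B)^[i] (u + v) = (th D B)^[i] u + (th D B)^[i] v := by
  induction i with
  | zero => rfl
  | succ i ih => simp only [Function.iterate_succ_apply', ih, th_add]

/-- By induction on `i ≤ k`: `(th D B)^[i] ((X - C a) ^ k • c)` is
`(X - C a) ^ (k - i) • ((D ^ i * k.descFactorial i) • c + (X - C a) • w)` for some `w`. -/
theorem th_iter (a : ℂ) (k : ℕ) (c : Fin N → ℂ) :
    (∀ i < k, ∀ j, ((th D B)^[i] ((X - C a) ^ k • fun j => C (c j)) j).eval a = 0) ∧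
      ∀ j, ((th D B)^[k] ((X - C a) ^ k • fun j => C (c j)) j).eval a =
        D.eval a ^ k * k.factorial * c j := by
  refine ⟨fun i hi j => ?_, fun j => ?_⟩
  · obtain ⟨w, hw⟩ := cyca_iter (D := D) (B := B) a k (fun j => C (c j)) i (k - i) (by omega)
    have h0 : k - i ≠ 0 := by omega
    rw [hw]
    simp [h0]
  · obtain ⟨w, hw⟩ := cyca_iter (D := D) (B := B) a k (fun j => C (c j)) k 0 (by omega)
    rw [hw]
    simp [Nat.descFactorial_self]

/-- Induction on `k`; correct `w` by `(X - C a) ^ k • c`; the iterates of `th` are additive. -/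
theorem exists_jet {a : ℂ} (ha : D.eval a ≠ 0) (u : ℕ → Fin N → ℂ) (k : ℕ) :
    ∃ w : Fin N → ℂ[X], ∀ i < k, ∀ j, ((th D B)^[i] w j).eval a = u i j := by
  induction k with
  | zero => exact ⟨0, fun i hi => absurd hi (Nat.not_lt_zero i)⟩
  | succ k ih =>
    obtain ⟨w, hw⟩ := ih
    have hne : D.eval a ^ k * (k.factorial : ℂ) ≠ 0 :=
      mul_ne_zero (pow_ne_zero _ ha) (Nat.cast_ne_zero.2 k.factorial_ne_zero)
    obtain ⟨h1, h2⟩ := th_iter (D := D) (B := B) a k fun j =>
      (u k j - ((th D B)^[k] w j).eval a) / (D.eval a ^ k * (k.factorial : ℂ))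
    refine ⟨w + (X - C a) ^ k • fun j =>
      C ((u k j - ((th D B)^[k] w j).eval a) / (D.eval a ^ k * (k.factorial : ℂ))),
      fun i hi j => ?_⟩
    rw [cyca_iter_add, Pi.add_apply, eval_add]
    rcases Nat.lt_succ_iff_lt_or_eq.1 hi with h | h
    · rw [h1 i h j, hw i h j, add_zero]
    · rw [h, h2 j, mul_div_cancel₀ _ hne]
      ring

theorem Sat.top {S : Submodule ℂ[X] (Fin N → ℂ[X])} (hS : Sat S) {G : PM N} (hG : G.det ≠ 0)
    (h : ∀ i, G i ∈ S) : S = ⊤ := by
  rw [eq_top_iff]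
  intro v _
  refine hS G.det v hG ?_
  have h1 : G.det • v = (v ᵥ* G.adjugate) ᵥ* G := by
    rw [vecMul_vecMul, adjugate_mul, vecMul_smul, vecMul_one]
  rw [h1, vecMul_eq_sum]
  exact S.sum_mem fun i _ => S.smul_mem _ (h i)

/-- The matrix of the first `N` iterates is the identity at an ordinary point. -/
theorem exists_cycV (hD : D ≠ 0) (B : PM N) : ∃ w, CycV D B w := by
  obtain ⟨a, ha⟩ : ∃ a : ℂ, D.eval a ≠ 0 := by
    by_contra hc
    push Not at hc
    exact hD (Polynomial.funext fun a => by rw [hc a, eval_zero])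
  obtain ⟨w, hw⟩ := exists_jet (B := B) ha (fun i j => if i = (j : ℕ) then 1 else 0) N
  refine ⟨w, fun S hS hst hw0 => ?_⟩
  have hm : ∀ i, (th D B)^[i] w ∈ S := by
    intro i
    induction i with
    | zero => exact hw0
    | succ i ih => rw [Function.iterate_succ_apply']; exact hst _ ih
  refine Sat.top hS (G := Matrix.of fun i j => (th D B)^[(i : ℕ)] w j) ?_ fun i => hm i
  intro h0
  have h1 := congrArg (evalRingHom a) h0
  rw [RingHom.map_det, map_zero] at h1
  have h2 : (evalRingHom a).mapMatrix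
      (Matrix.of fun i j : Fin N => (th D B)^[(i : ℕ)] w j) = 1 := by
    ext i j
    simp [hw i i.2 j, Matrix.one_apply, Fin.ext_iff]
  rw [h2, det_one] at h1
  exact one_ne_zero h1

end Pool.Agent.GR.CV
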