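import Pool.Agent.Lib.MP_aa40d3_nt.CV.PushN

/-! The direct image in characteristic `p`. -/

open Polynomial Matrix
open scoped Polynomial.Bivariate

namespace Pool.Agent.GR.CV

variable {k : Type} [Field k] {r d : ℕ} {S : Sys k r} {q : k[X][Y]} {δ : k[X]}

theorem pushp_root {E : Type} [Field E] [IsAlgClosed E] (p : ℕ) [Fact p.Prime] [CharP E p]
    {P : E[X]} (hs : P.Separable) (hd : P.natDegree = d) {c : Fin d → E}
    (hc : P ∣ ∑ l : Fin d, C (c l) * X ^ (p * l)) : c = 0 := by
  classical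
  have h0 : P ≠ 0 := hs.ne_zero
  have hcard : (P.roots.toFinset.image fun y => y ^ p).card = d := by
    have hi : Function.Injective fun y : E => y ^ p := frobenius_inj E p
    rw [Finset.card_image_of_injective _ hi,
      Multiset.toFinset_card_of_nodup (nodup_roots hs), IsAlgClosed.card_roots_eq_natDegree, hd]
  have hg : (∑ l : Fin d, C (c l) * X ^ (l : ℕ)) = 0 := by
    refine eq_zero_of_degree_lt_of_eval_finset_eq_zero
      (P.roots.toFinset.image fun y => y ^ p) (by rw [hcard]; exact degree_sum_fin_lt c) ?_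
    intro x hx
    obtain ⟨y, hy, rfl⟩ := Finset.mem_image.1 hx
    have hy' : P.IsRoot y := (mem_roots h0).1 (Multiset.mem_toFinset.1 hy)
    have := (hy'.dvd hc).eq_zero
    simpa [eval_finsetSum, pow_mul] using this
  funext l
  have := congrArg (fun f => coeff f l) hg
  simpa [finsetSum_coeff, coeff_X_pow, Fin.val_inj] using this

/-- Over the algebraic closure `Ω` of `FractionRing k[X]` the image of `P` is separable (`q`, `δ`) and
splits, with `d` distinct roots `y j`; the `y j ^ p` are distinct (`frobenius_inj`); Vandermonde. -/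
theorem frob_indep (h : Prep S d q δ) (hδ : δ ≠ 0) (p : ℕ) [Fact p.Prime] [CharP k p]
    {c : Fin d → k[X]} (hc : S.P ∣ ∑ l : Fin d, C (c l) * Y ^ (p * l)) : c = 0 := by
  let φ : k[X] →+* AlgebraicClosure (FractionRing k[X]) :=
    (algebraMap (FractionRing k[X]) _).comp (algebraMap k[X] (FractionRing k[X]))
  have hφ : Function.Injective φ :=
    (algebraMap (FractionRing k[X]) (AlgebraicClosure (FractionRing k[X]))).injective.comp
      (IsFractionRing.injective k[X] (FractionRing k[X]))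
  have : CharP (AlgebraicClosure (FractionRing k[X])) p := charP_of_injective_ringHom hφ p
  have hδ' : φ δ ≠ 0 := fun h0 => hδ (hφ (by rw [h0, map_zero]))
  obtain ⟨t, ht⟩ := h.2.2
  have ht' := congrArg (Polynomial.map φ) ht
  rw [Polynomial.map_sub, Polynomial.map_mul, Polynomial.map_mul, map_C, ← derivative_map] at ht'
  have hs : (S.P.map φ).Separable := by
    refine ⟨-(C (φ δ)⁻¹ * t.map φ), C (φ δ)⁻¹ * q.map φ, ?_⟩
    have h1 : C (φ δ)⁻¹ * C (φ δ) = 1 := by rw [← C_mul, inv_mul_cancel₀ hδ', C_1]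
    linear_combination C (φ δ)⁻¹ * ht' + h1
  have hc' := Polynomial.map_dvd φ hc
  simp only [Polynomial.map_sum, Polynomial.map_mul, map_C, Polynomial.map_pow, map_X] at hc'
  have := pushp_root p hs ((h.1.natDegree_map φ).trans h.2.1) hc'
  funext l
  exact hφ ((congrFun this l).trans (map_zero φ).symm)

theorem nab_frob (p : ℕ) [CharP k p] (l : ℕ) (u : Fin r → k[X][Y]) :
    S.nab ((Y ^ (p * l) : k[X][Y]) • u) = (Y ^ (p * l) : k[X][Y]) • S.nab u := by
  have h1 : derivative (Y ^ (p * l) : k[X][Y]) = 0 := by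
    rw [derivative_X_pow, Nat.cast_mul, CharP.cast_eq_zero k[X] p, zero_mul, C_0, zero_mul]
  funext a
  simp only [Sys.nab, Pi.sub_apply, Pi.smul_apply, smul_eq_mul, mulVec_smul, dX_mul, dX_Y_pow,
    derivative_mul, h1]
  ring

theorem pushp_asm (Ψ : Matrix (Fin (r * d)) (Fin (r * d)) k[X]) (c : Fin (r * d) → k[X])
    (a : Fin r) : asm r d (Ψ *ᵥ c) a = ∑ j, C (c j) * asm r d (fun i => Ψ i j) a := by
  simp only [asm, mulVec, dotProduct, map_sum, map_mul, Finset.sum_mul, Finset.mul_sum]
  rw [Finset.sum_comm]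
  refine Finset.sum_congr rfl fun j _ => Finset.sum_congr rfl fun l _ => by ring

/-- The column `j` of `Ψ` is the coordinate vector (`Prep.exists_asm`) of
`Y ^ (p * sh j) • (column co j of Φ)`. The equation: `nab_frob`, `nab_congr`, `Prep.asm_nab`,
`Prep.asm_inj`. If `Ψ *ᵥ c = 0`, then `P` divides the entries of `Φ *ᵥ w`, with
`w b = ∑ l, C (c (ix b l)) * Y ^ (p * l)`; multiply by the adjugate of `Φ` and use `frob_indep`. -/
theorem push_fund (h : Prep S d q δ) (hδ : δ ≠ 0) (p : ℕ) [Fact p.Prime] [CharP k p]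
    (hS : S.Fund) : HF (δ * S.D) (pB S d q δ) := by
  obtain ⟨Φ, ⟨q', e, he, hq'⟩, hΦ⟩ := hS
  choose u hu using fun j : Fin (r * d) =>
    h.exists_asm ((Y ^ (p * (sh j : ℕ)) : k[X][Y]) • fun i => Φ i (co j))
  refine ⟨Matrix.of fun i j => u j i, ?_, ?_⟩
  · intro h0
    obtain ⟨c, hc0, hc⟩ := exists_mulVec_eq_zero_iff.2 h0
    apply hc0
    let w : Fin r → k[X][Y] := fun b => ∑ l : Fin d, C (c (ix b l)) * Y ^ (p * (l : ℕ))
    have h1 : ∀ a, S.P ∣ (Φ *ᵥ w) a := by
      intro a
      have h2 := pushp_asm (Matrix.of fun i j => u j i) c a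
      rw [hc] at h2
      have h3 : asm r d (0 : Fin (r * d) → k[X]) a = 0 := by simp [asm]
      have h4 : (Φ *ᵥ w) a = ∑ j, C (c j) * (Y ^ (p * (sh j : ℕ)) * Φ a (co j)) := by
        rw [sum_ix]
        simp only [mulVec, dotProduct, w, Finset.mul_sum, co_ix, sh_ix]
        exact Finset.sum_congr rfl fun b _ => Finset.sum_congr rfl fun l _ => by ring
      rw [← sub_zero ((Φ *ᵥ w) a), ← h3, h2, h4, ← Finset.sum_sub_distrib]
      refine Finset.dvd_sum fun j _ => ?_
      rw [← mul_sub]
      exact (hu j a).mul_left _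
    have h5 : ∀ b, S.P ∣ C e * w b := by
      intro b
      have h6 : S.P ∣ (Φ.adjugate *ᵥ (Φ *ᵥ w)) b := by
        change S.P ∣ ∑ a, Φ.adjugate b a * (Φ *ᵥ w) a
        exact Finset.dvd_sum fun a _ => (h1 a).mul_left _
      rw [mulVec_mulVec, adjugate_mul, smul_mulVec, one_mulVec, Pi.smul_apply, smul_eq_mul] at h6
      have h7 : C e * w b = q' * (Φ.det * w b) - (q' * Φ.det - C e) * w b := by ring
      rw [h7]
      exact (h6.mul_left _).sub (hq'.mul_right _)
    funext j
    have h8 := h5 (co j)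
    simp only [w, Finset.mul_sum, ← mul_assoc, ← C_mul] at h8
    have h9 := congrFun (frob_indep h hδ p h8) (sh j)
    simp only [ix_co_sh, Pi.zero_apply] at h9
    exact (mul_eq_zero.1 h9).resolve_left he
  · refine Matrix.ext fun i j => ?_
    have h1 : (((δ * S.D) • fun i => derivative (u j i)) - pB S d q δ *ᵥ u j) = 0 := by
      refine h.asm_inj fun a => ?_
      have h2 := h.asm_nab (u j) a
      have h3 := nab_congr S (hu j) a
      rw [nab_frob, Pi.smul_apply, smul_eq_mul] at h3
      have h4 : S.P ∣ S.nab (asm r d (u j)) a :=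
        (dvd_sub_right ((hΦ a (co j)).mul_left _)).1 h3
      exact (dvd_sub_right (h4.mul_left _)).1 h2
    exact sub_eq_zero.1 (congrFun h1 i)

end Pool.Agent.GR.CV
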