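import Pool.Agent.Lib.MP_aa40d3_nt.CV.Defs
import Pool.Agent.Lib.MP_aa40d3_nt.GR.Cartier

/-! Rings of definition. -/

open Polynomial Matrix
open scoped Polynomial.Bivariate

namespace Pool.Agent.GR.CV

/-- `R'` is the subring generated by `F` and the images of finitely many generators of `R`. -/
theorem exists_ring {R : Type} [CommRing R] [Algebra.FiniteType ℤ R] (ι : R →+* ℂ) (F : Finset ℂ) :
    ∃ (R' : Subring ℂ) (j : R →+* R'), Algebra.FiniteType ℤ R' ∧ R'.subtype.comp j = ι ∧
      ∀ c ∈ F, c ∈ R' := by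
  classical
  obtain ⟨T, hT⟩ := (Algebra.FiniteType.out : (⊤ : Subalgebra ℤ R).FG)
  have hmem : ∀ x, ι x ∈ Subring.closure ((F ∪ T.image ι : Finset ℂ) : Set ℂ) := by
    intro x
    have hx : x ∈ Algebra.adjoin ℤ (T : Set R) := hT ▸ Algebra.mem_top
    rw [Algebra.adjoin_int] at hx
    have hle : Subring.closure (T : Set R) ≤
        (Subring.closure ((F ∪ T.image ι : Finset ℂ) : Set ℂ)).comap ι := by
      rw [Subring.closure_le]
      exact fun s hs => Subring.subset_closure
        (Finset.mem_union_right _ (Finset.mem_image_of_mem _ hs))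
    exact hle hx
  exact ⟨_, ι.codRestrict _ hmem, finiteType_closure _, rfl,
    fun c hc => Subring.subset_closure (Finset.mem_union_left _ hc)⟩

/-- `cart_intJacobson`, `finite_of_finite_type_of_isJacobsonRing`: the field `R' ⧸ m` is finite over
`ℤ`, so integral over `R`; `Ideal.isMaximal_comap_of_isIntegral_of_isMaximal'` for the composite
`R → R' ⧸ m` and the zero ideal. -/
theorem comap_max {R R' : Type} [CommRing R] [CommRing R'] [Algebra.FiniteType ℤ R'] (j : R →+* R')
    (m : Ideal R') [m.IsMaximal] : (m.comap j).IsMaximal := by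
  let _ := Ideal.Quotient.field m
  have := cart_intJacobson
  have h1 : Module.Finite ℤ (R' ⧸ m) := finite_of_finite_type_of_isJacobsonRing ℤ (R' ⧸ m)
  have h2 : ((Ideal.Quotient.mk m).comp j).IsIntegral := fun x => by
    obtain ⟨f, hf, hx⟩ : IsIntegral ℤ x := Algebra.IsIntegral.isIntegral x
    refine ⟨f.map (Int.castRingHom R), hf.map _, ?_⟩
    rw [eval₂_map, ← hx]
    congr 1
    exact RingHom.ext_int _ _
  have h3 := Ideal.isMaximal_comap_of_isIntegral_of_isMaximal' _ h2 ⊥
  rwa [← Ideal.comap_comap, ← RingHom.ker_eq_comap_bot, Ideal.mk_ker] at h3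

/-- A field that is finite over `ℤ` does not have characteristic zero (`Int.not_isField`). -/
theorem exists_char {R : Type} [CommRing R] [Algebra.FiniteType ℤ R] (m : Ideal R) [m.IsMaximal] :
    ∃ p : ℕ, p.Prime ∧ CharP (R ⧸ m) p := by
  let _ := Ideal.Quotient.field m
  have := cart_intJacobson
  have h1 : Module.Finite ℤ (R ⧸ m) := finite_of_finite_type_of_isJacobsonRing ℤ (R ⧸ m)
  obtain ⟨p, hp⟩ := CharP.exists (R ⧸ m)
  refine ⟨p, (CharP.char_is_prime_or_zero (R ⧸ m) p).resolve_right fun h => ?_, hp⟩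
  subst h
  have := CharP.charP_to_charZero (R ⧸ m)
  exact Int.not_isField ((Algebra.IsIntegral.isField_iff_isField (R := ℤ) (S := R ⧸ m)
    (RingHom.injective_int _)).2 (Field.toIsField _))

/-- The numbers that are needed to lift a polynomial and to keep it nonzero. -/
noncomputable def need (f : ℂ[X]) : Finset ℂ := by
  classical
  exact insert f.leadingCoeff⁻¹ f.coeffs

/-- `Polynomial.toSubring`; the leading coefficient is a unit of `R'`. -/
theorem exists_lift {R' : Subring ℂ} {f : ℂ[X]} (h : ∀ c ∈ need f, c ∈ R') :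
    ∃ f' : R'[X], f'.map R'.subtype = f := by
  classical
  exact ⟨f.toSubring R' fun c hc => h c (Finset.mem_insert_of_mem hc), map_toSubring _ _ _⟩

theorem map_ne_of_need {R' : Subring ℂ} {f' : R'[X]} (h0 : f'.map R'.subtype ≠ 0)
    (h : ∀ c ∈ need (f'.map R'.subtype), c ∈ R') {k : Type} [Field k] (φ : R' →+* k) :
    f'.map φ ≠ 0 := by
  classical
  have h1 : (f'.map R'.subtype).leadingCoeff = f'.leadingCoeff :=
    leadingCoeff_map_of_injective R'.subtype_injective f'
  have h2 : f'.leadingCoeff * ⟨_, h _ (Finset.mem_insert_self _ _)⟩ = 1 := by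
    apply Subtype.ext
    change (f'.leadingCoeff : ℂ) * _ = 1
    rw [← h1]
    exact mul_inv_cancel₀ (leadingCoeff_ne_zero.2 h0)
  intro h3
  have h4 := congrArg φ h2
  rw [map_mul, map_one, leadingCoeff, ← coeff_map, h3, coeff_zero, zero_mul] at h4
  exact zero_ne_one h4

end Pool.Agent.GR.CV
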