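import Pool.Agent.Lib.MP_aa40d3_nt.CV.KatB
import Pool.Agent.Lib.MP_aa40d3_nt.CV.CycA
import Pool.Agent.Lib.MP_aa40d3_nt.CV.SprA
import Pool.Agent.Lib.MP_aa40d3_nt.CV.PushP

/-! The theorem of Katz: full reductions force regular singular points. -/

open Polynomial Matrix
open scoped Polynomial.Bivariate

namespace Pool.Agent.GR.CV

variable {N r d : ℕ} {R R' : Type} [CommRing R] [CommRing R']

theorem hf_red {S : Sys R r} {q : R[X][Y]} {δ : R[X]} (h : Prep S d q δ)
    (hm : ∀ m : Ideal R, m.IsMaximal → (S.map (Ideal.Quotient.mk m)).Fund)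
    [Algebra.FiniteType ℤ R'] (j : R →+* R') (m : Ideal R') [m.IsMaximal]
    (hδ : δ.map ((Ideal.Quotient.mk m).comp j) ≠ 0) :
    HF ((δ * S.D).map ((Ideal.Quotient.mk m).comp j))
      ((pB S d q δ).map (Polynomial.map ((Ideal.Quotient.mk m).comp j))) := by
  let _ := Ideal.Quotient.field m
  obtain ⟨p, hp, hc⟩ := exists_char m
  have : Fact p.Prime := ⟨hp⟩
  have h1 := (hm _ (comap_max j m)).map (Ideal.quotientMap_injective (I := m) (f := j))
  rw [Sys.map_map, Ideal.quotientMap_comp_mk] at h1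
  have h2 := push_fund (h.map ((Ideal.Quotient.mk m).comp j)) hδ p h1
  rw [← pB_map h.1] at h2
  rw [Polynomial.map_mul]
  exact h2

theorem dvd_of_max [IsDomain R] [Algebra.FiniteType ℤ R] {g p : R[X]} (hg : g.Monic)
    (h : ∀ m : Ideal R, m.IsMaximal → g.map (Ideal.Quotient.mk m) ∣ p.map (Ideal.Quotient.mk m)) :
    g ∣ p := by
  have := cart_intJacobson
  have hJ : IsJacobsonRing R := isJacobsonRing_of_finiteType (A := ℤ)
  rw [← modByMonic_eq_zero_iff_dvd hg]
  ext i
  rw [coeff_zero, ← Ideal.mem_bot, ← hJ.out (Ideal.isPrime_bot (α := R)).isRadical]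
  refine Ideal.mem_sInf.2 fun m hm => ?_
  have h1 := (modByMonic_eq_zero_iff_dvd (hg.map _)).2 (h m hm.2)
  rw [← map_modByMonic _ hg] at h1
  rw [← Ideal.Quotient.eq_zero_iff_mem, ← coeff_map, h1, coeff_zero]

section
variable (φ : R →+* R') (D : R[X]) (B : Matrix (Fin N) (Fin N) R[X]) (w : Fin N → R[X])

theorem th_iter_map (i : ℕ) : (fun a => ((th D B)^[i] w a).map φ) =
    (th (D.map φ) (B.map (Polynomial.map φ)))^[i] fun a => (w a).map φ := by
  induction i with
  | zero => rfl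
  | succ i ih =>
    rw [Function.iterate_succ_apply', Function.iterate_succ_apply', ← ih]
    funext a
    simp [th, vecMul, dotProduct, Polynomial.map_sum]

theorem itM_map : (itM D B w).map (mapRingHom φ) =
    itM (D.map φ) (B.map (Polynomial.map φ)) fun a => (w a).map φ :=
  Matrix.ext fun i a => congrFun (th_iter_map φ D B w i) a

theorem itM_det_map : (itM D B w).det.map φ =
    (itM (D.map φ) (B.map (Polynomial.map φ)) fun a => (w a).map φ).det := by
  rw [← itM_map]
  exact RingHom.map_det (mapRingHom φ) _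

theorem itM_adj_map (i : Fin N) : (((th D B)^[N] w ᵥ* (itM D B w).adjugate) i).map φ =
    ((th (D.map φ) (B.map (Polynomial.map φ)))^[N] (fun a => (w a).map φ) ᵥ*
      (itM (D.map φ) (B.map (Polynomial.map φ)) fun a => (w a).map φ).adjugate) i := by
  rw [← itM_map, ← th_iter_map, ← RingHom.mapMatrix_apply, ← RingHom.map_adjugate]
  exact RingHom.map_vecMul (mapRingHom φ) _ _ i

theorem smul_map (c : R[X]) :
    (c • B).map (Polynomial.map φ) = c.map φ • B.map (Polynomial.map φ) :=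
  Matrix.ext fun _ _ => Polynomial.map_mul φ

end

theorem HF.smul {D : R[X]} {B : Matrix (Fin N) (Fin N) R[X]} (h : HF D B) (c : R[X]) :
    HF (c * D) (c • B) :=
  h.imp fun _ h => ⟨h.1, by rw [mul_smul, h.2, Matrix.smul_mul]⟩

theorem MSol.of_smul {c D : ℂ[X]} {B : PM N} {x : LL} {U Cm : LM N} (hc : ev x c ≠ 0)
    (h : MSol (c * D) (c • B) x U Cm) : MSol D B x U Cm := by
  refine ⟨h.1, Matrix.ext fun i j => mul_left_cancel₀ hc ?_⟩
  have h1 := congrFun (congrFun h.2 i) j
  simp only [Matrix.smul_apply, smul_eq_mul, map_mul, Matrix.mul_apply, Matrix.map_apply,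
    mul_assoc, ← Finset.mul_sum] at h1 ⊢
  rw [h1]
  ring

theorem exists_itM {D : ℂ[X]} (hD : D ≠ 0) (B : PM N) : ∃ w, (itM D B w).det ≠ 0 := by
  obtain ⟨a, ha⟩ := Infinite.exists_notMem_finset D.roots.toFinset
  rw [Multiset.mem_toFinset, mem_roots hD] at ha
  obtain ⟨w, hw⟩ := exists_jet (B := B) ha (fun i j => if i = j then 1 else 0) N
  refine ⟨w, fun h => ?_⟩
  have h1 : (evalRingHom a).mapMatrix (itM D B w) = 1 := by
    ext i j
    simpa [itM, Matrix.one_apply, Fin.val_inj] using hw i i.2 j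
  have h2 := RingHom.map_det (evalRingHom a) (itM D B w)
  rw [h, h1, map_zero, det_one] at h2
  exact zero_ne_one h2

theorem katz [Algebra.FiniteType ℤ R] (ι : R →+* ℂ) {D δ : R[X]}
    {B : Matrix (Fin N) (Fin N) R[X]} (hδ : δ.map ι ≠ 0) (hD : D.map ι ≠ 0)
    (hF : ∀ (R' : Type) [CommRing R'] [Algebra.FiniteType ℤ R'] (j : R →+* R') (m : Ideal R')
      [m.IsMaximal], δ.map ((Ideal.Quotient.mk m).comp j) ≠ 0 →
        HF (D.map ((Ideal.Quotient.mk m).comp j))
          (B.map (Polynomial.map ((Ideal.Quotient.mk m).comp j)))) (t : ℂ) :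
    ∃ U Cm : LM N, (∀ i j, Ov 0 (Cm i j)) ∧
      MSol (D.map ι) (B.map (Polynomial.map ι)) (xt t 1) U Cm := by
  classical
  have hD1 := mul_ne_zero (X_sub_C_ne_zero t) hD
  obtain ⟨w, hw⟩ := exists_itM hD1 ((X - C t : ℂ[X]) • B.map (Polynomial.map ι))
  obtain ⟨D₀, e1, h1⟩ := exists_eq_pow_rootMultiplicity_mul_and_not_dvd _ hD t
  obtain ⟨h₀, e2, h2⟩ := exists_eq_pow_rootMultiplicity_mul_and_not_dvd _ hw t
  rw [dvd_iff_isRoot] at h1 h2
  generalize rootMultiplicity t (D.map ι) = a at e1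
  generalize rootMultiplicity t _ = μ at e2
  have e3 : (X - C t) * D.map ι = (X - C t) ^ (a + 1) * D₀ := by rw [e1, pow_succ', mul_assoc]
  obtain ⟨R', j, hft, hj, hR⟩ := exists_ring ι
    (insert t (need (δ.map ι) ∪ Finset.univ.biUnion fun a => need (w a)))
  let t' : R' := ⟨t, hR _ (Finset.mem_insert_self _ _)⟩
  choose w' hw' using fun a => exists_lift (R' := R') (f := w a) fun c hc =>
    hR c (Finset.mem_insert_of_mem (Finset.mem_union_right _
      (Finset.mem_biUnion.2 ⟨a, Finset.mem_univ _, hc⟩)))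
  let D' := (X - C t') * D.map j
  let B' := (X - C t' : R'[X]) • B.map (Polynomial.map j)
  have eX : ∀ {K : Type} [CommRing K] (ψ : R' →+* K) (k : ℕ),
      ((X - C t') ^ k).map ψ = (X - C (ψ t')) ^ k := fun ψ k => by simp
  have eD : ∀ {K : Type} [CommRing K] (ψ : R' →+* K),
      D'.map ψ = (X - C (ψ t')) * D.map (ψ.comp j) := fun ψ => by
    simp [D', Polynomial.map_map]
  have eB : ∀ {K : Type} [CommRing K] (ψ : R' →+* K), B'.map (Polynomial.map ψ) =
      (X - C (ψ t') : K[X]) • B.map (Polynomial.map (ψ.comp j)) := fun ψ => by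
    ext1 a b
    simp [B', Polynomial.map_map]
  have hmo : ∀ k : ℕ, ((X - C t') ^ k).Monic := fun k => (monic_X_sub_C t').pow k
  have d1 : (X - C t') ^ (a + 1) ∣ D' := by
    rw [← map_dvd_map _ R'.subtype_injective (hmo _), eX, eD, hj]
    exact ⟨D₀, e3⟩
  have d2 : (X - C t') ^ μ ∣ (itM D' B' w').det := by
    rw [← map_dvd_map _ R'.subtype_injective (hmo _), eX, itM_det_map, eD, eB, hj, funext hw']
    exact ⟨h₀, e2⟩
  have d3 : ∀ i : Fin N, (X - C t') ^ (μ + a * (N - i)) ∣
      ((th D' B')^[N] w' ᵥ* (itM D' B' w').adjugate) i := fun i => dvd_of_max (hmo _) fun m hm => by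
    let _ := Ideal.Quotient.field m
    have h3 : δ.map ((Ideal.Quotient.mk m).comp j) ≠ 0 := by
      rw [← Polynomial.map_map]
      refine map_ne_of_need ?_ (fun c hc => hR c ?_) _
      · rwa [Polynomial.map_map, hj]
      · rw [Polynomial.map_map, hj] at hc
        exact Finset.mem_insert_of_mem (Finset.mem_union_left _ hc)
    have h4 := Polynomial.map_dvd (Ideal.Quotient.mk m) d1
    have h5 := Polynomial.map_dvd (Ideal.Quotient.mk m) d2
    rw [eX] at h4 h5 ⊢
    rw [itM_det_map] at h5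
    rw [itM_adj_map]
    refine kat_div h4 ?_ _ h5 i
    rw [eD, eB]
    exact (hF R' j m h3).smul _
  obtain ⟨U, Cm, h3, h4⟩ := kat_frame e3 h1 e2 h2 fun i => by
    have h5 := Polynomial.map_dvd R'.subtype (d3 i)
    rwa [eX, itM_adj_map, eD, eB, hj, funext hw'] at h5
  exact ⟨U, Cm, h3, h4.of_smul (ev_xt_ne le_rfl (X_sub_C_ne_zero t))⟩

end Pool.Agent.GR.CV
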