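import Pool.Agent.Lib.MP_aa40d3_nt.CV.PushN

/-! Irreducibility of the direct image over the covering. -/

open Polynomial Matrix
open scoped Polynomial.Bivariate

namespace Pool.Agent.GR.CV

variable {r d : ℕ} {S : Sys ℂ r} {q : ℂ[X][Y]} {δ : ℂ[X]}

/-- Irreducibility over the function field of the curve. -/
def Sys.Irr (S : Sys ℂ r) : Prop :=
  ∀ W : Submodule ℂ[X][Y] (Fin r → ℂ[X][Y]), (∀ u ∈ W, S.nab u ∈ W) → (∀ v, S.P • v ∈ W) →
    (∀ u ∈ W, ∀ a, S.P ∣ u a) ∨ ∃ c : ℂ[X], c ≠ 0 ∧ ∀ v, (C c : ℂ[X][Y]) • v ∈ W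

theorem pushi_add (u v : Fin (r * d) → ℂ[X]) (a : Fin r) :
    asm r d (u + v) a = asm r d u a + asm r d v a := by
  simp only [asm, Pi.add_apply, map_add, add_mul, Finset.sum_add_distrib]

theorem pushi_smul (c : ℂ[X]) (u : Fin (r * d) → ℂ[X]) (a : Fin r) :
    asm r d (c • u) a = C c * asm r d u a := by
  simp only [asm, Pi.smul_apply, smul_eq_mul, map_mul, Finset.mul_sum, mul_assoc]

theorem pushi_sub (u v : Fin (r * d) → ℂ[X]) (a : Fin r) :
    asm r d (u - v) a = asm r d u a - asm r d v a := by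
  rw [eq_sub_iff_add_eq, ← pushi_add, sub_add_cancel]

theorem pushi_zero (a : Fin r) : asm r d (0 : Fin (r * d) → ℂ[X]) a = 0 := by
  simp [asm]

theorem pushi_mul (h : Prep S d q δ) {T : Submodule ℂ[X] (Fin (r * d) → ℂ[X])}
    (hM : ∀ u ∈ T, pM S d *ᵥ u ∈ T) (f : ℂ[X][Y]) {u : Fin (r * d) → ℂ[X]} (hu : u ∈ T) :
    ∃ w ∈ T, ∀ a, S.P ∣ f * asm r d u a - asm r d w a := by
  induction f using Polynomial.induction_on with
  | C c => exact ⟨c • u, T.smul_mem c hu, fun a => by rw [pushi_smul, sub_self]; exact dvd_zero _⟩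
  | add f g hf hg =>
    obtain ⟨w, hw, h1⟩ := hf
    obtain ⟨w', hw', h2⟩ := hg
    refine ⟨w + w', T.add_mem hw hw', fun a => ?_⟩
    convert (h1 a).add (h2 a) using 1
    rw [pushi_add]
    ring
  | monomial n c ih =>
    obtain ⟨w, hw, h1⟩ := ih
    refine ⟨_, hM w hw, fun a => ?_⟩
    convert ((h1 a).mul_left Y).add (h.asm_mul w a) using 1
    ring

/-- For `T` saturated and stable let `W` be the set of the `v` that are congruent modulo `P` to
`asm r d u` for some `u ∈ T`. It is closed under multiplication by `C c` and by `Y`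
(`Prep.asm_mul`), hence by all polynomials. Stability: if `v` is congruent to `asm u`, then
`q • nab v ∈ W` (`nab_congr`, `Prep.asm_nab`), so `P_y • q • nab v ∈ W`, which is congruent to
`C δ • nab v`; with `nab v` congruent to `asm u'` this gives `δ • u' ∈ T` (`Prep.asm_inj`). -/
theorem push_irr (h : Prep S d q δ) (hδ : δ ≠ 0) (hS : S.Irr) :
    ColIrr (δ * S.D) (pB S d q δ) (pM S d) := by
  intro T hsat hB hM
  let W : Submodule ℂ[X][Y] (Fin r → ℂ[X][Y]) :=
    { carrier := {v | ∃ u ∈ T, ∀ a, S.P ∣ v a - asm r d u a}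
      add_mem' := by
        rintro v v' ⟨u, hu, h1⟩ ⟨u', hu', h2⟩
        refine ⟨u + u', T.add_mem hu hu', fun a => ?_⟩
        convert (h1 a).add (h2 a) using 1
        rw [pushi_add, Pi.add_apply]
        ring
      zero_mem' := ⟨0, T.zero_mem, fun a => by simp [pushi_zero]⟩
      smul_mem' := by
        rintro f v ⟨u, hu, h1⟩
        obtain ⟨w, hw, h2⟩ := pushi_mul h hM f hu
        refine ⟨w, hw, fun a => ?_⟩
        convert ((h1 a).mul_left f).add (h2 a) using 1
        rw [Pi.smul_apply, smul_eq_mul]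
        ring }
  have key : ∀ (c : ℂ[X]) (u : Fin (r * d) → ℂ[X]), c ≠ 0 →
      (∃ w ∈ T, ∀ a, S.P ∣ C c * asm r d u a - asm r d w a) → u ∈ T := by
    rintro c u hc ⟨w, hw, h1⟩
    refine hsat c u hc ?_
    rwa [sub_eq_zero.1 (h.asm_inj (u := c • u - w) fun a => by
      rw [pushi_sub, pushi_smul]; exact h1 a)]
  refine (hS W ?_ ?_).elim (fun h1 => ?_) fun ⟨c, hc, h1⟩ => ?_
  rotate_left 2
  · refine Or.inl ((Submodule.eq_bot_iff T).2 fun u hu => h.asm_inj (h1 _ ⟨u, hu, fun a => ?_⟩))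
    rw [sub_self]
    exact dvd_zero _
  · exact Or.inr (Submodule.eq_top_iff'.2 fun u => key c u hc (h1 (asm r d u)))
  · rintro v ⟨u, hu, h1⟩
    obtain ⟨u', h2⟩ := h.exists_asm (S.nab v)
    obtain ⟨w, hw, h3⟩ := pushi_mul h hM (derivative S.P) (hB u hu)
    refine ⟨u', key δ u' hδ ⟨w, hw, fun a => ?_⟩, h2⟩
    convert (((h3 a).add ((h.asm_nab u a).mul_left (derivative S.P))).add
      ((nab_congr S h1 a).mul_left (derivative S.P * q))).sub
      ((h.2.2.mul_right (S.nab v a)).add ((h2 a).mul_left (C δ))) using 1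
    ring
  · exact fun v => ⟨0, T.zero_mem, fun a => by
      rw [pushi_zero, sub_zero]
      exact Dvd.intro _ rfl⟩

end Pool.Agent.GR.CV
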