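import Pool.Agent.Lib.MP_aa40d3_nt.CV.GauT

/-! Irreducibility over the covering. -/

open Polynomial Matrix
open scoped Polynomial.Bivariate

namespace Pool.Agent.GR.CV

variable {N : ℕ} {D D' ρ : ℂ[X]} {B B' G Mu : PM N}

theorem wdi_form {S : Submodule ℂ[X] (Fin N → ℂ[X])} {v : Fin N → ℂ[X]}
    (hv : ¬ ∃ q : ℂ[X], q ≠ 0 ∧ q • v ∈ S) :
    ∃ w : Fin N → ℂ[X], (∀ l ∈ S, l ⬝ᵥ w = 0) ∧ v ⬝ᵥ w ≠ 0 := by
  let T := Submodule.torsion ℂ[X] ((Fin N → ℂ[X]) ⧸ S)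
  have hne : T.mkQ (S.mkQ v) ≠ 0 := by
    intro h0
    obtain ⟨q, hq⟩ := (Submodule.Quotient.mk_eq_zero T).1 h0
    refine hv ⟨q, nonZeroDivisors.coe_ne_zero q, (Submodule.Quotient.mk_eq_zero S).1 ?_⟩
    exact hq
  obtain ⟨φ, hφ⟩ : ∃ φ : Module.Dual ℂ[X] (((Fin N → ℂ[X]) ⧸ S) ⧸ T), φ (T.mkQ (S.mkQ v)) ≠ 0 := by
    by_contra hc
    push Not at hc
    exact hne ((Module.forall_dual_apply_eq_zero_iff ℂ[X] _).1 hc)
  let ψ : (Fin N → ℂ[X]) →ₗ[ℂ[X]] ℂ[X] := φ ∘ₗ T.mkQ ∘ₗ S.mkQ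
  have hψ : ∀ l : Fin N → ℂ[X], l ⬝ᵥ (fun i => ψ (Pi.single i 1)) = ψ l := by
    intro l
    rw [LinearMap.pi_apply_eq_sum_univ ψ l, dotProduct]
    refine Finset.sum_congr rfl fun i _ => ?_
    rw [smul_eq_mul]
    congr 2
    funext j
    simp [Pi.single_apply, eq_comm]
  refine ⟨fun i => ψ (Pi.single i 1), fun l hl => ?_, ?_⟩
  · rw [hψ]
    show φ (T.mkQ (S.mkQ l)) = 0
    rw [show S.mkQ l = 0 from (Submodule.Quotient.mk_eq_zero S).2 hl, map_zero, map_zero]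
  · rw [hψ]
    exact hφ

theorem wdi_deriv_dot (l w : Fin N → ℂ[X]) :
    derivative (l ⬝ᵥ w) = (fun a => derivative (l a)) ⬝ᵥ w + l ⬝ᵥ fun a => derivative (w a) := by
  simp only [dotProduct, derivative_sum, derivative_mul, Finset.sum_add_distrib]

theorem wdi_deriv_mulVec (G : PM N) (u : Fin N → ℂ[X]) :
    (fun a => derivative ((G *ᵥ u) a)) =
      G.map derivative *ᵥ u + G *ᵥ fun a => derivative (u a) := by
  funext a
  exact wdi_deriv_dot (fun j => G a j) u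

/-- Over the field of fractions `K`: if the span of the image of `S` is not everything, a nonzero
linear form kills it (`Submodule.exists_dual_map_eq_bot_of_lt_top`); clear denominators
(`IsLocalization.exist_integer_multiples_of_finite`) to get a column `w ≠ 0` orthogonal to `S`, and
take `u = G.adjugate *ᵥ w`. If the span is everything, clear denominators again. -/
theorem full_of_ann (hG : G.det ≠ 0) {S : Submodule ℂ[X] (Fin N → ℂ[X])}
    (h : ∀ u, (∀ l ∈ S, l ⬝ᵥ G *ᵥ u = 0) → u = 0) (v : Fin N → ℂ[X]) :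
    ∃ q : ℂ[X], q ≠ 0 ∧ q • v ∈ S := by
  by_contra hv
  obtain ⟨w, hw, hvw⟩ := wdi_form hv
  have e : G *ᵥ (G.adjugate *ᵥ w) = G.det • w := by
    rw [mulVec_mulVec, mul_adjugate, smul_mulVec, one_mulVec]
  have hu := h (G.adjugate *ᵥ w) fun l hl => by rw [e, dotProduct_smul, hw l hl, smul_zero]
  rw [hu, mulVec_zero] at e
  have e2 := congrArg (fun z => v ⬝ᵥ z) e
  simp only [dotProduct_zero, dotProduct_smul, smul_eq_mul] at e2
  exact mul_ne_zero hG hvw e2.symm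

/-- Differentiate `l ⬝ᵥ G *ᵥ u = 0` and use `h`:
`ρ D D' (l G u)' = ρ D (th l) G u + D' ρ' D (l G u) + ρ D' l G (D u' - B u)`. -/
theorem ann_stab (h : Gau D B D' B' ρ G) (hD : D' ≠ 0) (hρ : ρ ≠ 0) {l u : Fin N → ℂ[X]}
    (h1 : l ⬝ᵥ G *ᵥ u = 0) (h2 : th D' B' l ⬝ᵥ G *ᵥ u = 0) :
    l ⬝ᵥ G *ᵥ ((D • fun a => derivative (u a)) - B *ᵥ u) = 0 := by
  have e1 := congrArg derivative h1
  rw [wdi_deriv_dot, wdi_deriv_mulVec, dotProduct_add, derivative_zero] at e1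
  have e2 := congrArg (fun M : PM N => l ⬝ᵥ M *ᵥ u) h
  simp only [smul_mulVec, add_mulVec, sub_mulVec, dotProduct_smul, dotProduct_add, dotProduct_sub,
    smul_eq_mul, ← mulVec_mulVec] at e2
  rw [th, add_dotProduct, smul_dotProduct, ← dotProduct_mulVec, smul_eq_mul] at h2
  rw [mulVec_sub, mulVec_smul, dotProduct_sub, dotProduct_smul, smul_eq_mul]
  refine mul_left_cancel₀ (mul_ne_zero hρ hD) ?_
  rw [h1] at e2
  linear_combination ρ * D * D' * e1 - e2 - ρ * D * h2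

/-- Apply `hI` to the annihilator `{u | ∀ l ∈ S, l ⬝ᵥ G *ᵥ u = 0}`. -/
theorem wirr_of_colIrr (hI : ColIrr D B Mu) (h : Gau D B D' B' ρ G) (hD : D' ≠ 0) (hρ : ρ ≠ 0)
    (hG : G.det ≠ 0) {W : Subalgebra ℂ[X] (PM N)} (hW : G * Mu * G.adjugate ∈ W) :
    WIrr D' B' W := by
  intro S hS hSW
  let A : Submodule ℂ[X] (Fin N → ℂ[X]) :=
    { carrier := {u | ∀ l ∈ S, l ⬝ᵥ G *ᵥ u = 0}
      add_mem' := fun {a b} ha hb l hl => by
        rw [mulVec_add, dotProduct_add, ha l hl, hb l hl, add_zero]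
      zero_mem' := fun l _ => by rw [mulVec_zero, dotProduct_zero]
      smul_mem' := fun c a ha l hl => by
        rw [mulVec_smul, dotProduct_smul, ha l hl, smul_zero] }
  have hA : ∀ u, u ∈ A ↔ ∀ l ∈ S, l ⬝ᵥ G *ᵥ u = 0 := fun _ => Iff.rfl
  have h1 : Sat A := fun c u hc hu => (hA u).2 fun l hl => by
    have e := (hA _).1 hu l hl
    rw [mulVec_smul, dotProduct_smul, smul_eq_mul] at e
    exact (mul_eq_zero.1 e).resolve_left hc
  have h2 : ∀ u ∈ A, (D • fun a => derivative (u a)) - B *ᵥ u ∈ A := fun u hu =>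
    (hA _).2 fun l hl => ann_stab h hD hρ ((hA u).1 hu l hl) ((hA u).1 hu _ (hS l hl))
  have h3 : ∀ u ∈ A, Mu *ᵥ u ∈ A := fun u hu => (hA _).2 fun l hl => by
    have e := (hA u).1 hu _ (hSW l hl _ hW)
    rw [← dotProduct_mulVec, mulVec_mulVec, Matrix.mul_assoc, adjugate_mul, Matrix.mul_smul,
      Matrix.mul_one, smul_mulVec, dotProduct_smul, smul_eq_mul, ← mulVec_mulVec] at e
    exact (mul_eq_zero.1 e).resolve_left hG
  rcases hI A h1 h2 h3 with h0 | h0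
  · refine Or.inr (full_of_ann hG fun u hu => ?_)
    have : u ∈ A := (hA u).2 hu
    rwa [h0, Submodule.mem_bot] at this
  · refine Or.inl ((Submodule.eq_bot_iff S).2 fun l hl => vecMul_cancel hG ?_)
    rw [zero_vecMul]
    funext i
    have e := (hA (Pi.single i 1)).1 (h0 ▸ Submodule.mem_top) l hl
    rwa [dotProduct_mulVec, dotProduct_single, mul_one] at e

end Pool.Agent.GR.CV
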