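import Pool.Agent.Lib.MP_aa40d3_nt.CV.CycC

/-! Residues after the modification. -/

open Polynomial Matrix
open scoped Polynomial.Bivariate

namespace Pool.Agent.GR.CV

variable {N k : ℕ} {q : Fin k → ℂ} {lam : Fin k → Fin N → ℂ}

theorem mod_smul (v : Fin N → ℂ[X]) : dl q • v ∈ Mod q lam := by
  intro j
  simp only [Pi.smul_apply, smul_eq_mul, eval_mul, dl_eval, zero_mul, Finset.sum_const_zero]

variable {D : ℂ[X]} {B G Q : PM N}

theorem mod_gau (hG : Bas (Mod q lam) G) : ∃ Q, Gau D B (D * dl q) Q 1 G :=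
  hG.gau fun l _ => ⟨dl q • th D B l, mod_smul _, by rw [smul_smul]⟩

/-- `dl q • 1 = H * G`. -/
theorem mod_det (hG : Bas (Mod q lam) G) {z : ℂ} (hz : z ∉ Set.range q) :
    (G.map (eval z)).det ≠ 0 := by
  choose c hc using fun i : Fin N => hG.2.2 _ (mod_smul (q := q) (lam := lam) (Pi.single i 1))
  have h1 : (Matrix.of c : PM N) * G = dl q • (1 : PM N) := by
    ext1 i a
    have := congrFun (hc i) a
    rw [Matrix.smul_apply, Matrix.one_apply]
    simp only [Pi.smul_apply, Pi.single_apply] at this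
    rw [show ((Matrix.of c : PM N) * G) i a = (c i ᵥ* G) a from rfl, ← this]
    simp only [eq_comm]
  have h2 := congrArg (fun M : PM N => (evalRingHom z) M.det) h1
  simp only [det_mul, map_mul, det_smul, det_one, mul_one, map_pow, RingHom.map_det] at h2
  intro h0
  have h3 : ((evalRingHom z).mapMatrix G).det = 0 := h0
  rw [h3, mul_zero] at h2
  exact hz (dl_root (eq_zero_of_pow_eq_zero h2.symm))

theorem cycd_key (hD : D ≠ 0) (h : Gau D B (D * dl q) Q 1 G) :
    Q * G = dl q • (D • G.map derivative + G * B) := by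
  rw [gau_one, mul_smul] at h
  exact (smul_right_injective _ hD h).symm

theorem cycd_ev (c : Fin N → ℂ) (M : PM N) (z : ℂ) (a : Fin N) :
    (((fun i => C (c i)) ᵥ* M) a).eval z = (c ᵥ* M.map (eval z)) a := by
  simp [vecMul, dotProduct, eval_finsetSum]

theorem mod_old (hD : D ≠ 0) (h : Gau D B (D * dl q) Q 1 G) {z : ℂ} (hz : D.eval z = 0) :
    Q.map (eval z) * G.map (eval z) = (dl q).eval z • (G.map (eval z) * B.map (eval z)) := by
  have h1 := congrArg (fun M : PM N => M.map (evalRingHom z)) (cycd_key hD h)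
  simp only [Matrix.map_mul] at h1
  refine h1.trans ?_
  ext a b
  have h2 : (G.map (eval z) * B.map (eval z)) a b = ((G * B) a b).eval z := by
    have := congrFun (congrFun (Matrix.map_mul (L := G) (M := B) (f := evalRingHom z)) a) b
    exact this.symm
  simp only [Matrix.map_apply, Matrix.smul_apply, Matrix.add_apply, smul_eq_mul, coe_evalRingHom,
    eval_mul, eval_add, hz, zero_mul, zero_add, h2]

/-- For a constant row `c`: `(c ᵥ* Q) ᵥ* G = dl q • th D B (c ᵥ* G)` (`Gau.th`). If
`th D B (c ᵥ* G)` satisfies the condition at `q j`, then its product with the `X - C (q j')`,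
`j' ≠ j`, is in `Mod q lam`, so `c ᵥ* Q` is divisible by `X - C (q j)`. `rank_le_card` with
`ι = Unit`. -/
theorem mod_new (hD : D ≠ 0) (hG : Bas (Mod q lam) G) (h : Gau D B (D * dl q) Q 1 G) (j : Fin k) :
    (Q.map (eval (q j))).rank ≤ 1 := by
  classical
  set M : PM N := D • G.map derivative + G * B with hM
  have key : Q * G = dl q • M := cycd_key hD h
  let φ : (Fin N → ℂ) →ₗ[ℂ] (Unit → ℂ) :=
    { toFun := fun c _ => c ⬝ᵥ (M.map (eval (q j)) *ᵥ lam j)
      map_add' := fun u v => by
        funext _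
        simp only [add_dotProduct, Pi.add_apply]
      map_smul' := fun r u => by
        funext _
        simp only [smul_dotProduct, Pi.smul_apply, RingHom.id_apply] }
  have := rank_le_card (A := Q.map (eval (q j))) φ fun c hc => ?_
  · simpa using this
  have hc' : c ⬝ᵥ (M.map (eval (q j)) *ᵥ lam j) = 0 := congrFun hc ()
  have hw : (∏ j' ∈ Finset.univ.erase j, (X - C (q j'))) • ((fun i => C (c i)) ᵥ* M) ∈
      Mod q lam := by
    intro i
    simp only [Pi.smul_apply, smul_eq_mul, eval_mul, mul_assoc, ← Finset.mul_sum]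
    by_cases hi : i = j
    · subst hi
      rw [dotProduct_mulVec] at hc'
      have : ∑ a, (((fun i => C (c i)) ᵥ* M) a).eval (q i) * lam i a = 0 := by
        rw [← hc', dotProduct]
        refine Finset.sum_congr rfl fun a _ => ?_
        rw [cycd_ev]
      rw [this, mul_zero]
    · rw [eval_prod, Finset.prod_eq_zero (i := i) (by simp [hi]) (by simp), zero_mul]
  obtain ⟨c', hc2⟩ := hG.2.2 _ hw
  have h5 : ((fun i => C (c i)) ᵥ* Q) ᵥ* G = ((X - C (q j)) • c') ᵥ* G := by
    rw [vecMul_vecMul, key, vecMul_smul, smul_vecMul, ← hc2, smul_smul, dl,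
      Finset.mul_prod_erase _ (fun i => (X - C (q i) : ℂ[X])) (Finset.mem_univ j)]
  have h6 := vecMul_cancel hG.1 h5
  funext a
  rw [← cycd_ev, h6]
  simp

end Pool.Agent.GR.CV
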