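import Pool.Agent.Lib.MP_aa40d3_nt.CV.GauT

/-! A cyclic first coordinate. -/

open Polynomial Matrix
open scoped Polynomial.Bivariate

namespace Pool.Agent.GR.CV

theorem cyc_of_cycV {N n : ℕ} [NeZero N] {t : Fin n → ℂ} {A : Fin n → Matrix (Fin N) (Fin N) ℂ}
    (h : CycV (dl t) (pm t A) (Pi.single 0 1)) : GC.Cyc t A := by
  intro L hL h0
  let S : Submodule ℂ[X] (Fin N → ℂ[X]) :=
    { carrier := {l | ∃ q : ℂ[X], q ≠ 0 ∧ q • l ∈ L}
      add_mem' := by
        rintro x y ⟨q, h1, hx⟩ ⟨q', h2, hy⟩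
        refine ⟨q * q', mul_ne_zero h1 h2, ?_⟩
        rw [smul_add]
        exact L.add_mem (by rw [mul_comm, mul_smul]; exact L.smul_mem _ hx)
          (by rw [mul_smul]; exact L.smul_mem _ hy)
      zero_mem' := ⟨1, one_ne_zero, by simp⟩
      smul_mem' := by
        rintro a x ⟨q, h1, hx⟩
        exact ⟨q, h1, by rw [smul_comm]; exact L.smul_mem _ hx⟩ }
  have hS : S = ⊤ := h S (fun c u hc ⟨q, hq, hu⟩ => ⟨q * c, mul_ne_zero hq hc, by rwa [mul_smul]⟩)
    (fun l ⟨q, hq, hl⟩ => ⟨q * q, mul_ne_zero hq hq, by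
      have h1 : (q * q) • th (dl t) (pm t A) l =
          q • th (dl t) (pm t A) (q • l) - (dl t * derivative q) • (q • l) := by
        rw [th_smul, smul_add, mul_smul, smul_comm q (dl t * derivative q), add_sub_cancel_right]
      rw [h1]
      exact L.sub_mem (L.smul_mem _ (hL _ hl)) (L.smul_mem _ hl)⟩)
    ⟨1, one_ne_zero, by rwa [one_smul]⟩
  exact Or.inr fun v => (hS ▸ Submodule.mem_top : v ∈ S)

end Pool.Agent.GR.CV
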