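import Pool.Agent.Lib.MP_aa40d3_nt.CV.CycM
import Pool.Agent.Lib.MP_aa40d3_nt.CV.CycD
import Pool.Agent.Lib.MP_aa40d3_nt.CV.CycH
import Pool.Agent.Lib.MP_aa40d3_nt.CV.GauL

/-! A Fuchsian system with a cyclic coordinate. -/

open Polynomial Matrix
open scoped Polynomial.Bivariate

namespace Pool.Agent.GR.CV

theorem exists_cyc {N n : ℕ} [NeZero N] {t : Fin n → ℂ} (ht : AlgebraicIndependent ℚ t)
    {A : Fin n → Matrix (Fin N) (Fin N) ℂ} {U : LM N} (hU : MSol (dl t) (pm t A) sL⁻¹ U 0)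
    (hN : NF U) : ∃ (k : ℕ) (q : Fin k → ℂ) (A' : Fin (n + k) → Matrix (Fin N) (Fin N) ℂ)
      (G : PM N), AlgebraicIndependent ℚ (Fin.append t q) ∧ G.det ≠ 0 ∧
      Gau (dl t) (pm t A) (dl (Fin.append t q)) (pm (Fin.append t q) A') 1 G ∧
      GC.Cyc (Fin.append t q) A' ∧ (∀ r, GC.Small r (∑ i, A' i)) ∧
      (∀ i, ∃ g : Matrix (Fin N) (Fin N) ℂ, g.det ≠ 0 ∧ A' (Fin.castAdd k i) * g = g * A i) ∧
      ∀ j, (A' (Fin.natAdd n j)).rank ≤ 1 := by
  have hinf : ∀ {p : ℂ[X]}, p ≠ 0 → ev sL⁻¹ p ≠ 0 := fun hp => (map_ne_zero_iff _ ev_inv_inj).2 hp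
  obtain ⟨w, hw⟩ := exists_cycV (dl_ne t) (pm t A)
  obtain ⟨v, m, hv, h1, h2, h3⟩ := hw.min
  obtain ⟨k, q, lam, hk, hq, h4, h5⟩ := exists_pts ht h3
  obtain ⟨G, rfl, h6, h7, h8⟩ := exists_modG hk h5 h4 h1 h2
  have hG := mod_bas h5 h6 h7 h8
  obtain ⟨Q, hQ⟩ := mod_gau (D := dl t) (B := pm t A) hG
  have hU' := hQ.msol (hinf (dl_ne t)) (hinf one_ne_zero) (hinf hG.1) hU
  rw [ga_one, ← dl_append] at hU'
  obtain ⟨A', rfl, u, K, hu, hK⟩ := ext_inf hq.injective hU' (hN.mul h7 h8)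
  have hQ' := hQ
  rw [← dl_append] at hQ'
  refine ⟨k, q, A', G, hq, hG.1, hQ', cyc_of_cycV (CycV.gau hQ' (dl_ne _) hG.1 ?_),
    fun r => small_of_diag hu hK, fun i => ⟨G.map (eval (t i)), mod_det hG ?_, ?_⟩, fun j => ?_⟩
  · rwa [single_one_vecMul]
  · rintro ⟨j, hj⟩
    have : Fin.natAdd n j = Fin.castAdd k i := hq.injective (by simpa using hj)
    have := congrArg Fin.val this
    simp at this
    omega
  · have h9 := mod_old (dl_ne t) hQ (dl_eval t i)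
    have h10 := pm_eval (Fin.append t q) A' (Fin.castAdd k i)
    have h11 := dl_deriv_ne hq.injective (Fin.castAdd k i)
    rw [Fin.append_left] at h10 h11
    rw [h10, pm_eval, Matrix.smul_mul, Matrix.mul_smul, smul_smul] at h9
    refine smul_right_injective _ h11 (h9.trans ?_)
    congr 1
    rw [dl_append, derivative_mul, eval_add, eval_mul, eval_mul, dl_eval, zero_mul, add_zero,
      mul_comm]
  · have h9 := mod_new (dl_ne t) hG hQ j
    have h10 := pm_eval (Fin.append t q) A' (Fin.natAdd n j)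
    rw [Fin.append_right] at h10
    rwa [h10, rank_smul (by simpa using dl_deriv_ne hq.injective (Fin.natAdd n j))] at h9

end Pool.Agent.GR.CV
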