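import Pool.Agent.Lib.MP_aa40d3_nt.CV.Defs

/-! Generic apparent singular points. -/

open Polynomial Matrix
open scoped Polynomial.Bivariate

namespace Pool.Agent.GR.CV

variable {N n : ℕ}

/-- Rows with one linear condition at each `q j`. -/
def Mod {k : ℕ} (q : Fin k → ℂ) (lam : Fin k → Fin N → ℂ) : Submodule ℂ[X] (Fin N → ℂ[X]) where
  carrier := {w | ∀ j, ∑ a, (w a).eval (q j) * lam j a = 0}
  zero_mem' := fun j => by simp
  add_mem' := fun {u v} hu hv j => by
    simp only [Pi.add_apply, eval_add, add_mul, Finset.sum_add_distrib, hu j, hv j, add_zero]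
  smul_mem' := fun c u hu j => by
    simp only [Pi.smul_apply, smul_eq_mul, eval_mul, mul_assoc, ← Finset.mul_sum, hu j, mul_zero]

theorem mem_Mod {k : ℕ} {q : Fin k → ℂ} {lam : Fin k → Fin N → ℂ} {w : Fin N → ℂ[X]} :
    w ∈ Mod q lam ↔ ∀ j, ∑ a, (w a).eval (q j) * lam j a = 0 := Iff.rfl

/-- The numbers that are algebraic over `Algebra.adjoin ℚ (Set.range t)` form a countable set
(`Algebraic.countable`), `ℂ` is not countable; `AlgebraicIndependent.option_iff`. -/
theorem exists_trans {ι : Type} [Finite ι] {t : ι → ℂ} (ht : AlgebraicIndependent ℚ t)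
    (F : Finset ℂ) : ∃ z, z ∉ F ∧ AlgebraicIndependent ℚ fun o : Option ι => o.elim z t := by
  have h1 : Countable (Algebra.adjoin ℚ (Set.range t)) := by
    rw [← Cardinal.mk_le_aleph0_iff]
    refine (Algebra.cardinalMk_adjoin_le ℚ (Set.range t)).trans ?_
    refine sup_le (sup_le Cardinal.mk_le_aleph0 ?_) le_rfl
    exact (Set.countable_range t).le_aleph0
  have h2 := (Algebraic.countable (Algebra.adjoin ℚ (Set.range t)) ℂ).union F.countable_toSet
  have h3 : ¬ ∀ z : ℂ, z ∈ {x : ℂ | IsAlgebraic (Algebra.adjoin ℚ (Set.range t)) x} ∪ (F : Set ℂ) :=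
    fun h => not_countable_complex (h2.mono fun z _ => h z)
  obtain ⟨z, hz⟩ := not_forall.1 h3
  rw [Set.mem_union, not_or] at hz
  exact ⟨z, hz.2, AlgebraicIndependent.option_iff.2 ⟨ht, hz.1⟩⟩

theorem indep_snoc {k : ℕ} {t : Fin n → ℂ} {q : Fin k → ℂ} {z : ℂ}
    (h : AlgebraicIndependent ℚ fun o : Option (Fin (n + k)) => o.elim z (Fin.append t q)) :
    AlgebraicIndependent ℚ (Fin.append t (Fin.snoc q z : Fin (k + 1) → ℂ)) := by
  rw [Fin.append_snoc]
  have h1 := h.comp _ (finSuccEquivLast (n := n + k)).injective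
  have h2 : ((fun o : Option (Fin (n + k)) => o.elim z (Fin.append t q)) ∘ finSuccEquivLast) =
      (Fin.snoc (Fin.append t q) z : Fin (n + k + 1) → ℂ) := by
    funext i
    refine Fin.lastCases ?_ (fun j => ?_) i
    · simp
    · simp
  rw [h2] at h1
  exact h1

theorem cycb_snoc {k : ℕ} {q : Fin k → ℂ} {lam : Fin k → Fin N → ℂ} {z : ℂ} {l : Fin N → ℂ}
    {w : Fin N → ℂ[X]} :
    w ∈ Mod (Fin.snoc q z : Fin (k + 1) → ℂ) (Fin.snoc lam l : Fin (k + 1) → Fin N → ℂ) ↔
      w ∈ Mod q lam ∧ ∑ a, (w a).eval z * l a = 0 := by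
  simp only [mem_Mod, Fin.forall_fin_succ', Fin.snoc_castSucc, Fin.snoc_last]

/-- The rows of bounded degree. -/
noncomputable def cycb_S (m : ℕ) {k : ℕ} (q : Fin k → ℂ) (lam : Fin k → Fin N → ℂ) :
    Submodule ℂ (Fin N → degreeLT ℂ m) :=
  ((Mod q lam).restrictScalars ℂ).comap ((degreeLT ℂ m).subtype.compLeft (Fin N))

/-- Let `S q lam` be the space over `ℂ` of the rows of degree less than `m` in `Mod q lam` (a
subspace of `Fin N → degreeLT ℂ m`, of dimension `N * m`). Keep `finrank S + k ≤ N * m` and use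
induction on `finrank S`. If `w ≠ 0` is in `S`, with `w a * v b ≠ w b * v a`, take `z` outside the
roots of the difference (`exists_trans`) and
`lam = Pi.single a ((v b).eval z) - Pi.single b ((v a).eval z)`. -/
theorem exists_pts {t : Fin n → ℂ} (ht : AlgebraicIndependent ℚ t) {v : Fin N → ℂ[X]} {m : ℕ}
    (hv : ∀ w : Fin N → ℂ[X], w ≠ 0 → (∀ a, (w a).degree < m) → ∃ a b, w a * v b ≠ w b * v a) :
    ∃ (k : ℕ) (q : Fin k → ℂ) (lam : Fin k → Fin N → ℂ), k ≤ N * m ∧
      AlgebraicIndependent ℚ (Fin.append t q) ∧ v ∈ Mod q lam ∧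
      ∀ w ∈ Mod q lam, (∀ a, (w a).degree < m) → w = 0 := by
  have key : ∀ (d k : ℕ) (q : Fin k → ℂ) (lam : Fin k → Fin N → ℂ),
      Module.finrank ℂ (cycb_S m q lam) = d → d + k ≤ N * m →
      AlgebraicIndependent ℚ (Fin.append t q) → v ∈ Mod q lam →
      ∃ (k : ℕ) (q : Fin k → ℂ) (lam : Fin k → Fin N → ℂ), k ≤ N * m ∧
        AlgebraicIndependent ℚ (Fin.append t q) ∧ v ∈ Mod q lam ∧
        ∀ w ∈ Mod q lam, (∀ a, (w a).degree < m) → w = 0 := by
    intro d
    induction d using Nat.strong_induction_on with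
    | _ d ih =>
    intro k q lam hd hk hq hvm
    by_cases h0 : ∀ w ∈ Mod q lam, (∀ a, (w a).degree < m) → w = 0
    · exact ⟨k, q, lam, by omega, hq, hvm, h0⟩
    push Not at h0
    obtain ⟨w, hw, hdeg, hw0⟩ := h0
    obtain ⟨a, b, hab⟩ := hv w hw0 hdeg
    have hne : w a * v b - w b * v a ≠ 0 := sub_ne_zero.2 hab
    obtain ⟨z, hz, hind⟩ := exists_trans hq (w a * v b - w b * v a).roots.toFinset
    rw [Multiset.mem_toFinset, mem_roots hne, IsRoot.def] at hz
    set l : Fin N → ℂ := Pi.single a ((v b).eval z) - Pi.single b ((v a).eval z) with hl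
    have hsum : ∀ u : Fin N → ℂ[X], ∑ c, (u c).eval z * l c = (u a * v b - u b * v a).eval z := by
      intro u
      simp only [hl, Pi.sub_apply, mul_sub, Finset.sum_sub_distrib, Pi.single_apply, mul_ite,
        mul_zero, Finset.sum_ite_eq', Finset.mem_univ, if_true, eval_sub, eval_mul]
    have hlt : cycb_S m (Fin.snoc q z : Fin (k + 1) → ℂ) (Fin.snoc lam l : Fin (k + 1) → _) <
        cycb_S m q lam := by
      refine lt_of_le_of_ne (fun u hu => (cycb_snoc.1 hu).1) fun he => hz ?_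
      have h1 : (fun c => ⟨w c, mem_degreeLT.2 (hdeg c)⟩ : Fin N → degreeLT ℂ m) ∈
          cycb_S m q lam := hw
      rw [← he] at h1
      rw [← hsum]
      exact (cycb_snoc.1 h1).2
    have h2 := Submodule.finrank_lt_finrank_of_lt hlt
    refine ih _ (hd ▸ h2) (k + 1) _ _ rfl (by omega) (indep_snoc hind) (cycb_snoc.2 ⟨hvm, ?_⟩)
    rw [hsum, mul_comm (v a), sub_self, eval_zero]
  refine key _ 0 Fin.elim0 Fin.elim0 rfl ?_ ?_ fun j => j.elim0
  · refine (Submodule.finrank_le _).trans_eq ?_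
    rw [Module.finrank_pi_fintype, Finset.sum_const, Finset.card_univ, Fintype.card_fin,
      (degreeLTEquiv ℂ m).finrank_eq, Module.finrank_fin_fun, smul_eq_mul]
  · rw [Fin.append_elim0]
    exact ht.comp _ (Fin.cast_injective _)

end Pool.Agent.GR.CV
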