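import Pool.Agent.Lib.MP_aa40d3_nt.CV.Defs

/-! Exponentials of residues. -/

open Polynomial Matrix
open scoped Polynomial.Bivariate

namespace Pool.Agent.GR.CV

variable {N r : ℕ} {A A' : Matrix (Fin N) (Fin N) ℂ}

open scoped Matrix.Norms.Operator in
theorem exp_series (A : Matrix (Fin N) (Fin N) ℂ) :
    HasSum (fun n : ℕ => ((n.factorial : ℂ)⁻¹) • A ^ n) (NormedSpace.exp A) :=
  NormedSpace.exp_series_hasSum_exp' A

theorem exp_pow_eigen {v : Fin N → ℂ} {c : ℂ} (h : A *ᵥ v = c • v) (n : ℕ) :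
    A ^ n *ᵥ v = c ^ n • v := by
  induction n with
  | zero => simp
  | succ n ih => rw [pow_succ, ← mulVec_mulVec, h, mulVec_smul, ih, smul_smul, pow_succ']

/-- Power series of the exponential (`NormedSpace.expSeries_hasSum_exp` or `exp_eq_tsum`, with
`open scoped Matrix.Norms.Operator`) and the continuous linear map `M ↦ M *ᵥ v`. -/
theorem exp_eigen {v : Fin N → ℂ} {c : ℂ} (h : A *ᵥ v = c • v) :
    NormedSpace.exp A *ᵥ v = Complex.exp c • v := by
  have h1 := (exp_series A).map (mulVec.addMonoidHomLeft v)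
    (continuous_id.matrix_mulVec continuous_const)
  have h2 := (NormedSpace.exp_series_hasSum_exp' (𝕂 := ℂ) c).smul_const v
  rw [Complex.exp_eq_exp_ℂ]
  refine h1.unique ?_
  have e : ((mulVec.addMonoidHomLeft v) ∘ fun n : ℕ => ((n.factorial : ℂ)⁻¹) • A ^ n) =
      fun n : ℕ => (((n.factorial : ℂ)⁻¹) • c ^ n) • v := by
    funext n
    change (((n.factorial : ℂ)⁻¹) • A ^ n) *ᵥ v = _
    rw [smul_mulVec, exp_pow_eigen h, smul_assoc]
  rw [e]
  exact h2

theorem exp_eigen_mat {X : Matrix (Fin N) (Fin N) ℂ} {c : Fin N → ℂ} (h : A * X = X * diagonal c) :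
    NormedSpace.exp A * X = X * diagonal fun j => Complex.exp (c j) := by
  ext i j
  have h1 : A *ᵥ (fun k => X k j) = c j • fun k => X k j := by
    funext k
    have h2 := congrFun (congrFun h k) j
    rw [mul_diagonal, mul_comm] at h2
    exact h2
  have h3 := congrFun (exp_eigen h1) i
  rw [mul_diagonal, mul_comm (X i j)]
  exact h3

theorem rank_le_of_ker (h : ∀ v, A *ᵥ v = 0 → A' *ᵥ v = 0) : A'.rank ≤ A.rank := by
  have h1 := LinearMap.finrank_range_add_finrank_ker A.mulVecLin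
  have h2 := LinearMap.finrank_range_add_finrank_ker A'.mulVecLin
  have h3 : Module.finrank ℂ (LinearMap.ker A.mulVecLin) ≤
      Module.finrank ℂ (LinearMap.ker A'.mulVecLin) := Submodule.finrank_mono fun v hv => h v hv
  unfold Matrix.rank
  omega

/-- Rank and nullity, for the transpose of `A`. -/
theorem rank_le_card {ι : Type} [Fintype ι] (φ : (Fin N → ℂ) →ₗ[ℂ] (ι → ℂ))
    (h : ∀ c, φ c = 0 → c ᵥ* A = 0) : A.rank ≤ Fintype.card ι := by
  have h1 := LinearMap.finrank_range_add_finrank_ker φ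
  have h2 := LinearMap.finrank_range_add_finrank_ker Aᵀ.mulVecLin
  have h3 : Module.finrank ℂ (LinearMap.ker φ) ≤ Module.finrank ℂ (LinearMap.ker Aᵀ.mulVecLin) :=
    Submodule.finrank_mono fun v hv => (mulVec_transpose A v).trans (h v hv)
  have h4 := (LinearMap.range φ).finrank_le
  rw [Module.finrank_fintype_fun_eq_card] at h4
  rw [← rank_transpose]
  unfold Matrix.rank
  omega

theorem small_of_rank (h : A.rank ≤ r) : GC.Small r A := by
  refine (rank_le_of_ker fun v hv => ?_).trans h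
  have h1 : ((2 * Real.pi * Complex.I : ℂ) • A) *ᵥ v = (0 : ℂ) • v := by
    rw [smul_mulVec, hv, smul_zero, zero_smul]
  rw [sub_mulVec, exp_eigen h1, Complex.exp_zero, one_smul, one_mulVec, sub_self]

theorem small_of_diag {u : Matrix (Fin N) (Fin N) ℂ} {K : Fin N → ℤ} (hu : u.det ≠ 0)
    (h : A * u = u * diagonal fun j => (K j : ℂ)) : GC.Small r A := by
  have h1 : ((2 * Real.pi * Complex.I : ℂ) • A) * u =
      u * diagonal fun j => (K j : ℂ) * (2 * Real.pi * Complex.I) := by
    rw [Matrix.smul_mul, h]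
    ext i j
    rw [Matrix.smul_apply, mul_diagonal, mul_diagonal, smul_eq_mul]
    ring
  have h2 := exp_eigen_mat h1
  simp only [Complex.exp_int_mul_two_pi_mul_I, diagonal_one, Matrix.mul_one] at h2
  have h3 : NormedSpace.exp ((2 * Real.pi * Complex.I : ℂ) • A) = 1 :=
    ((isUnit_iff_isUnit_det u).2 hu.isUnit).mul_right_cancel (h2.trans (Matrix.one_mul u).symm)
  rw [GC.Small, h3, sub_self, rank_zero]
  exact Nat.zero_le r

/-- `1 = (1 - 2 • A) + 2 • A`, and the columns of `1 - 2 • A` and of `A` are eigenvectors. -/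
theorem exp_half (h : A * A = (1 / 2 : ℂ) • A) :
    NormedSpace.exp ((2 * Real.pi * Complex.I : ℂ) • A) = 1 - (4 : ℂ) • A := by
  have h1 : ((2 * Real.pi * Complex.I : ℂ) • A) * A =
      A * diagonal fun _ => (Real.pi * Complex.I : ℂ) := by
    rw [Matrix.smul_mul, h]
    ext i j
    rw [Matrix.smul_apply, Matrix.smul_apply, mul_diagonal, smul_eq_mul, smul_eq_mul]
    ring
  have h2 : ((2 * Real.pi * Complex.I : ℂ) • A) * (1 - (2 : ℂ) • A) =
      (1 - (2 : ℂ) • A) * diagonal fun _ => (0 : ℂ) := by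
    rw [Matrix.smul_mul, Matrix.mul_sub, Matrix.mul_smul, h, smul_smul, diagonal_zero,
      Matrix.mul_zero, Matrix.mul_one, mul_one_div_cancel two_ne_zero, one_smul, sub_self,
      smul_zero]
  have h3 := exp_eigen_mat h1
  have h4 := exp_eigen_mat h2
  simp only [Complex.exp_pi_mul_I, Complex.exp_zero, diagonal_one, Matrix.mul_one,
    ← smul_one_eq_diagonal, Matrix.mul_smul] at h3 h4
  rw [Matrix.mul_sub, Matrix.mul_one, Matrix.mul_smul, h3, sub_eq_iff_eq_add] at h4
  rw [h4]
  module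

theorem rank_conj {g : Matrix (Fin N) (Fin N) ℂ} (hg : g.det ≠ 0) (h : A' * g = g * A) :
    A'.rank = A.rank := by
  rw [← rank_mul_eq_left_of_isUnit_det g A' hg.isUnit, h,
    rank_mul_eq_right_of_isUnit_det g A hg.isUnit]

theorem half_conj {g : Matrix (Fin N) (Fin N) ℂ} (hg : g.det ≠ 0) (h : A' * g = g * A)
    (hA : A * A = (1 / 2 : ℂ) • A) : A' * A' = (1 / 2 : ℂ) • A' := by
  refine ((isUnit_iff_isUnit_det g).2 hg.isUnit).mul_right_cancel ?_
  rw [Matrix.mul_assoc, h, ← Matrix.mul_assoc, h, Matrix.mul_assoc, hA, Matrix.smul_mul, h,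
    Matrix.mul_smul]

theorem rank_smul {c : ℂ} (hc : c ≠ 0) : (c • A).rank = A.rank := by
  refine le_antisymm (rank_le_of_ker fun v hv => ?_) (rank_le_of_ker fun v hv => ?_)
  · rw [smul_mulVec, hv, smul_zero]
  · rw [smul_mulVec] at hv
    exact (smul_eq_zero.1 hv).resolve_left hc

end Pool.Agent.GR.CV
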