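import Pool.Agent.Lib.MP_aa40d3_nt.CV.Ext

/-! The point at infinity. -/

open Polynomial Matrix
open scoped Polynomial.Bivariate

namespace Pool.Agent.GR.CV

variable {N n : ℕ} {t : Fin n → ℂ}

/-- Interpolation: two polynomials of degree less than `n` that agree at the `t i` are equal. -/
theorem exists_pm (ht : Function.Injective t) {Q : PM N} (hQ : ∀ a b, (Q a b).degree < n) :
    ∃ A, pm t A = Q := by
  refine ⟨fun i => ((derivative (dl t)).eval (t i))⁻¹ • Q.map (eval (t i)), ?_⟩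
  refine Matrix.ext fun a b => eq_of_degrees_lt_of_eval_index_eq Finset.univ ht.injOn ?_
    (by simpa using hQ a b) fun i _ => ?_
  · rw [← mem_degreeLT, pm, Matrix.sum_apply]
    refine Submodule.sum_mem _ fun i _ => ?_
    rw [Matrix.smul_apply, Matrix.map_apply, smul_eq_mul, mul_comm, C_mul']
    refine Submodule.smul_mem _ _ (mem_degreeLT.2 ?_)
    rw [← Lagrange.nodal_eq, Lagrange.degree_nodal]
    exact Nat.cast_lt.2 (Finset.card_erase_lt_of_mem (Finset.mem_univ i))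
  · have h := congrFun (congrFun (pm_eval t
      (fun i => ((derivative (dl t)).eval (t i))⁻¹ • Q.map (eval (t i))) i) a) b
    rwa [smul_inv_smul₀ (dl_deriv_ne ht i)] at h

theorem exti_dl (t : Fin n → ℂ) : Ov (1 - n) (sL * ev sL⁻¹ (dl t)) ∧
    (sL * ev sL⁻¹ (dl t)).coeff (1 - n) = 1 := by
  have hd : (dl t).degree = n := by
    rw [dl, ← Lagrange.nodal_eq, Lagrange.degree_nodal, Finset.card_univ, Fintype.card_fin]
  have hm : (dl t).Monic := monic_prod_X_sub_C t _
  have h1 : Ov (-n) (ev sL⁻¹ (dl t)) := by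
    have h := (ov_ev_inv_iff (dl t) (n + 1)).2 (by rw [hd]; exact Nat.cast_lt.2 n.lt_succ_self)
    exact h.mono (by push_cast; omega)
  refine ⟨by simpa [sub_eq_add_neg] using (ov_zpow 1).mul h1, ?_⟩
  have h2 := coeff_zpow_mul 1 (ev sL⁻¹ (dl t)) (1 - n)
  rw [zpow_one, sub_sub_cancel_left, ev_inv_coeff] at h2
  have h3 := hm.coeff_natDegree
  rw [natDegree_eq_of_degree_eq_some hd] at h3
  exact h2.trans h3

theorem exti_int (k : ℤ) : (k : LL) = algebraMap ℂ LL k := (map_intCast _ k).symm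

theorem exti_key {D : ℂ[X]} {Q : PM N} {V : LM N} {K : Fin N → ℤ}
    (h : MSol D Q sL⁻¹ (V * diagonal fun j => sL ^ K j) 0) : Q.map (ev sL⁻¹) * V =
      -((sL * ev sL⁻¹ D) • (sL • V.map dL + V * diagonal fun j => (K j : LL))) := by
  refine Matrix.ext fun a b => ?_
  have h1 := congrFun (congrFun h.2 a) b
  rw [← Matrix.mul_assoc, sdL_inv] at h1
  simp only [Matrix.smul_apply, Matrix.add_apply, Matrix.map_apply, mul_diagonal, smul_eq_mul,
    Matrix.mul_zero, add_zero, dL_mul, Matrix.neg_apply] at h1 ⊢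
  refine mul_right_cancel₀ (zpow_ne_zero (K b) sL_ne) ?_
  have h2 := sdL_zpow (K b)
  have h3 := mul_inv_cancel₀ sL_ne
  linear_combination sL * h1 - sL * ev sL⁻¹ D * V a b * h2 -
    (Q.map (ev sL⁻¹) * V) a b * sL ^ K b * h3

/-- With `U = V * s ^ K` and the inverse `V'` of `V`:
`Q(1/s) = -(s * Δ(1/s)) • ((s • V_s + V * diagonal K) * V')`, where `Δ(1/s)` has order `-n` and
leading coefficient `1`. For `n = 0` this gives `Q = 0`; take `K = 0`. -/
theorem ext_inf (ht : Function.Injective t) {Q : PM N} {U : LM N} (h : MSol (dl t) Q sL⁻¹ U 0)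
    (hU : NF U) : ∃ A, pm t A = Q ∧ ∃ (u : Matrix (Fin N) (Fin N) ℂ) (K : Fin N → ℤ), u.det ≠ 0 ∧
      (∑ i, A i) * u = u * diagonal fun j => (K j : ℂ) := by
  obtain ⟨V, K, hV, h0, rfl⟩ := hU
  obtain ⟨V', hV1, -, hV'⟩ := ov_mat_inv hV h0
  obtain ⟨hd, hd1⟩ := exti_dl t
  have key := exti_key h
  have hW : ∀ a b, Ov 0 ((sL • V.map dL + V * diagonal fun j => (K j : LL)) a b) := fun a b => by
    rw [Matrix.add_apply, mul_diagonal, exti_int]
    exact (hV a b).sder.add ((hV a b).mul_left (ov_alg _))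
  have hQ : ∀ a b, Ov (1 - n) (Q.map (ev sL⁻¹) a b) := fun a b => by
    rw [← Matrix.mul_one (Q.map _), ← hV1, ← Matrix.mul_assoc, key]
    refine (ov_mat_mul (m := 1 - n) (fun a b => ?_) hV' a b).mono (add_zero _).ge
    exact (hd.mul_right (hW a b)).neg
  obtain ⟨A, rfl⟩ := exists_pm ht fun a b => (ov_ev_inv_iff _ n).1 (hQ a b)
  refine ⟨A, rfl, ?_⟩
  rcases n with _ | m
  · exact ⟨1, 0, by simp, by simp⟩
  refine ⟨_, -K, h0, ?_⟩
  have h1 := coeff_mat_mul hQ hV
  have h2 : ((pm t A).map (ev sL⁻¹)).map (fun f => f.coeff (1 - ((m + 1 : ℕ) : ℤ))) = ∑ i, A i := by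
    rw [← pm_coeff t A]
    refine Matrix.ext fun a b => ?_
    rw [show 1 - ((m + 1 : ℕ) : ℤ) = -m by push_cast; ring]
    exact ev_inv_coeff _ m
  rw [← h2, ← h1, key]
  refine Matrix.ext fun a b => ?_
  rw [Matrix.map_apply, Matrix.neg_apply, Matrix.smul_apply, smul_eq_mul, HahnSeries.coeff_neg,
    hd.coeff_mul (hW a b), hd1, Matrix.add_apply, mul_diagonal, mul_diagonal, exti_int,
    HahnSeries.coeff_add, Matrix.smul_apply, smul_eq_mul, Matrix.map_apply, sdL_coeff,
    mul_comm (V a b), coeff_alg_mul, Matrix.map_apply]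
  simp [mul_comm]

end Pool.Agent.GR.CV
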