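import Pool.Agent.Lib.MP_aa40d3_nt.CV.CycB
import Pool.Agent.Lib.MP_aa40d3_nt.CV.GauT
import Pool.Agent.Lib.MP_aa40d3_nt.CV.Exp
import Pool.Agent.Lib.MP_aa40d3_nt.CV.ExtI

/-! The basis after the modification. -/

open Polynomial Matrix
open scoped Polynomial.Bivariate

namespace Pool.Agent.GR.CV

variable {N k m : ℕ} {q : Fin k → ℂ} {lam : Fin k → Fin N → ℂ}

/-- The rows of degree less than `m + 1` in `Mod q lam` form a space of dimension at least
`N * (m + 1) - k ≥ N`, on which `coeff m` is injective. -/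
theorem mod_lead (hk : k ≤ N * m) (h0 : ∀ w ∈ Mod q lam, (∀ a, (w a).degree < m) → w = 0)
    (c : Fin N → ℂ) : ∃ w ∈ Mod q lam, (∀ a, (w a).natDegree ≤ m) ∧ ∀ a, (w a).coeff m = c a := by
  let T : (Fin N → degreeLT ℂ m) →ₗ[ℂ] Fin k → ℂ :=
    { toFun := fun w j => ∑ a, (w a : ℂ[X]).eval (q j) * lam j a
      map_add' := fun u v => funext fun j => by
        simp only [Pi.add_apply, Submodule.coe_add, eval_add, add_mul, Finset.sum_add_distrib]
      map_smul' := fun t u => funext fun j => by
        simp only [Pi.smul_apply, Submodule.coe_smul, eval_smul, smul_eq_mul, RingHom.id_apply,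
          Finset.mul_sum, mul_assoc] }
  have hi : Function.Injective T := by
    rw [injective_iff_map_eq_zero]
    intro w hw
    have h1 := h0 (fun a => (w a : ℂ[X])) (fun j => congrFun hw j) fun a => mem_degreeLT.1 (w a).2
    exact funext fun a => Subtype.ext (congrFun h1 a)
  have hf : Module.finrank ℂ (Fin N → degreeLT ℂ m) = N * m := by
    rw [Module.finrank_pi_fintype]
    simp [(degreeLTEquiv ℂ m).finrank_eq]
  have hle := LinearMap.finrank_le_finrank_of_injective hi
  rw [hf, Module.finrank_fin_fun] at hle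
  have hs := (LinearMap.injective_iff_surjective_of_finrank_eq_finrank (f := T)
    (by rw [hf, Module.finrank_fin_fun]; omega)).1 hi
  obtain ⟨u, hu⟩ := hs fun j => -∑ a, (monomial m (c a)).eval (q j) * lam j a
  have hd : ∀ a, (u a : ℂ[X]).degree < m := fun a => mem_degreeLT.1 (u a).2
  refine ⟨fun a => u a + monomial m (c a), fun j => ?_, fun a => ?_, fun a => ?_⟩
  · have h1 : ∑ a, (u a : ℂ[X]).eval (q j) * lam j a = _ := congrFun hu j
    simp only [eval_add, add_mul, Finset.sum_add_distrib, h1, neg_add_cancel]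
  · exact natDegree_add_le_of_degree_le (natDegree_le_of_degree_le (hd a).le)
      (natDegree_monomial_le _)
  · rw [coeff_add, coeff_eq_zero_of_degree_lt (hd a), coeff_monomial_same, zero_add]

/-- Induction on a bound `m + e` for the degrees: subtract `X ^ e • (c ᵥ* G)`. The determinant of
`G` has the coefficient `det (G.map (coeff m))` at `N * m` (`coeff_det`-like statement, or: a row
`c ≠ 0` of degree `e` gives `c ᵥ* G` with nonzero coefficients at `e + m`). -/
theorem mod_bas (h0 : ∀ w ∈ Mod q lam, (∀ a, (w a).degree < m) → w = 0) {G : PM N}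
    (hG : ∀ i, G i ∈ Mod q lam) (hm : ∀ a b, (G a b).natDegree ≤ m)
    (hd : (G.map fun p => p.coeff m).det ≠ 0) : Bas (Mod q lam) G := by
  have h1 : G.det.coeff (N * m) = (G.map fun p => p.coeff m).det := by
    rw [det_apply, det_apply, finsetSum_coeff]
    refine Finset.sum_congr rfl fun σ _ => ?_
    have h2 := coeff_prod_of_natDegree_le Finset.univ (fun i => G (σ i) i) m fun i _ => hm _ _
    rw [Finset.card_univ, Fintype.card_fin] at h2
    rw [Units.smul_def, Units.smul_def, coeff_smul, h2]
    rfl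
  refine ⟨fun e => hd (by rw [← h1, e, coeff_zero]), hG, fun l hl => ?_⟩
  have key : ∀ e : ℕ, ∀ l ∈ Mod q lam, (∀ a, ∀ n, m + e ≤ n → (l a).coeff n = 0) →
      ∃ c, l = c ᵥ* G := by
    intro e
    induction e with
    | zero =>
      intro l hl h
      exact ⟨0, by rw [zero_vecMul, h0 l hl fun a => (degree_lt_iff_coeff_zero _ _).2 (h a)]⟩
    | succ e ih =>
      intro l hl h
      obtain ⟨c, hc⟩ : ∃ c, c ᵥ* (G.map fun p => p.coeff m) = fun a => (l a).coeff (m + e) :=
        ⟨_ ᵥ* (G.map fun p => p.coeff m)⁻¹, by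
          rw [vecMul_vecMul, nonsing_inv_mul _ (Ne.isUnit hd), vecMul_one]⟩
      have h2 : (fun i => monomial e (c i)) ᵥ* G ∈ Mod q lam := by
        rw [vecMul_eq_sum]
        exact Submodule.sum_mem _ fun i _ => Submodule.smul_mem _ _ (hG i)
      obtain ⟨c', hc'⟩ := ih _ (Submodule.sub_mem _ hl h2) fun a n hn => by
        obtain ⟨d, rfl⟩ : ∃ d, n = d + e := ⟨n - e, by omega⟩
        rw [Pi.sub_apply, coeff_sub, sub_eq_zero, vecMul, dotProduct, finsetSum_coeff]
        simp only [coeff_monomial_mul]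
        rcases eq_or_lt_of_le (show m ≤ d by omega) with rfl | h3
        · exact (congrFun hc a).symm
        · rw [h a _ (by omega), Finset.sum_eq_zero fun i _ => ?_]
          rw [coeff_eq_zero_of_natDegree_lt ((hm i a).trans_lt h3), mul_zero]
      exact ⟨c' + fun i => monomial e (c i), by rw [add_vecMul, ← hc', sub_add_cancel]⟩
  refine key (Finset.univ.sup (fun a => (l a).natDegree) + 1) l hl fun a n hn => ?_
  have h2 := Finset.le_sup (f := fun a => (l a).natDegree) (Finset.mem_univ a)
  exact coeff_eq_zero_of_natDegree_lt (by omega)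

/-- Complete the leading coefficient of `v` to an invertible matrix (rows `Pi.single (σ i) 1` for
`i ≠ 0`, with `σ = Equiv.swap 0 a`), `mod_lead`. -/
theorem exists_modG [NeZero N] (hk : k ≤ N * m)
    (h0 : ∀ w ∈ Mod q lam, (∀ a, (w a).degree < m) → w = 0) {v : Fin N → ℂ[X]}
    (hv : v ∈ Mod q lam) (hm : ∀ a, (v a).natDegree ≤ m) (hl : ∃ a, (v a).coeff m ≠ 0) :
    ∃ G : PM N, G 0 = v ∧ (∀ i, G i ∈ Mod q lam) ∧ (∀ a b, (G a b).natDegree ≤ m) ∧
      (G.map fun p => p.coeff m).det ≠ 0 := by
  obtain ⟨a, ha⟩ := hl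
  choose w hw1 hw2 hw3 using mod_lead hk h0
  let P : Matrix (Fin N) (Fin N) ℂ := (1 : Matrix (Fin N) (Fin N) ℂ).submatrix (Equiv.swap 0 a) id
  have hP : ∀ i b, P i b = (1 : Matrix (Fin N) (Fin N) ℂ) (Equiv.swap 0 a i) b := fun _ _ => rfl
  refine ⟨updateRow (of fun i => w (P i)) 0 v, updateRow_self, fun i => ?_, fun i b => ?_, ?_⟩
  · by_cases hi : i = 0
    · rw [hi, updateRow_self]
      exact hv
    · rw [updateRow_ne hi]
      exact hw1 _
  · by_cases hi : i = 0
    · rw [hi, updateRow_self]
      exact hm b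
    · rw [updateRow_ne hi]
      exact hw2 _ b
  · have e : ((updateRow (of fun i => w (P i)) 0 v).map fun p => p.coeff m) =
        updateRow P 0 (∑ i, (v (Equiv.swap 0 a i)).coeff m • P i) := by
      ext i b
      by_cases hi : i = 0
      · rw [hi, map_apply, updateRow_self, updateRow_self, Finset.sum_apply,
          Finset.sum_eq_single (Equiv.swap 0 a b) (fun j _ hj => ?_)
            fun h => absurd (Finset.mem_univ _) h]
        · rw [Pi.smul_apply, hP, Equiv.swap_apply_self, one_apply_eq, smul_eq_mul, mul_one]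
        · have h1 : Equiv.swap 0 a j ≠ b := fun h => hj (by rw [← h, Equiv.swap_apply_self])
          rw [Pi.smul_apply, hP, one_apply_ne h1, smul_zero]
      · rw [map_apply, updateRow_ne hi, updateRow_ne hi]
        exact hw3 _ b
    rw [e, det_updateRow_sum, Equiv.swap_apply_left, det_permute, det_one, mul_one, smul_eq_mul]
    exact mul_ne_zero ha (by simp)

end Pool.Agent.GR.CV
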