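import Pool.Agent.Lib.MP_aa40d3_nt.CV.CycA

/-! Cyclic vectors of least degree. -/

open Polynomial Matrix
open scoped Polynomial.Bivariate

namespace Pool.Agent.GR.CV

variable {N : ℕ} {D : ℂ[X]} {B : PM N}

theorem CycV.ne_zero [NeZero N] {w : Fin N → ℂ[X]} (h : CycV D B w) : w ≠ 0 := by
  rintro rfl
  refine bot_ne_top (h ⊥ (fun c u hc hu => ?_) (fun l hl => ?_) (Submodule.zero_mem _))
  · exact (smul_eq_zero.1 hu).resolve_left hc
  · rw [Submodule.mem_bot] at hl ⊢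
    subst hl
    ext a
    simp [th]

/-- Among the nonzero `u` with `f • u = g • w` for some `f ≠ 0`, `g ≠ 0` take one with the least
`m = Finset.univ.sup fun a => (u a).natDegree`. If `w' a * v b = w' b * v a` for all `a, b`, with
`v b ≠ 0` and `w' ≠ 0`, then `v b • w' = w' b • v` and `w' b ≠ 0`, so `w'` is such a `u`. -/
theorem CycV.min [NeZero N] {w : Fin N → ℂ[X]} (h : CycV D B w) : ∃ (v : Fin N → ℂ[X]) (m : ℕ),
    CycV D B v ∧ (∀ a, (v a).natDegree ≤ m) ∧ (∃ a, (v a).coeff m ≠ 0) ∧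
      ∀ w' : Fin N → ℂ[X], w' ≠ 0 → (∀ a, (w' a).degree < m) → ∃ a b, w' a * v b ≠ w' b * v a := by
  classical
  have hex : ∃ m : ℕ, ∃ u : Fin N → ℂ[X], u ≠ 0 ∧ (∃ f g : ℂ[X], f ≠ 0 ∧ g ≠ 0 ∧ f • u = g • w) ∧
      ∀ a, (u a).degree < m := by
    refine ⟨(Finset.univ.sup fun a => (w a).natDegree) + 1, w, h.ne_zero,
      ⟨1, 1, one_ne_zero, one_ne_zero, rfl⟩, fun a => degree_le_natDegree.trans_lt ?_⟩
    exact_mod_cast Nat.lt_succ_of_le
      (Finset.le_sup (f := fun a => (w a).natDegree) (Finset.mem_univ a))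
  obtain ⟨v, hv, ⟨f, g, hf, hg, hfg⟩, hd⟩ := Nat.find_spec hex
  obtain ⟨b, hb⟩ := Function.ne_iff.1 hv
  obtain ⟨m, hm⟩ : ∃ m, Nat.find hex = m + 1 := by
    refine Nat.exists_eq_succ_of_ne_zero fun h0 => hb ?_
    have := hd b
    rw [h0] at this
    exact degree_eq_bot.1 (Nat.WithBot.lt_zero_iff.1 this)
  have hmin := Nat.find_min hex (show m < Nat.find hex by omega)
  rw [hm] at hd
  have hle : ∀ a, (v a).natDegree ≤ m := fun a => natDegree_le_iff_coeff_eq_zero.2 fun k hk =>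
    coeff_eq_zero_of_degree_lt ((hd a).trans_le (by exact_mod_cast hk))
  refine ⟨v, m, fun S hS hs hvS => h S hS hs (hS g w hg (hfg ▸ S.smul_mem f hvS)), hle, ?_, ?_⟩
  · by_contra hc
    push Not at hc
    refine hmin ⟨v, hv, ⟨f, g, hf, hg, hfg⟩, fun a => (degree_lt_iff_coeff_zero _ _).2 ?_⟩
    intro k hk
    rcases hk.eq_or_lt with rfl | hk
    · exact hc a
    · exact coeff_eq_zero_of_natDegree_lt ((hle a).trans_lt hk)
  · intro w' hw' hd'
    by_contra hc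
    push Not at hc
    have e : v b • w' = w' b • v := funext fun a => by
      simp only [Pi.smul_apply, smul_eq_mul]
      linear_combination hc a b
    have hwb : w' b ≠ 0 := fun h0 => by
      rw [h0, zero_smul] at e
      exact hw' ((smul_eq_zero.1 e).resolve_left hb)
    refine hmin ⟨w', hw', ⟨f * v b, w' b * g, mul_ne_zero hf hb, mul_ne_zero hwb hg, ?_⟩, hd'⟩
    rw [mul_smul, e, smul_comm, hfg, mul_smul]

/-- For `S'` saturated and stable take the `l` with `c • l = l' ᵥ* G` for some `c ≠ 0`, `l' ∈ S'`;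
`Gau.th`, `th_smul`, `vecMul_cancel`. -/
theorem CycV.gau {D' : ℂ[X]} {Q G : PM N} (hg : Gau D B D' Q 1 G) (hD' : D' ≠ 0) (hG : G.det ≠ 0)
    {c : Fin N → ℂ[X]} (h : CycV D B (c ᵥ* G)) : CycV D' Q c := by
  intro S' hS hs hc
  let S : Submodule ℂ[X] (Fin N → ℂ[X]) :=
    { carrier := {l | ∃ a : ℂ[X], a ≠ 0 ∧ ∃ l' ∈ S', a • l = l' ᵥ* G}
      add_mem' := by
        rintro l₁ l₂ ⟨a₁, h₁, u₁, hu₁, e₁⟩ ⟨a₂, h₂, u₂, hu₂, e₂⟩
        refine ⟨a₁ * a₂, mul_ne_zero h₁ h₂, a₂ • u₁ + a₁ • u₂,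
          S'.add_mem (S'.smul_mem _ hu₁) (S'.smul_mem _ hu₂), ?_⟩
        rw [add_vecMul, smul_vecMul, smul_vecMul, ← e₁, ← e₂]
        module
      zero_mem' := ⟨1, one_ne_zero, 0, S'.zero_mem, by simp⟩
      smul_mem' := by
        rintro r l ⟨a, ha, u, hu, e⟩
        exact ⟨a, ha, r • u, S'.smul_mem _ hu, by rw [smul_vecMul, ← e, smul_comm]⟩ }
  have hT : S = ⊤ := by
    refine h S ?_ ?_ ⟨1, one_ne_zero, c, hc, one_smul _ _⟩
    · rintro r u hr ⟨a, ha, l, hl, e⟩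
      exact ⟨a * r, mul_ne_zero ha hr, l, hl, by rw [mul_smul, e]⟩
    · rintro l ⟨a, ha, u, hu, e⟩
      refine ⟨D' * a * a, mul_ne_zero (mul_ne_zero hD' ha) ha,
        (a * D) • th D' Q u - (D' * (D * derivative a)) • u,
        S'.sub_mem (S'.smul_mem _ (hs u hu)) (S'.smul_mem _ hu), ?_⟩
      have e₁ := hg.th u
      rw [← e, th_smul] at e₁
      rw [sub_vecMul, smul_vecMul, smul_vecMul, ← e, mul_smul a D, ← e₁]
      module
  refine eq_top_iff.2 fun u _ => ?_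
  obtain ⟨a, ha, l, hl, e⟩ : u ᵥ* G ∈ S := hT ▸ Submodule.mem_top
  rw [← smul_vecMul] at e
  exact hS a u ha (vecMul_cancel hG e ▸ hl)

end Pool.Agent.GR.CV
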