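import Pool.Agent.Lib.MP_aa40d3_nt.CV.Stmt
import Pool.Agent.Lib.MP_aa40d3_nt.GC.Row
import Pool.Agent.Lib.MP_aa40d3_nt.GR.DefsA

/-! Systems on a curve: definitions for the passage to a Fuchsian system. -/

open Polynomial Matrix
open scoped Polynomial.Bivariate

namespace Pool.Agent.GR.CV

/-- Laurent series. -/
abbrev LL : Type := LaurentSeries ℂ

/-- Polynomial matrices. -/
abbrev PM (N : ℕ) : Type := Matrix (Fin N) (Fin N) ℂ[X]

/-- Matrices of Laurent series. -/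
abbrev LM (N : ℕ) : Type := Matrix (Fin N) (Fin N) LL

variable {N n r d : ℕ}

/-- The derivative `d/ds`. -/
noncomputable def dL (f : LL) : LL := LaurentSeries.derivative ℂ f

/-- `f` is divisible by `s ^ m`. -/
def Ov (m : ℤ) (f : LL) : Prop := ∀ k < m, f.coeff k = 0

/-- Substitution of a series in a polynomial. -/
noncomputable def ev (x : LL) : ℂ[X] →+* LL := (aeval x : ℂ[X] →ₐ[ℂ] LL).toRingHom

theorem ev_apply (x : LL) (p : ℂ[X]) : ev x p = aeval x p := rfl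

/-- The substitution `s ↦ -s`. -/
noncomputable def sg (f : LL) : LL where
  coeff k := (-1) ^ k * f.coeff k
  isPWO_support' := f.isPWO_support'.mono fun k hk h => hk (by simp [h])

theorem sg_coeff (f : LL) (k : ℤ) : (sg f).coeff k = (-1) ^ k * f.coeff k := rfl

/-- The substitution `s ↦ s ^ 2`. -/
noncomputable def ps : LL →+* LL :=
  HahnSeries.embDomainRingHom (AddMonoidHom.mulLeft (2 : ℤ))
    (mul_right_injective₀ two_ne_zero) fun _ _ => mul_le_mul_iff_right₀ two_pos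

/-- A frame: `U * s ^ Cm` is a fundamental matrix of `D U' = B U` at `x`. -/
def MSol (D : ℂ[X]) (B : PM N) (x : LL) (U Cm : LM N) : Prop :=
  U.det ≠ 0 ∧ ev x D • (sL • U.map dL + U * Cm) = (sL * dL x) • (B.map (ev x) * U)

/-- `U ↦ G U / ρ` maps solutions of `D U' = B U` to solutions of `D' U' = B' U`. -/
def Gau {R : Type} [CommRing R] (D : R[X]) (B : Matrix (Fin N) (Fin N) R[X]) (D' : R[X])
    (B' : Matrix (Fin N) (Fin N) R[X]) (ρ : R[X]) (G : Matrix (Fin N) (Fin N) R[X]) : Prop :=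
  D' • ((ρ * D) • G.map derivative - (derivative ρ * D) • G + ρ • (G * B)) = (ρ * D) • (B' * G)

/-- The transformed frame. -/
noncomputable def ga (ρ : ℂ[X]) (G : PM N) (x : LL) (U : LM N) : LM N :=
  (ev x ρ)⁻¹ • (G.map (ev x) * U)

/-- A polynomial fundamental matrix. -/
def HF {R : Type} [CommRing R] (D : R[X]) (B : Matrix (Fin N) (Fin N) R[X]) : Prop :=
  ∃ Φ : Matrix (Fin N) (Fin N) R[X], Φ.det ≠ 0 ∧ D • Φ.map derivative = B * Φ

/-- A fundamental matrix of algebraic functions on a disc. -/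
def AlgM (D : ℂ[X]) (B : PM N) : Prop :=
  ∃ (x₀ : ℂ) (ε : ℝ) (U : ℂ → Matrix (Fin N) (Fin N) ℂ), 0 < ε ∧
    (∀ x ∈ Metric.ball x₀ ε, D.eval x ≠ 0 ∧ (U x).det ≠ 0 ∧ ∀ a b,
      HasDerivAt (fun z => U z a b) (((D.eval x)⁻¹ • (B.map (eval x) * U x)) a b) x) ∧
    ∀ a b, ∃ Q : ℂ[X][Y], Q ≠ 0 ∧ ∀ x ∈ Metric.ball x₀ ε, Q.evalEval x (U x a b) = 0

/-- A saturated module. -/
def Sat (S : Submodule ℂ[X] (Fin N → ℂ[X])) : Prop := ∀ (c : ℂ[X]) u, c ≠ 0 → c • u ∈ S → u ∈ S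

/-- Saturated modules of columns that are stable under the connection and under `Mu`. -/
def ColIrr (D : ℂ[X]) (B Mu : PM N) : Prop :=
  ∀ S : Submodule ℂ[X] (Fin N → ℂ[X]), Sat S →
    (∀ u ∈ S, (D • fun a => derivative (u a)) - B *ᵥ u ∈ S) → (∀ u ∈ S, Mu *ᵥ u ∈ S) →
      S = ⊥ ∨ S = ⊤

/-- The connection on rows. -/
noncomputable def th {R : Type} [CommRing R] (D : R[X]) (B : Matrix (Fin N) (Fin N) R[X])
    (l : Fin N → R[X]) : Fin N → R[X] :=
  (D • fun a => derivative (l a)) + l ᵥ* B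

/-- The row `v` is cyclic. -/
def CycV (D : ℂ[X]) (B : PM N) (v : Fin N → ℂ[X]) : Prop :=
  ∀ S : Submodule ℂ[X] (Fin N → ℂ[X]), Sat S → (∀ l ∈ S, th D B l ∈ S) → v ∈ S → S = ⊤

/-- Modules of rows that are stable under the connection and under `W`. -/
def WIrr (D : ℂ[X]) (B : PM N) (W : Subalgebra ℂ[X] (PM N)) : Prop :=
  ∀ S : Submodule ℂ[X] (Fin N → ℂ[X]), (∀ l ∈ S, th D B l ∈ S) → (∀ l ∈ S, ∀ Φ ∈ W, l ᵥ* Φ ∈ S) →
    S = ⊥ ∨ ∀ v, ∃ q : ℂ[X], q ≠ 0 ∧ q • v ∈ S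

/-- A frame at an ordinary or apparent singular point. -/
def TG (D : ℂ[X]) (B : PM N) (t : ℂ) (U : LM N) : Prop := MSol D B (xt t 1) U 0

/-- A frame below a puncture. -/
def TP (r : ℕ) (D : ℂ[X]) (B : PM N) (t : ℂ) (U : LM N) : Prop :=
  ∃ (Cm : LM N) (J : Finset (Fin N)), J.card ≤ r ∧ (∀ i j, Ov 0 (Cm i j)) ∧
    (∀ i, i ∉ J → ∀ j, Cm i j = 0) ∧ MSol D B (xt t 1) U Cm

/-- A frame at a branch point. -/
def TB (r : ℕ) (D : ℂ[X]) (B : PM N) (t : ℂ) (U : LM N) : Prop :=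
  MSol D B (xt t 2) U 0 ∧ ∃ (π : Fin N → Fin N) (J : Finset (Fin N)), J.card ≤ r ∧
    (∀ i j, sg (U i j) = U i (π j)) ∧ ∀ j, j ∉ J → π j = j ∨ π j ∈ J

/-- Frames at all points. -/
def Fr (r : ℕ) (D : ℂ[X]) (B : PM N) (t : Fin n → ℂ) (M : Finset (Fin n)) (U : ℂ → LM N) : Prop :=
  (∀ z, z ∉ Set.range t → TG D B z (U z)) ∧ (∀ i, i ∉ M → TP r D B (t i) (U (t i))) ∧
    ∀ i ∈ M, TB r D B (t i) (U (t i))

/-- A frame `V * s ^ K` with `V` invertible over the power series. -/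
def NF (U : LM N) : Prop :=
  ∃ (V : LM N) (K : Fin N → ℤ), (∀ i j, Ov 0 (V i j)) ∧ (V.map fun f => f.coeff 0).det ≠ 0 ∧
    U = V * diagonal fun j => sL ^ K j

/-- The expansion of a row in a frame. -/
noncomputable def ex (x : LL) (U : LM N) (l : Fin N → ℂ[X]) : Fin N → LL :=
  (fun i => ev x (l i)) ᵥ* U

theorem ex_add (x : LL) (U : LM N) (u v : Fin N → ℂ[X]) : ex x U (u + v) = ex x U u + ex x U v := by
  rw [ex, ex, ex, ← add_vecMul]
  exact congrArg (· ᵥ* U) (funext fun i => map_add _ _ _)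

theorem ex_smul (x : LL) (U : LM N) (c : ℂ[X]) (u : Fin N → ℂ[X]) :
    ex x U (c • u) = ev x c • ex x U u := by
  rw [ex, ex, ← smul_vecMul]
  exact congrArg (· ᵥ* U) (funext fun i => map_mul _ _ _)

theorem ex_zero (x : LL) (U : LM N) : ex x U 0 = 0 := by
  rw [ex, ← zero_vecMul U]
  exact congrArg (· ᵥ* U) (funext fun i => map_zero _)

theorem ex_sub (x : LL) (U : LM N) (u v : Fin N → ℂ[X]) : ex x U (u - v) = ex x U u - ex x U v := by
  rw [eq_sub_iff_add_eq, ← ex_add, sub_add_cancel]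

theorem ex_vecMul (x : LL) (U : LM N) (c : Fin N → ℂ[X]) (G : PM N) :
    ex x U (c ᵥ* G) = ex x (G.map (ev x) * U) c := by
  rw [ex, ex, ← vecMul_vecMul]
  exact congrArg (· ᵥ* U) (funext fun i => RingHom.map_vecMul _ _ _ _)

/-- The rows of `G` form a basis of `S`. -/
def Bas (S : Submodule ℂ[X] (Fin N → ℂ[X])) (G : PM N) : Prop :=
  G.det ≠ 0 ∧ (∀ i, G i ∈ S) ∧ ∀ l ∈ S, ∃ c, l = c ᵥ* G

/-- A frame over the power series that detects vanishing at `t`. -/
def Det (t : ℂ) (e : ℕ) (U : LM N) : Prop :=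
  (∀ i j, Ov 0 (U i j)) ∧ ∀ c : Fin N → ℂ[X], (∀ j, Ov e (ex (xt t e) U c j)) →
    ∀ i, (c i).eval t = 0

/-- Polynomial matrices that are scalar on each sheet. -/
noncomputable def WW (x : LL) (U : LM N) (sh : Fin N → Fin d) : Subalgebra ℂ[X] (PM N) where
  carrier := {Φ | ∃ f : Fin d → LL, Φ.map (ev x) * U = U * diagonal fun j => f (sh j)}
  mul_mem' := by
    rintro Φ Ψ ⟨f, hf⟩ ⟨g, hg⟩
    refine ⟨f * g, ?_⟩
    rw [Matrix.map_mul, Matrix.mul_assoc, hg, ← Matrix.mul_assoc, hf, Matrix.mul_assoc,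
      diagonal_mul_diagonal]
    rfl
  add_mem' := by
    rintro Φ Ψ ⟨f, hf⟩ ⟨g, hg⟩
    refine ⟨f + g, ?_⟩
    rw [Matrix.map_add _ (map_add _), Matrix.add_mul, hf, hg, ← Matrix.mul_add, diagonal_add]
    rfl
  algebraMap_mem' := fun q => ⟨fun _ => ev x q, by
    rw [algebraMap_eq_diagonal, diagonal_map (map_zero _)]
    ext a b
    simp [mul_comm]⟩

theorem mem_WW {x : LL} {U : LM N} {sh : Fin N → Fin d} {Φ : PM N} : Φ ∈ WW x U sh ↔
    ∃ f : Fin d → LL, Φ.map (ev x) * U = U * diagonal fun j => f (sh j) := Iff.rfl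

section push
variable {R Ω : Type} [CommRing R] [CommRing Ω]

/-- The component of an index. -/
def co (i : Fin (r * d)) : Fin r := (finProdFinEquiv.symm i).1

/-- The sheet of an index. -/
def sh (i : Fin (r * d)) : Fin d := (finProdFinEquiv.symm i).2

/-- The index with given component and sheet. -/
def ix (a : Fin r) (k : Fin d) : Fin (r * d) := finProdFinEquiv (a, k)

@[simp] theorem co_ix (a : Fin r) (k : Fin d) : co (ix a k) = a := by simp [co, ix]

@[simp] theorem sh_ix (a : Fin r) (k : Fin d) : sh (ix a k) = k := by simp [sh, ix]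

@[simp] theorem ix_co_sh (i : Fin (r * d)) : ix (co i) (sh i) = i :=
  finProdFinEquiv.apply_symm_apply i

/-- The direct image of the system, with denominator `δ * D`, where `q P_y = δ` on the curve. -/
noncomputable def pB (S : Sys R r) (d : ℕ) (q : R[X][Y]) (δ : R[X]) :
    Matrix (Fin (r * d)) (Fin (r * d)) R[X] := Matrix.of fun i j =>
  ((C δ * S.A (co i) (co j) * Y ^ (sh j : ℕ) + if co i = co j then
    C S.D * (q * dX S.P) * derivative (Y ^ (sh j : ℕ)) else 0) %ₘ S.P).coeff (sh i)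

/-- Multiplication by `y`. -/
noncomputable def pM (S : Sys R r) (d : ℕ) : Matrix (Fin (r * d)) (Fin (r * d)) R[X] :=
  Matrix.of fun i j => if co i = co j then (Y ^ ((sh j : ℕ) + 1) %ₘ S.P).coeff (sh i) else 0

/-- From coordinates to vectors on the branch `y`. -/
def Om (r d : ℕ) (y : Ω) : Matrix (Fin r) (Fin (r * d)) Ω :=
  Matrix.of fun a j => if a = co j then y ^ (sh j : ℕ) else 0

/-- The derivative of `Om` with respect to `y`. -/
def Om' (r d : ℕ) (y : Ω) : Matrix (Fin r) (Fin (r * d)) Ω :=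
  Matrix.of fun a j => if a = co j then (sh j : ℕ) * y ^ ((sh j : ℕ) - 1) else 0

/-- The matrix `G k` placed in the block `k`. -/
def blk (G : Fin d → Matrix (Fin r) (Fin r) Ω) (k : Fin d) : Matrix (Fin r) (Fin (r * d)) Ω :=
  Matrix.of fun a j => if sh j = k then G k a (co j) else 0

/-- A block diagonal matrix. -/
def bd (B : Fin d → Matrix (Fin r) (Fin r) Ω) : Matrix (Fin (r * d)) (Fin (r * d)) Ω :=
  Matrix.of fun i j => if sh i = sh j then B (sh i) (co i) (co j) else 0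

/-- `P` is monic of degree `d` and `q P_y = δ` on the curve. -/
def Prep (S : Sys R r) (d : ℕ) (q : R[X][Y]) (δ : R[X]) : Prop :=
  S.P.Monic ∧ S.P.natDegree = d ∧ S.P ∣ q * derivative S.P - C δ

end push

end Pool.Agent.GR.CV
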