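import Pool.Agent.Lib.MP_aa40d3_nt.CV.Lau

/-! The derivative with respect to `x`. -/

open Polynomial Matrix
open scoped Polynomial.Bivariate

namespace Pool.Agent.GR.CV

section
variable {R R' : Type} [CommRing R] [CommRing R']

theorem dX_coeff (p : R[X][Y]) (k : ℕ) : (dX p).coeff k = derivative (p.coeff k) := by
  rw [dX, Polynomial.sum_def, finsetSum_coeff]
  simp only [coeff_monomial]
  rw [Finset.sum_ite_eq' p.support k fun j => derivative (p.coeff j)]
  split_ifs with h
  · rfl
  · rw [notMem_support_iff.1 h, derivative_zero]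

theorem dX_add (p q : R[X][Y]) : dX (p + q) = dX p + dX q := by
  refine Polynomial.ext fun k => ?_
  rw [coeff_add, dX_coeff, dX_coeff, dX_coeff, coeff_add, derivative_add]

theorem dX_sub (p q : R[X][Y]) : dX (p - q) = dX p - dX q := by
  refine Polynomial.ext fun k => ?_
  rw [coeff_sub, dX_coeff, dX_coeff, dX_coeff, coeff_sub, derivative_sub]

theorem dX_zero : dX (0 : R[X][Y]) = 0 := by
  refine Polynomial.ext fun k => ?_
  rw [dX_coeff, coeff_zero, derivative_zero]

theorem dX_sum {ι : Type} (s : Finset ι) (f : ι → R[X][Y]) :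
    dX (∑ i ∈ s, f i) = ∑ i ∈ s, dX (f i) := by
  refine Polynomial.ext fun k => ?_
  rw [dX_coeff, finsetSum_coeff, finsetSum_coeff, derivative_sum]
  exact Finset.sum_congr rfl fun i _ => (dX_coeff _ _).symm

theorem dX_mul (p q : R[X][Y]) : dX (p * q) = dX p * q + p * dX q := by
  refine Polynomial.ext fun k => ?_
  rw [dX_coeff, coeff_add, coeff_mul, coeff_mul, coeff_mul, derivative_sum,
    ← Finset.sum_add_distrib]
  exact Finset.sum_congr rfl fun i _ => by rw [derivative_mul, dX_coeff, dX_coeff]

theorem dX_C (c : R[X]) : dX (C c) = C (derivative c) := by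
  refine Polynomial.ext fun k => ?_
  rw [dX_coeff, coeff_C, coeff_C]
  split_ifs
  · rfl
  · exact derivative_zero

theorem dX_Y_pow (k : ℕ) : dX (Y ^ k : R[X][Y]) = 0 := by
  refine Polynomial.ext fun j => ?_
  rw [dX_coeff, coeff_X_pow, coeff_zero]
  split_ifs
  · exact derivative_one
  · exact derivative_zero

theorem dX_map (φ : R →+* R') (p : R[X][Y]) :
    dX (p.map (mapRingHom φ)) = (dX p).map (mapRingHom φ) := by
  refine Polynomial.ext fun k => ?_
  rw [dX_coeff, coeff_map, coeff_map, dX_coeff, coe_mapRingHom, derivative_map]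

theorem nab_map {r : ℕ} (S : Sys R r) (φ : R →+* R') (u : Fin r → R[X][Y]) (a : Fin r) :
    (S.map φ).nab (fun i => (u i).map (mapRingHom φ)) a = (S.nab u a).map (mapRingHom φ) := by
  simp only [Sys.nab, Sys.map, Pi.sub_apply, Pi.smul_apply, smul_eq_mul, Matrix.mulVec,
    dotProduct, Matrix.map_apply, Polynomial.map_sub, Polynomial.map_mul, Polynomial.map_sum,
    Polynomial.map_C, coe_mapRingHom, dX_map, derivative_map]

theorem Sys.map_map {R'' : Type} [CommRing R''] {r : ℕ} (S : Sys R r) (φ : R →+* R')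
    (ψ : R' →+* R'') : (S.map φ).map ψ = S.map (ψ.comp φ) := by
  simp only [Sys.map, Polynomial.map_map, mapRingHom_comp, Matrix.map_map, Sys.mk.injEq, true_and]
  ext1 i j
  simp only [Matrix.map_apply, Function.comp_apply, Polynomial.map_map, mapRingHom_comp]

theorem Sys.Fund.map {r : ℕ} {S : Sys R r} (h : S.Fund) {φ : R →+* R'}
    (hφ : Function.Injective φ) : (S.map φ).Fund := by
  obtain ⟨Φ, ⟨q, c, hc, hq⟩, hΦ⟩ := h
  refine ⟨Φ.map (Polynomial.map (mapRingHom φ)), ⟨q.map (mapRingHom φ), c.map φ,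
    fun e => hc ((Polynomial.map_eq_zero_iff hφ).1 e), ?_⟩, fun a b => ?_⟩
  · have h1 := Polynomial.map_dvd (mapRingHom φ) hq
    have h2 : (Φ.map (Polynomial.map (mapRingHom φ))).det = Φ.det.map (mapRingHom φ) :=
      (RingHom.map_det (mapRingHom (mapRingHom φ)) Φ).symm
    rw [Polynomial.map_sub, Polynomial.map_mul, Polynomial.map_C, coe_mapRingHom, ← h2] at h1
    exact h1
  · have h1 := Polynomial.map_dvd (mapRingHom φ) (hΦ a b)
    rw [← nab_map] at h1
    exact h1

end

/-- Induction on `p`. -/
theorem dL_aeval2 (x y : LL) (p : ℂ[X][Y]) : dL (aevalAeval x y p) =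
    aevalAeval x y (dX p) * dL x + aevalAeval x y (derivative p) * dL y := by
  induction p using Polynomial.induction_on with
  | C c =>
    have h := dL_ev x c
    simp only [ev_apply] at h
    simp [dX_C, h]
  | add p q hp hq =>
    simp only [map_add, dL_add, dX_add, hp, hq]
    ring
  | monomial k c ih =>
    have e : C c * Y ^ (k + 1) = C c * Y ^ k * Y ^ 1 := by ring
    rw [e, map_mul, dL_mul, ih, dX_mul _ (Y ^ 1), dX_Y_pow, derivative_mul (f := C c * Y ^ k)]
    simp only [pow_one, derivative_X, map_add, map_mul, aevalAeval_Y, map_zero, map_one]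
    ring

/-- Induction on `p`. -/
theorem hasDerivAt_evalEval {y : ℂ → ℂ} {y' x : ℂ} (hy : HasDerivAt y y' x) (p : ℂ[X][Y]) :
    HasDerivAt (fun z => p.evalEval z (y z))
      ((dX p).evalEval x (y x) + (derivative p).evalEval x (y x) * y') x := by
  induction p using Polynomial.induction_on with
  | C c => simpa [dX_C, evalEval_C] using c.hasDerivAt x
  | add p q hp hq =>
    simp only [evalEval_add, dX_add, derivative_add]
    exact (hp.fun_add hq).congr_deriv (by ring)
  | monomial k c ih =>
    have e : C c * Y ^ (k + 1) = C c * Y ^ k * Y ^ 1 := by ring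
    rw [e, dX_mul _ (Y ^ 1), dX_Y_pow, derivative_mul (f := C c * Y ^ k)]
    simp only [pow_one, derivative_X, evalEval_add, evalEval_mul _ _ (_ : ℂ[X][Y]) Y,
      evalEval_X, mul_zero, mul_one, add_zero]
    exact (ih.fun_mul hy).congr_deriv (by ring)

end Pool.Agent.GR.CV
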