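import Pool.Agent.Lib.MP_aa40d3_nt.CV.Pol
import Pool.Agent.Lib.MP_aa40d3_nt.GR.CycA

/-! The Fuchsian form. -/

open Polynomial Matrix
open scoped Polynomial.Bivariate

namespace Pool.Agent.GR.CV

variable {N n : ℕ} {t : Fin n → ℂ}

theorem dl_eval (t : Fin n → ℂ) (i : Fin n) : (dl t).eval (t i) = 0 := by
  rw [dl, eval_prod]
  exact Finset.prod_eq_zero (Finset.mem_univ i) (by simp)

theorem dl_ne (t : Fin n → ℂ) : dl t ≠ 0 := (dl_monic t).ne_zero

theorem dl_root {z : ℂ} (h : (dl t).eval z = 0) : z ∈ Set.range t := by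
  rw [dl, eval_prod, Finset.prod_eq_zero_iff] at h
  obtain ⟨i, -, h⟩ := h
  exact ⟨i, (sub_eq_zero.1 (by simpa using h)).symm⟩

theorem dl_deriv (t : Fin n → ℂ) (i : Fin n) :
    (derivative (dl t)).eval (t i) = ∏ j ∈ Finset.univ.erase i, (t i - t j) := by
  rw [dl, ← Finset.mul_prod_erase _ _ (Finset.mem_univ i), derivative_mul]
  simp [eval_prod]

theorem dl_deriv_ne (ht : Function.Injective t) (i : Fin n) :
    (derivative (dl t)).eval (t i) ≠ 0 := by
  rw [dl_deriv]
  exact Finset.prod_ne_zero_iff.2 fun j hj =>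
    sub_ne_zero.2 fun h => (Finset.ne_of_mem_erase hj) (ht h).symm

theorem dl_append {k : ℕ} (t : Fin n → ℂ) (q : Fin k → ℂ) : dl (Fin.append t q) = dl t * dl q := by
  simp only [dl, Fin.prod_univ_add, Fin.append_left, Fin.append_right]

theorem pm_eval (t : Fin n → ℂ) (A : Fin n → Matrix (Fin N) (Fin N) ℂ) (i : Fin n) :
    (pm t A).map (eval (t i)) = (derivative (dl t)).eval (t i) • A i := by
  ext a b
  rw [map_apply, cyca_pm_apply, eval_finsetSum, Finset.sum_eq_single i, dl_deriv]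
  · simp [eval_prod]
  · intro k _ hk
    rw [eval_mul, eval_prod, Finset.prod_eq_zero (i := i)
      (Finset.mem_erase.2 ⟨hk.symm, Finset.mem_univ i⟩) (by simp), zero_mul]
  · exact fun h => absurd (Finset.mem_univ i) h

theorem pm_coeff (t : Fin n → ℂ) (A : Fin n → Matrix (Fin N) (Fin N) ℂ) :
    ((pm t A).map fun p => p.coeff (n - 1)) = ∑ i, A i := by
  ext a b
  rw [map_apply, cyca_pm_apply, finsetSum_coeff, Matrix.sum_apply]
  refine Finset.sum_congr rfl fun i _ => ?_
  have h1 : (∏ j ∈ Finset.univ.erase i, (X - C (t j))).natDegree = n - 1 := by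
    rw [natDegree_finsetProd_X_sub_C_eq_card, Finset.card_erase_of_mem (Finset.mem_univ i),
      Finset.card_univ, Fintype.card_fin]
  rw [coeff_mul_C, ← h1,
    (monic_prod_of_monic _ _ fun j _ => monic_X_sub_C (t j)).coeff_natDegree, one_mul]

end Pool.Agent.GR.CV
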