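import Pool.Agent.Lib.MP_aa40d3_nt.CV.Pol

/-! The lattice of integral rows. -/

open Polynomial Matrix
open scoped Polynomial.Bivariate

namespace Pool.Agent.GR.CV

variable {N : ℕ} {Z : Finset ℂ} {e : ℂ → ℕ} {U : ℂ → LM N}

/-- Rows that are integral in the frames at the points of `Z`. -/
noncomputable def Lat (Z : Finset ℂ) (e : ℂ → ℕ) (U : ℂ → LM N) :
    Submodule ℂ[X] (Fin N → ℂ[X]) where
  carrier := {l | ∀ z ∈ Z, ∀ j, Ov 0 (ex (xt z (e z)) (U z) l j)}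
  zero_mem' := fun z _ j => by
    rw [ex_zero]
    exact Ov.zero 0
  add_mem' := fun hu hv z hz j => by
    rw [ex_add]
    exact (hu z hz j).add (hv z hz j)
  smul_mem' := fun c u hu z hz j => by
    rw [ex_smul]
    exact (ov_ev _ _ c).mul_left (hu z hz j)

theorem mem_Lat {l : Fin N → ℂ[X]} :
    l ∈ Lat Z e U ↔ ∀ z ∈ Z, ∀ j, Ov 0 (ex (xt z (e z)) (U z) l j) := Iff.rfl

/-- The inverses of the frames are power series. -/
def Nrm (Z : Finset ℂ) (e : ℂ → ℕ) (U : ℂ → LM N) : Prop :=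
  ∀ z ∈ Z, ∃ U' : LM N, U z * U' = 1 ∧ ∀ i j, Ov 0 (U' i j)

/-- For `q = (∏ z ∈ Z, (X - C z)) ^ m` the series `ev (xt z (e z)) q` satisfies `Ov m`. -/
theorem exists_clear {ι : Type} [Finite ι] (he : ∀ z, 1 ≤ e z) (f : ℂ → ι → LL) :
    ∃ q : ℂ[X], q ≠ 0 ∧ (∀ z, q.eval z = 0 → z ∈ Z) ∧
      ∀ z ∈ Z, ∀ i, Ov 0 (ev (xt z (e z)) q * f z i) := by
  classical
  obtain ⟨m, hm⟩ := exists_ov_fin (fun p : Z × ι => f p.1 p.2)
  refine ⟨(∏ z ∈ Z, (X - C z)) ^ m, pow_ne_zero _ (Finset.prod_ne_zero_iff.2 fun z _ =>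
    X_sub_C_ne_zero z), fun z hz => ?_, fun z hz i => ?_⟩
  · rw [eval_pow, eval_prod] at hz
    obtain ⟨a, ha, h0⟩ := Finset.prod_eq_zero_iff.1 (pow_eq_zero_iff'.1 hz).1
    rw [eval_sub, eval_X, eval_C, sub_eq_zero] at h0
    exact h0 ▸ ha
  · rw [← Finset.mul_prod_erase Z _ hz, mul_pow, map_mul, map_pow, ev_xt_X_sub, ← pow_mul,
      ← zpow_natCast, mul_assoc]
    have h1 : Ov (-m) (ev (xt z (e z)) ((∏ x ∈ Z.erase z, (X - C x)) ^ m) * f z i) :=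
      (ov_ev _ _ _).mul_left (hm (⟨z, hz⟩, i))
    refine ((ov_zpow_mul _).2 h1).mono ?_
    have h2 : m ≤ e z * m := Nat.le_mul_of_pos_left m (he z)
    omega

theorem lat_full (he : ∀ z, 1 ≤ e z) : ∃ q : ℂ[X], q ≠ 0 ∧ ∀ v, q • v ∈ Lat Z e U := by
  obtain ⟨q, hq, -, h⟩ := exists_clear (Z := Z) he fun z (p : Fin N × Fin N) => U z p.1 p.2
  refine ⟨q, hq, fun v z hz j => ?_⟩
  rw [ex_smul, Pi.smul_apply, smul_eq_mul, ex, vecMul, dotProduct, Finset.mul_sum]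
  refine Ov.sum fun i _ => ?_
  rw [mul_left_comm]
  exact (ov_ev _ _ _).mul_left (h z hz (i, j))

theorem lat_aux1 {K : Type} [Field K] {a : K} (ha : a ≠ 0) {V : Matrix (Fin N) (Fin N) K}
    (hV : V.det ≠ 0) : (a⁻¹ • V) * (a • V⁻¹) = 1 := by
  rw [smul_mul_assoc, mul_smul_comm, smul_smul, inv_mul_cancel₀ ha, one_smul,
    mul_nonsing_inv _ (isUnit_iff_ne_zero.2 hV)]

theorem exists_scale (he : ∀ z, 1 ≤ e z) (hU : ∀ z, (U z).det ≠ 0) :
    ∃ ρ : ℂ[X], ρ ≠ 0 ∧ (∀ z, ρ.eval z = 0 → z ∈ Z) ∧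
      Nrm Z e fun z => ga ρ 1 (xt z (e z)) (U z) := by
  obtain ⟨q, hq, hZ, h⟩ := exists_clear (Z := Z) he fun z (p : Fin N × Fin N) => (U z)⁻¹ p.1 p.2
  refine ⟨q, hq, hZ, fun z hz => ⟨ev (xt z (e z)) q • (U z)⁻¹, ?_, fun i j => h z hz (i, j)⟩⟩
  show ga q 1 (xt z (e z)) (U z) * _ = 1
  rw [ga, Matrix.map_one _ (map_zero _) (map_one _), Matrix.one_mul]
  exact lat_aux1 (ev_xt_ne (he z) hq) (hU z)

/-- Multiply by `U'` to see that `D` divides the entries of `w` locally; `dvd_of_local`; cancel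
`ev _ D` (`ev_xt_ne`). -/
theorem lat_div (he : ∀ z, 1 ≤ e z) (hN : Nrm Z e U) {D : ℂ[X]} (hD : D ≠ 0)
    (hZ : ∀ z, D.eval z = 0 → z ∈ Z) {w : Fin N → ℂ[X]}
    (h : ∀ z ∈ Z, ∃ v : Fin N → LL, (∀ j, Ov 0 (v j)) ∧
      ex (xt z (e z)) (U z) w = ev (xt z (e z)) D • v) : ∃ l ∈ Lat Z e U, D • l = w := by
  have hd : ∀ i, D ∣ w i := fun i => dvd_of_local hD fun z hz => by
    obtain ⟨v, hv, hw⟩ := h z (hZ z hz)
    obtain ⟨U', hU', ho⟩ := hN z (hZ z hz)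
    refine ⟨e z, (v ᵥ* U') i, he z, ?_, ?_⟩
    · rw [vecMul, dotProduct]
      exact Ov.sum fun k _ => (hv k).mul_left (ho k i)
    · have h1 := congrArg (· ᵥ* U') hw
      simp only [ex] at h1
      rw [vecMul_vecMul, hU', vecMul_one, smul_vecMul] at h1
      exact congrFun h1 i
  choose l hl using hd
  have hw : D • l = w := funext fun i => (hl i).symm
  refine ⟨l, fun z hz j => ?_, hw⟩
  obtain ⟨v, hv, h1⟩ := h z hz
  rw [← hw, ex_smul] at h1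
  have h2 := congrFun h1 j
  rw [Pi.smul_apply, Pi.smul_apply, smul_eq_mul, smul_eq_mul] at h2
  rw [mul_left_cancel₀ (ev_xt_ne (he z) hD) h2]
  exact hv j

/-- Apply `lat_div` to `D = X - C z` and `w = c ᵥ* G` (at `z' ≠ z` use `ov_ev_inv`); then
`l = c' ᵥ* G` and `c = (X - C z) • c'` (multiply by the adjugate of `G`). -/
theorem lat_det (he : ∀ z, 1 ≤ e z) (hN : Nrm Z e U) {G : PM N} (hG : Bas (Lat Z e U) G) {z : ℂ}
    (hz : z ∈ Z) : Det z (e z) (G.map (ev (xt z (e z))) * U z) := by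
  refine ⟨fun i j => hG.2.1 i z hz j, fun c hc i => ?_⟩
  have hmem : c ᵥ* G ∈ Lat Z e U := by
    rw [vecMul_eq_sum]
    exact Submodule.sum_mem _ fun k _ => Submodule.smul_mem _ _ (hG.2.1 k)
  obtain ⟨l, hl, hw⟩ := lat_div (D := X - C z) (w := c ᵥ* G) he hN (X_sub_C_ne_zero z)
    (fun y hy => by
      rw [eval_sub, eval_X, eval_C, sub_eq_zero] at hy
      exact hy ▸ hz)
    (fun y hy => by
      refine ⟨(ev (xt y (e y)) (X - C z))⁻¹ • ex (xt y (e y)) (U y) (c ᵥ* G), fun j => ?_, ?_⟩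
      · rw [Pi.smul_apply, smul_eq_mul]
        by_cases hyz : y = z
        · subst hyz
          rw [ev_xt_X_sub, ← zpow_natCast, ← _root_.zpow_neg, ex_vecMul]
          have h1 := (ov_zpow_mul (-(e y : ℤ))).2 (hc j)
          rwa [neg_add_cancel] at h1
        · refine (ov_ev_inv (he y) ?_).mul_left (hmem y hy j)
          rw [eval_sub, eval_X, eval_C]
          exact sub_ne_zero.2 hyz
      · rw [smul_smul, mul_inv_cancel₀ (ev_xt_ne (he y) (X_sub_C_ne_zero z)), one_smul])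
  obtain ⟨c', rfl⟩ := hG.2.2 l hl
  have h0 : ((X - C z : ℂ[X]) • c' - c) ᵥ* G = 0 := by
    rw [sub_vecMul, smul_vecMul, hw, sub_self]
  have h1 := congrFun (sub_eq_zero.1 (eq_zero_of_vecMul_eq_zero hG.1 h0)) i
  rw [← h1, Pi.smul_apply, smul_eq_mul, eval_mul, eval_sub, eval_X, eval_C, sub_self, zero_mul]

end Pool.Agent.GR.CV
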