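import Pool.Agent.Lib.MP_aa40d3_nt.CV.PopA
import Pool.Agent.Lib.MP_aa40d3_nt.CV.GauT

/-! A reduced basis at infinity. -/

open Polynomial Matrix
open scoped Polynomial.Bivariate

namespace Pool.Agent.GR.CV

variable {N : ℕ} {U : LM N} {S : Submodule ℂ[X] (Fin N → ℂ[X])}

/-- Call `K` good if `K ≤ K₀` and the first property holds; the constant `K₀` of `pop_up` is good.
By `pop_low` and `exists_ov` the good `K` have bounded coordinates; take `∑ K` minimal
(`Int.exists_least_of_bdd`). Then `K - Pi.single j 1` is not good: some `l ≠ 0` in `S` has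
`Ov (K i + 1)` for `i ≠ j` and `Ov (K j)` at `j`; its coefficient at `K j` is not zero
(`Ov.succ`); rescale `l` by a constant. -/
theorem pop_min (hU : U.det ≠ 0) (hq : ∃ q : ℂ[X], q ≠ 0 ∧ ∀ v, q • v ∈ S) : ∃ K : Fin N → ℤ,
    (∀ l ∈ S, (∀ i, Ov (K i + 1) (ex sL⁻¹ U l i)) → l = 0) ∧
      ∀ j, ∃ l ∈ S, ∀ i, Ov (K i + 1) (ex sL⁻¹ U l i - if i = j then sL ^ K i else 0) := by
  obtain ⟨K₀, hK₀⟩ := pop_up hU
  obtain ⟨q, hq0, hqS⟩ := hq
  choose l hl0 hl using pop_low hq0 U K₀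
  choose m hm using fun j => exists_ov (ex sL⁻¹ U (q • l j) j)
  obtain ⟨_, ⟨K, h1, h2, rfl⟩, h3⟩ := Int.exists_least_of_bdd
    (P := fun z => ∃ K : Fin N → ℤ, (∀ i, K i ≤ K₀) ∧
      (∀ l ∈ S, (∀ i, Ov (K i + 1) (ex sL⁻¹ U l i)) → l = 0) ∧ ∑ i, K i = z)
    ⟨∑ j, -(m j : ℤ), by
      rintro _ ⟨K, h1, h2, rfl⟩
      refine Finset.sum_le_sum fun j _ => not_lt.1 fun h => smul_ne_zero hq0 (hl0 j) ?_
      refine h2 _ (hqS _) fun i => ?_
      by_cases e : i = j
      · rw [e]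
        exact (hm j).mono h
      · exact (hl j i e).mono (by linarith [h1 i])⟩
    ⟨_, fun _ => K₀, fun _ => le_rfl, fun l _ h => hK₀ l h, rfl⟩
  refine ⟨K, h2, fun j => ?_⟩
  obtain ⟨v, hv, h4, h5⟩ : ∃ v ∈ S,
      (∀ i, Ov ((K - Pi.single j 1 : Fin N → ℤ) i + 1) (ex sL⁻¹ U v i)) ∧ v ≠ 0 := by
    by_contra h
    have h4 := h3 _ ⟨K - Pi.single j 1, fun i => ?_,
      fun v hv h4 => by_contra fun h5 => h ⟨v, hv, h4, h5⟩, rfl⟩
    · simp only [Pi.sub_apply, Finset.sum_sub_distrib, Finset.sum_pi_single', Finset.mem_univ,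
        if_true] at h4
      omega
    · have := h1 i
      rw [Pi.sub_apply, Pi.single_apply]
      split_ifs <;> omega
  have h6 : Ov (K j) (ex sL⁻¹ U v j) := by simpa using h4 j
  have h7 : ∀ i, i ≠ j → Ov (K i + 1) (ex sL⁻¹ U v i) := fun i e => by simpa [e] using h4 i
  have h8 : (ex sL⁻¹ U v j).coeff (K j) ≠ 0 := fun h => h5 (h2 v hv fun i => by
    by_cases e : i = j
    · rw [e]
      exact h6.succ h
    · exact h7 i e)
  refine ⟨C ((ex sL⁻¹ U v j).coeff (K j))⁻¹ • v, S.smul_mem _ hv, fun i => ?_⟩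
  rw [ex_smul, ev_C, Pi.smul_apply, smul_eq_mul]
  by_cases e : i = j
  · rw [if_pos e, e]
    refine (((ov_alg _).mul_left h6).sub (ov_zpow _)).succ ?_
    rw [HahnSeries.coeff_sub, coeff_alg_mul, inv_mul_cancel₀ h8, sL_zpow,
      HahnSeries.coeff_single_same, sub_self]
  · rw [if_neg e, sub_zero]
    exact (ov_alg _).mul_left (h7 i e)

/-- The rows of `G` are the `l` of `pop_min`; `V = G(1/s) * U * s ^ (-K)` is `1` modulo `s`. With
the inverse `V'` of `ov_mat_inv`, write the entries of `ex l * s ^ (-K) * V'` as `p(1/s) + w`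
(`exists_polar`); then `l - p ᵥ* G` has expansion `w * V * s ^ K`, so it is zero. -/
theorem popov (hU : U.det ≠ 0) (hq : ∃ q : ℂ[X], q ≠ 0 ∧ ∀ v, q • v ∈ S) :
    ∃ G : PM N, Bas S G ∧ NF (G.map (ev sL⁻¹) * U) := by
  obtain ⟨K, h1, h2⟩ := pop_min hU hq
  choose l hl h3 using h2
  obtain ⟨V, hV⟩ : ∃ V : LM N,
      V = (Matrix.of l).map (ev sL⁻¹) * U * diagonal fun j => sL ^ (-K j) := ⟨_, rfl⟩
  have hd : (diagonal fun j => sL ^ (-K j)) * (diagonal fun j => sL ^ K j) = (1 : LM N) := by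
    rw [diagonal_mul_diagonal, ← diagonal_one]
    exact congrArg _ (funext fun j => by rw [← zpow_add₀ sL_ne, neg_add_cancel, zpow_zero])
  have hW : (Matrix.of l).map (ev sL⁻¹) * U = V * diagonal fun j => sL ^ K j := by
    rw [hV, Matrix.mul_assoc _ (diagonal _), hd, Matrix.mul_one]
  have h4 : ∀ j i, Ov 1 (V j i - (1 : LM N) j i) := fun j i => by
    have h := (ov_zpow_mul (-K i)).2 (h3 j i)
    rw [neg_add_cancel_left] at h
    convert h using 1
    rw [hV, mul_diagonal, mul_sub, mul_comm, one_apply]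
    congr 1
    by_cases e : i = j
    · rw [if_pos e, if_pos e.symm, ← zpow_add₀ sL_ne, neg_add_cancel, zpow_zero]
    · rw [if_neg e, if_neg (Ne.symm e), mul_zero]
  have h5 : ∀ j i, Ov 0 (V j i) := fun j i => by
    have h : Ov 0 ((1 : LM N) j i) := by
      rw [one_apply]
      split_ifs
      exacts [ov_one, Ov.zero 0]
    simpa using ((h4 j i).mono zero_le_one).add h
  have h6 : (V.map fun f => f.coeff 0).det ≠ 0 := by
    have h : (V.map fun f => f.coeff 0) = 1 := by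
      ext j i
      have h := h4 j i 0 zero_lt_one
      rw [HahnSeries.coeff_sub, sub_eq_zero] at h
      rw [map_apply, h, one_apply, one_apply]
      split_ifs <;> simp
    rw [h, det_one]
    exact one_ne_zero
  obtain ⟨V', h7, h8, -⟩ := ov_mat_inv h5 h6
  refine ⟨Matrix.of l, ⟨fun h => ?_, hl, fun v hv => ?_⟩, V, K, h5, h6, hW⟩
  · have h9 : (Matrix.of l).map (ev sL⁻¹) * (U * (diagonal fun j => sL ^ (-K j)) * V') = 1 := by
      rw [← h7, hV]
      simp only [Matrix.mul_assoc]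
    have h10 := congrArg det h9
    rw [det_mul, ← RingHom.mapMatrix_apply, ← RingHom.map_det, h, map_zero, zero_mul,
      det_one] at h10
    exact zero_ne_one h10
  · obtain ⟨u, hu⟩ : ∃ u, u = ex sL⁻¹ U v ᵥ* ((diagonal fun j => sL ^ (-K j)) * V') := ⟨_, rfl⟩
    choose p hp using fun i => exists_polar (u i)
    refine ⟨p, sub_eq_zero.1 (h1 _ (S.sub_mem hv ?_) fun i => ?_)⟩
    · rw [vecMul_eq_sum]
      exact S.sum_mem fun i _ => S.smul_mem _ (hl i)
    · have h9 : ex sL⁻¹ U v = u ᵥ* (V * diagonal fun j => sL ^ K j) := by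
        rw [hu, vecMul_vecMul, Matrix.mul_assoc, ← Matrix.mul_assoc V', h8, Matrix.one_mul, hd,
          vecMul_one]
      rw [ex_sub, ex_vecMul, hW, h9, ex, ← sub_vecMul, ← vecMul_vecMul, vecMul_diagonal, mul_comm]
      exact (ov_zpow_mul _).2 (Ov.sum fun k _ => (hp k).mul_right (h5 k i))

end Pool.Agent.GR.CV
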