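import Pool.Agent.Lib.MP_aa40d3_nt.CV.Res
import Pool.Agent.Lib.MP_aa40d3_nt.CV.Lat
import Pool.Agent.Lib.MP_aa40d3_nt.CV.Pop
import Pool.Agent.Lib.MP_aa40d3_nt.CV.ExtI

/-! Passage to a Fuchsian system. -/

open Polynomial Matrix
open scoped Polynomial.Bivariate

namespace Pool.Agent.GR.CV

variable {N n r : ℕ} {D : ℂ[X]} {B : PM N} {t : Fin n → ℂ} {M : Finset (Fin n)} {U : ℂ → LM N}

open Classical in
/-- The ramification of the frame at `z`. -/
noncomputable def ee (t : Fin n → ℂ) (M : Finset (Fin n)) (z : ℂ) : ℕ :=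
  if ∃ i ∈ M, t i = z then 2 else 1

theorem ee_pos (z : ℂ) : 1 ≤ ee t M z := by
  unfold ee
  split_ifs <;> omega

theorem ee_mem {i : Fin n} (hi : i ∈ M) : ee t M (t i) = 2 := if_pos ⟨i, hi, rfl⟩

theorem ee_not (ht : Function.Injective t) {i : Fin n} (hi : i ∉ M) : ee t M (t i) = 1 :=
  if_neg fun ⟨_, hj, e⟩ => hi (ht e ▸ hj)

theorem ee_out {z : ℂ} (hz : z ∉ Set.range t) : ee t M z = 1 :=
  if_neg fun ⟨j, _, e⟩ => hz ⟨j, e⟩

theorem Fr.det (ht : Function.Injective t) (h : Fr r D B t M U) (z : ℂ) : (U z).det ≠ 0 := by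
  have _ := ht
  by_cases hz : z ∈ Set.range t
  · obtain ⟨i, rfl⟩ := hz
    by_cases hi : i ∈ M
    · exact (h.2.2 i hi).1.1
    · obtain ⟨_, _, -, -, -, h4⟩ := h.2.1 i hi
      exact h4.1
  · exact (h.1 z hz).1

theorem Fr.gau (ht : Function.Injective t) (h : Fr r D B t M U) {D' ρ : ℂ[X]} {B' G : PM N}
    (hg : Gau D B D' B' ρ G) (hD : D ≠ 0) (hρ : ρ ≠ 0) (hG : G.det ≠ 0) :
    Fr r D' B' t M fun z => ga ρ G (xt z (ee t M z)) (U z) := by
  refine ⟨fun z hz => ?_, fun i hi => ?_, fun i hi => ?_⟩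
  · simp only [ee_out hz]
    exact hg.tg hD hρ hG (h.1 z hz)
  · simp only [ee_not ht hi]
    exact hg.tp hD hρ hG (h.2.1 i hi)
  · simp only [ee_mem hi]
    exact hg.tb hD hρ hG (h.2.2 i hi)

theorem fuchs_root {z : ℂ} {e : ℕ} (he : 1 ≤ e) {V Cm : LM N} (h : MSol D B (xt z e) V Cm)
    (hC : ∀ i j, Ov 0 (Cm i j)) {δ : ℂ[X]} (hδ : δ.eval z = 0) {l : Fin N → ℂ[X]}
    (hl : ∀ j, Ov 0 (ex (xt z e) V l j)) : ∃ v : Fin N → LL, (∀ j, Ov 0 (v j)) ∧
      ex (xt z e) V (δ • th D B l) = ev (xt z e) D • v := by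
  obtain ⟨u, rfl⟩ := dvd_iff_isRoot.2 hδ
  have h1 := h.ex_th l
  rw [sdL_xt] at h1
  have h2 : algebraMap ℂ LL (e : ℂ)⁻¹ * e = 1 := by
    rw [← map_natCast (algebraMap ℂ LL), ← map_mul, inv_mul_cancel₀ (Nat.cast_ne_zero.2 (by omega)),
      map_one]
  refine ⟨(ev (xt z e) u * algebraMap ℂ LL (e : ℂ)⁻¹) •
    ((fun j => sL * dL (ex (xt z e) V l j)) + ex (xt z e) V l ᵥ* Cm), fun j => ?_, ?_⟩
  · exact ((ov_ev z e u).mul_left (ov_alg _)).mul_left
      ((hl j).sder.add (Ov.sum fun i _ => (hl i).mul_left (hC i j)))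
  · rw [smul_comm, ← h1, ex_smul, map_mul, ev_xt_X_sub, smul_smul]
    congr 1
    linear_combination (-(ev (xt z e) u * sL ^ e)) * h2

/-- `MSol.ex_th`. At an ordinary point cancel `sL` and use `Ov.der`; at `t i` write
`dl t = (X - C (t i)) * u`, so that `ev _ (dl t) = sL ^ e * ev _ u`, and `sL * dL x = e * sL ^ e`. -/
theorem Fr.stab (ht : Function.Injective t) (h : Fr r D B t M U) {z : ℂ} {l : Fin N → ℂ[X]}
    (hl : ∀ j, Ov 0 (ex (xt z (ee t M z)) (U z) l j)) : ∃ v : Fin N → LL, (∀ j, Ov 0 (v j)) ∧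
      ex (xt z (ee t M z)) (U z) (dl t • th D B l) = ev (xt z (ee t M z)) D • v := by
  by_cases hz : z ∈ Set.range t
  · obtain ⟨i, rfl⟩ := hz
    by_cases hi : i ∈ M
    · rw [ee_mem hi] at hl ⊢
      exact fuchs_root one_le_two (h.2.2 i hi).1 (fun _ _ => Ov.zero 0) (dl_eval t i) hl
    · rw [ee_not ht hi] at hl ⊢
      obtain ⟨Cm, _, -, h2, -, h4⟩ := h.2.1 i hi
      exact fuchs_root le_rfl h4 h2 (dl_eval t i) hl
  · rw [ee_out hz] at hl ⊢
    have h1 := MSol.ex_th (h.1 z hz) l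
    rw [sdL_xt, vecMul_zero, add_zero] at h1
    refine ⟨fun j => ev (xt z 1) (dl t) * dL (ex (xt z 1) (U z) l j),
      fun j => (ov_ev z 1 _).mul_left (hl j).der, funext fun j => mul_left_cancel₀ sL_ne ?_⟩
    have h2 := congrFun h1 j
    rw [ex_smul]
    simp only [Pi.smul_apply, smul_eq_mul, Nat.cast_one, pow_one, one_mul] at h2 ⊢
    linear_combination ev (xt z 1) (dl t) * h2

theorem exists_fuchs (ht : Function.Injective t) (hD : D ≠ 0) (h : Fr r D B t M U) {V : LM N}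
    (hV : MSol D B sL⁻¹ V 0) : ∃ (ρ : ℂ[X]) (G : PM N) (A : Fin n → Matrix (Fin N) (Fin N) ℂ),
      ρ ≠ 0 ∧ G.det ≠ 0 ∧ Gau D B (dl t) (pm t A) ρ G ∧ NF (ga ρ G sL⁻¹ V) ∧
      (∀ i, (A i).rank ≤ r) ∧ ∀ i ∈ M, A i * A i = (1 / 2 : ℂ) • A i := by
  classical
  let Z : Finset ℂ := D.roots.toFinset ∪ Finset.univ.image t
  have hZ : ∀ i, t i ∈ Z := fun i => Finset.mem_union_right _ (Finset.mem_image_of_mem _ (by simp))
  have hinf : ∀ {p : ℂ[X]}, p ≠ 0 → ev sL⁻¹ p ≠ 0 := fun hp => (map_ne_zero_iff _ ev_inv_inj).2 hp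
  obtain ⟨ρ, hρ, hρZ, hN⟩ := exists_scale (Z := Z) (ee_pos (t := t) (M := M)) (h.det ht)
  have hs := gau_scale D ρ B
  have h1 : (1 : PM N).det ≠ 0 := by simp
  have hD' := mul_ne_zero hρ hD
  have hF := h.gau ht hs hD hρ h1
  have hV' := hs.msol (hinf hD) (hinf hρ) (hinf h1) hV
  obtain ⟨G, hG, hNF⟩ := popov hV'.1 (lat_full (Z := Z) (ee_pos (t := t) (M := M))
    (U := fun z => ga ρ 1 (xt z (ee t M z)) (U z)))
  obtain ⟨Q, hQ⟩ := hG.gau (D := ρ * D) (D' := dl t) fun l hl => lat_div ee_pos hN hD'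
    (fun z hz => by
      rw [eval_mul, mul_eq_zero] at hz
      exact hz.elim (hρZ z) fun hz => Finset.mem_union_left _
        (Multiset.mem_toFinset.2 ((mem_roots hD).2 hz)))
    fun z hz => hF.stab ht (hl z hz)
  have hV'' := hQ.msol (hinf hD') (hinf one_ne_zero) (hinf hG.1) hV'
  rw [ga_one] at hV''
  obtain ⟨A, rfl, -⟩ := ext_inf ht hV'' hNF
  have hF' := hF.gau ht hQ hD' one_ne_zero hG.1
  have hdet := fun i => lat_det ee_pos hN hG (hZ i)
  simp only [ga_one] at hF'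
  have hc := hs.comp hQ hD'
  rw [mul_one, mul_one] at hc
  refine ⟨ρ, G, A, hρ, hG.1, hc, ?_, fun i => ?_, fun i hi => ?_⟩
  · rwa [← ga_one, ga_comp, mul_one, mul_one] at hNF
  · rw [← rank_smul (dl_deriv_ne ht i), ← pm_eval]
    by_cases hi : i ∈ M
    · have h2 := hdet i
      have h3 := hF'.2.2 i hi
      simp only [ee_mem hi] at h2 h3
      exact res_B (dl_eval t i) h3 h2
    · have h2 := hdet i
      have h3 := hF'.2.1 i hi
      simp only [ee_not ht hi] at h2 h3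
      exact res_P (dl_eval t i) h3 h2
  · have h2 := hdet i
    have h3 := hF'.2.2 i hi
    simp only [ee_mem hi] at h2 h3
    have h4 := res_half (dl_eval t i) h3.1 h2
    rw [pm_eval, Matrix.smul_mul, Matrix.mul_smul, smul_smul, smul_smul] at h4
    have h5 := dl_deriv_ne ht i
    refine smul_right_injective _ (mul_ne_zero h5 h5) (h4.trans ?_)
    simp only [smul_smul]
    congr 1
    ring

end Pool.Agent.GR.CV
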