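import Pool.Agent.Lib.MP_aa40d3_nt.CV.Defs

/-! A differential operator of Fuchsian type that kills given polynomials. -/

open Polynomial Matrix
open scoped Polynomial.Bivariate

namespace Pool.Agent.GR.CV

variable {k : Type} [Field k] {D : k[X]} {t : k} {a N : ℕ}

theorem kata_der (t : k) (m : ℕ) (c : k[X]) : (X - C t) * derivative ((X - C t) ^ m * c) =
    (X - C t) ^ m * ((m : k[X]) * c + (X - C t) * derivative c) := by
  induction m with
  | zero => simp
  | succ m ih =>
    rw [pow_succ', mul_assoc, derivative_mul, derivative_X_sub_C]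
    push_cast
    linear_combination (X - C t) * ih

/-- Write `v = (X - C t) ^ ν * v₀` with `v₀.eval t ≠ 0`
(`exists_eq_pow_rootMultiplicity_mul_and_not_dvd`) and `D = (X - C t) ^ (a + 1) * D₀`; then
`β = (X - C t) ^ a * D₀ * (ν * v₀ + (X - C t) * v₀')`. For `v = 0` take `v₀ = 1`, `β = 0`. -/
theorem kat_log (hD : (X - C t) ^ (a + 1) ∣ D) (v : k[X]) : ∃ v₀ β : k[X], v₀.eval t ≠ 0 ∧
    (X - C t) ^ a ∣ β ∧ v₀ * (D * derivative v) = β * v := by
  by_cases hv : v = 0
  · exact ⟨1, 0, by simp, dvd_zero _, by simp [hv]⟩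
  obtain ⟨v₀, h1, h2⟩ := exists_eq_pow_rootMultiplicity_mul_and_not_dvd v hv t
  obtain ⟨D₀, rfl⟩ := hD
  generalize rootMultiplicity t v = ν at h1
  subst h1
  refine ⟨v₀, (X - C t) ^ a * (D₀ * ((ν : k[X]) * v₀ + (X - C t) * derivative v₀)),
    fun h => h2 (dvd_iff_isRoot.mpr h), dvd_mul_right _ _, ?_⟩
  linear_combination v₀ * (X - C t) ^ a * D₀ * kata_der t ν v₀

theorem kat_dvd (hD : (X - C t) ^ (a + 1) ∣ D) {c : k[X]} {m : ℕ} (h : (X - C t) ^ m ∣ c) :
    (X - C t) ^ (m + a) ∣ D * derivative c := by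
  obtain ⟨D₀, rfl⟩ := hD
  obtain ⟨c₀, rfl⟩ := h
  refine ⟨D₀ * ((m : k[X]) * c₀ + (X - C t) * derivative c₀), ?_⟩
  linear_combination (X - C t) ^ a * D₀ * kata_der t m c₀

theorem kata_comp (D v₀ β f : k[X]) (c : ℕ → k[X]) (n : ℕ) (hc : c (n + 1) = 0) :
    ∑ i ∈ Finset.range (n + 1 + 1), (v₀ * (D * derivative (c i)) - β * c i +
      v₀ * (if i = 0 then 0 else c (i - 1))) * (fun g => D * derivative g)^[i] f =
    v₀ * (D * derivative (∑ i ∈ Finset.range (n + 1), c i * (fun g => D * derivative g)^[i] f)) -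
      β * ∑ i ∈ Finset.range (n + 1), c i * (fun g => D * derivative g)^[i] f := by
  simp only [add_mul, Finset.sum_add_distrib]
  rw [Finset.sum_range_succ _ (n + 1), Finset.sum_range_succ' _ (n + 1), hc, derivative_sum,
    Finset.mul_sum, Finset.mul_sum, Finset.mul_sum, ← Finset.sum_sub_distrib]
  simp only [derivative_zero, mul_zero, sub_zero, zero_mul, add_zero, if_true, Nat.succ_ne_zero,
    if_false, Nat.add_sub_cancel, Function.iterate_succ_apply', ← Finset.sum_add_distrib]
  refine Finset.sum_congr rfl fun i _ => ?_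
  rw [derivative_mul]
  ring

/-- Induction on `n`. Let `c` work for the first `n` polynomials, let `v` be the value of the
operator at the last one and take `v₀`, `β` from `kat_log`. Compose the operator with
`u ↦ v₀ * (D * u') - β * u` on the left: the new coefficients are
`v₀ * (D * (c i)') - β * c i + v₀ * c (i - 1)` (the last term is absent for `i = 0`). -/
theorem kat_op (hD : (X - C t) ^ (a + 1) ∣ D) (n : ℕ) (u : Fin n → k[X]) : ∃ c : ℕ → k[X],
    (c n).eval t ≠ 0 ∧ (∀ i, n < i → c i = 0) ∧ (∀ i, (X - C t) ^ (a * (n - i)) ∣ c i) ∧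
      ∀ j, ∑ i ∈ Finset.range (n + 1), c i * (fun f => D * derivative f)^[i] (u j) = 0 := by
  induction n with
  | zero =>
    refine ⟨fun i => if i = 0 then 1 else 0, by simp, fun i hi => if_neg hi.ne', by simp,
      fun j => j.elim0⟩
  | succ n ih =>
    obtain ⟨c, h1, h2, h3, h4⟩ := ih fun j => u j.castSucc
    obtain ⟨v₀, β, g1, g2, g3⟩ := kat_log hD
      (∑ i ∈ Finset.range (n + 1), c i * (fun f => D * derivative f)^[i] (u (Fin.last n)))
    refine ⟨fun i => v₀ * (D * derivative (c i)) - β * c i +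
      v₀ * (if i = 0 then 0 else c (i - 1)), ?_, fun i hi => ?_, fun i => ?_, fun j => ?_⟩
    · simp [h2 (n + 1) n.lt_succ_self, g1, h1]
    · have hi0 : i ≠ 0 := by omega
      simp [h2 i (by omega), hi0, h2 (i - 1) (by omega)]
    · by_cases hi : n < i
      · rw [Nat.sub_eq_zero_of_le hi]
        simp
      have e1 : a * (n + 1 - i) = a * (n - i) + a := by
        rw [show n + 1 - i = n - i + 1 by omega, mul_add, mul_one]
      refine dvd_add (dvd_sub ?_ ?_) (Dvd.dvd.mul_left ?_ _)
      · rw [e1]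
        exact (kat_dvd hD (h3 i)).mul_left _
      · rw [e1, pow_add, mul_comm]
        exact mul_dvd_mul g2 (h3 i)
      · split_ifs with h0
        · exact dvd_zero _
        · rw [show n + 1 - i = n - (i - 1) by omega]
          exact h3 _
    · rw [kata_comp D v₀ β (u j) c n (h2 _ n.lt_succ_self)]
      induction j using Fin.lastCases with
      | last => rw [g3, sub_self]
      | cast j => rw [h4 j]; simp

/-- The matrix of the first iterates. -/
noncomputable def itM {R : Type} [CommRing R] (D : R[X]) (B : Matrix (Fin N) (Fin N) R[X])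
    (w : Fin N → R[X]) : Matrix (Fin N) (Fin N) R[X] := Matrix.of fun i => (th D B)^[i] w

variable {B : Matrix (Fin N) (Fin N) k[X]}

theorem kat_th {Φ : Matrix (Fin N) (Fin N) k[X]} (h : D • Φ.map derivative = B * Φ)
    (l : Fin N → k[X]) (i : ℕ) (j : Fin N) :
    ((th D B)^[i] l ᵥ* Φ) j = (fun f => D * derivative f)^[i] ((l ᵥ* Φ) j) := by
  induction i with
  | zero => rfl
  | succ i ih =>
    rw [Function.iterate_succ_apply', Function.iterate_succ_apply', ← ih, th, add_vecMul,
      vecMul_vecMul, ← h]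
    simp only [vecMul, dotProduct, Pi.add_apply, Pi.smul_apply, Matrix.smul_apply, map_apply,
      smul_eq_mul, derivative_sum, derivative_mul, Finset.mul_sum, ← Finset.sum_add_distrib]
    exact Finset.sum_congr rfl fun b _ => by ring

/-- Apply `kat_op` to the entries of `w ᵥ* Φ`: `∑ i, c i • (th D B)^[i] w` is killed by `Φ`, so it
is zero. Multiply by the adjugate: `c N * p i = -(c i * det)`, and `c N` is prime to `X - C t`. -/
theorem kat_div (hD : (X - C t) ^ (a + 1) ∣ D) (hF : HF D B) (w : Fin N → k[X]) {μ : ℕ}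
    (hμ : (X - C t) ^ μ ∣ (itM D B w).det) (i : Fin N) :
    (X - C t) ^ (μ + a * (N - i)) ∣ ((th D B)^[N] w ᵥ* (itM D B w).adjugate) i := by
  obtain ⟨Φ, hΦ, h⟩ := hF
  obtain ⟨c, h1, -, h3, h4⟩ := kat_op hD N (w ᵥ* Φ)
  have hz : ∑ m ∈ Finset.range (N + 1), c m • (th D B)^[m] w = 0 := by
    refine eq_zero_of_vecMul_eq_zero hΦ (funext fun j => ?_)
    rw [sum_vecMul, Finset.sum_apply, Pi.zero_apply, ← h4 j]
    exact Finset.sum_congr rfl fun m _ => by rw [smul_vecMul, Pi.smul_apply, kat_th h, smul_eq_mul]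
  have h5 : ∑ m ∈ Finset.range N, c m • (th D B)^[m] w = (fun m : Fin N => c m) ᵥ* itM D B w := by
    rw [Finset.sum_range, vecMul_eq_sum]
    rfl
  rw [Finset.sum_range_succ, h5] at hz
  have h6 := congrFun (congrArg (· ᵥ* (itM D B w).adjugate) hz) i
  simp only [add_vecMul, vecMul_vecMul, mul_adjugate, vecMul_smul, vecMul_one, smul_vecMul,
    zero_vecMul, Pi.add_apply, Pi.smul_apply, smul_eq_mul, Pi.zero_apply] at h6
  refine (prime_X_sub_C t).pow_dvd_of_dvd_mul_left _ (fun h => h1 (dvd_iff_isRoot.mp h)) ?_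
  rw [eq_neg_of_add_eq_zero_right h6, dvd_neg, pow_add]
  exact mul_dvd_mul hμ (h3 i)

end Pool.Agent.GR.CV
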