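import Pool.Agent.Lib.MP_aa40d3_nt.CV.GauL
import Pool.Agent.Lib.MP_aa40d3_nt.CV.KatA

/-! A frame at a regular singular point. -/

open Polynomial Matrix
open scoped Polynomial.Bivariate

namespace Pool.Agent.GR.CV

variable {N a μ : ℕ} {D D' D₀ h₀ : ℂ[X]} {B B' G Q : PM N} {x : LL} {U Cm : LM N} {t : ℂ}

theorem katb_id {K : Type} [Field K] {d d' s ξ : K}
    {g g₁ b b' V V₁ E : Matrix (Fin N) (Fin N) K} (hd : d' ≠ 0) (hg : g.det ≠ 0)
    (h1 : d' • (d • g₁ + g * b) = d • (b' * g))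
    (h2 : d' • (s • (ξ • g₁ * V + g * V₁) + g * V * E) = (s * ξ) • (b' * (g * V))) :
    d • (s • V₁ + V * E) = (s * ξ) • (b * V) := by
  refine ((isUnit_iff_isUnit_det g).2 hg.isUnit).mul_left_cancel ?_
  have e1 := congrArg (· * V) h1
  simp only [Matrix.smul_mul, Matrix.mul_smul, Matrix.add_mul, Matrix.mul_add,
    Matrix.mul_assoc] at e1 h2 ⊢
  linear_combination (norm := skip) (d * d'⁻¹) • h2 - (s * ξ * d'⁻¹) • e1
  match_scalars <;> field_simp <;> ring

theorem katb_det (x : LL) (G : PM N) : (G.map (ev x)).det = ev x G.det :=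
  ((ev x).map_det G).symm

/-- The converse of `Gau.msol`: expand the derivative of the product, use `h` at `x` and cancel
`ev x D'` and the matrix `G.map (ev x)`. -/
theorem Gau.msol_back (h : Gau D B D' B' 1 G) (hD : ev x D' ≠ 0) (hG : ev x G.det ≠ 0)
    (hU : MSol D' B' x (G.map (ev x) * U) Cm) : MSol D B x U Cm := by
  refine ⟨fun h0 => hU.1 (by rw [det_mul, h0, mul_zero]), ?_⟩
  have h1 := congrArg (fun M : PM N => M.map (ev x)) (gau_one.1 h)
  simp only [gaul_smul, Matrix.map_add _ (map_add (ev x)), Matrix.map_mul] at h1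
  have h2 := hU.2
  rw [map_dL_mul, map_dL_ev] at h2
  exact katb_id hD (by rwa [katb_det]) h1 h2

theorem katb_entry {K : Type} [Field K] {s d : K} (hs : s ≠ 0) (hd : d ≠ 0) (q c : K) (a : ℕ)
    (i l : ℤ) : (s ^ 1) ^ (a + 1) * d * (c * s ^ (a * i) + s ^ (a * i) *
      (d⁻¹ * (s ^ (a * l - a * (i + 1)) * q) - c)) = (1 : ℕ) * s ^ 1 * (q * s ^ (a * l)) := by
  rw [mul_add (a : ℤ), mul_one, zpow_sub₀ hs, zpow_add₀ hs, zpow_natCast, pow_one, pow_succ,
    Nat.cast_one]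
  have h1 := zpow_ne_zero (a * i) hs
  field_simp
  ring

/-- The frame is `diagonal fun i => sL ^ (a * i)`, and
`Cm i l = (ev _ D₀)⁻¹ * sL ^ (a * l - a * (i + 1)) * ev _ (Q i l) - if i = l then a * i else 0`. -/
theorem kat_diag (h1 : D₀.eval t ≠ 0)
    (hO : ∀ i l : Fin N, Ov (a * (i + 1) - a * l) (ev (xt t 1) (Q i l))) :
    ∃ U Cm : LM N, (∀ i j, Ov 0 (Cm i j)) ∧ MSol ((X - C t) ^ (a + 1) * D₀) Q (xt t 1) U Cm := by
  have hd : ev (xt t 1) D₀ ≠ 0 := ev_xt_ne le_rfl fun h => h1 (by rw [h, eval_zero])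
  refine ⟨diagonal fun i => sL ^ (a * i : ℤ), Matrix.of fun i l => (ev (xt t 1) D₀)⁻¹ *
    (sL ^ (a * l - a * (i + 1) : ℤ) * ev (xt t 1) (Q i l)) - if i = l then ((a * i : ℤ) : LL) else 0,
    fun i l => Ov.sub ((ov_ev_inv le_rfl h1).mul_left ?_) ?_, ?_, Matrix.ext fun i l => ?_⟩
  · have h2 := (ov_zpow_mul (a * l - a * (i + 1) : ℤ)).2 (hO i l)
    rwa [sub_add_sub_cancel, sub_self] at h2
  · split_ifs
    · rw [← map_intCast (algebraMap ℂ LL)]
      exact ov_alg _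
    · exact Ov.zero 0
  · rw [det_diagonal]
    exact Finset.prod_ne_zero_iff.2 fun i _ => zpow_ne_zero _ sL_ne
  · have h2 : sL * dL (diagonal (fun i : Fin N => sL ^ (a * i : ℤ)) i l) =
        (if i = l then ((a * i : ℤ) : LL) else 0) * sL ^ (a * i : ℤ) := by
      rw [diagonal_apply]
      split_ifs
      · exact sdL_zpow _
      · rw [dL_zero, mul_zero, zero_mul]
    simp only [Matrix.smul_apply, Matrix.add_apply, Matrix.map_apply, smul_eq_mul, diagonal_mul,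
      mul_diagonal, Matrix.of_apply]
    rw [h2, sdL_xt, map_mul, map_pow, ev_xt_X_sub]
    exact katb_entry sL_ne hd _ _ a i l

theorem katb_row {w : Fin N → ℂ[X]} (hh : (itM D B w).det = (X - C t) ^ μ * h₀)
    (hp : ∀ i : Fin N, (X - C t) ^ (μ + a * (N - i)) ∣ ((th D B)^[N] w ᵥ* (itM D B w).adjugate) i)
    (i : Fin N) : ∃ q : Fin N → ℂ[X], q ᵥ* itM D B w = h₀ • th D B (itM D B w i) ∧
      ∀ l : Fin N, Ov (a * (i + 1) - a * l) (ev (xt t 1) (q l)) := by
  have e : th D B (itM D B w i) = (th D B)^[i + 1] w := (Function.iterate_succ_apply' _ _ _).symm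
  rw [e]
  rcases (Nat.succ_le_of_lt i.2).lt_or_eq with hi | hi
  · refine ⟨Pi.single ⟨i + 1, hi⟩ h₀, single_vecMul _ _ _, fun l => ?_⟩
    by_cases hl : l = ⟨i + 1, hi⟩
    · rw [hl, Nat.cast_succ, sub_self]
      exact ov_ev t 1 _
    · rw [Pi.single_eq_of_ne hl, map_zero]
      exact Ov.zero _
  · choose r hr using hp
    have hN : (i : ℕ) + 1 = N := hi
    refine ⟨fun l => (X - C t) ^ (a * (N - l)) * r l, ?_, fun l => ?_⟩
    · have e1 : (X - C t) ^ μ • (fun l : Fin N => (X - C t) ^ (a * (N - l)) * r l) =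
          (th D B)^[N] w ᵥ* (itM D B w).adjugate := funext fun l => by
        rw [hr, Pi.smul_apply, smul_eq_mul, pow_add, mul_assoc]
      refine smul_right_injective _ (pow_ne_zero μ (X_sub_C_ne_zero t)) ?_
      simp only []
      rw [← smul_vecMul, e1, vecMul_vecMul, adjugate_mul, vecMul_smul, vecMul_one, hh, hN, mul_smul]
    · have e2 : (a * (i + 1) - a * l : ℤ) = (a * (N - l) : ℕ) := by
        rw [Nat.cast_mul, Nat.cast_sub l.2.le, mul_sub, ← Nat.cast_succ, hi]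
      rw [e2, map_mul, map_pow, ev_xt_X_sub, pow_one, ← zpow_natCast]
      exact (ov_zpow _).mul_right (ov_ev t 1 _)

/-- Let `H = itM D B w`. The row `i` of `Q` is `h₀ • Pi.single (i + 1) 1` if `i + 1 < N`, and for
`i + 1 = N` it is the row `p` of `hp` divided by `(X - C t) ^ μ`. Then
`h₀ • (D • H' + H * B) = Q * H` (for the last row multiply by `(X - C t) ^ μ` and use
`adjugate_mul`), that is `Gau D B (h₀ * D) Q 1 H` (`gau_one`). Use `kat_diag` for `h₀ * D₀` and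
`Gau.msol_back` for `U = (H.map (ev _))⁻¹ * U'`. -/
theorem kat_frame (hD : D = (X - C t) ^ (a + 1) * D₀) (h1 : D₀.eval t ≠ 0) {w : Fin N → ℂ[X]}
    (hh : (itM D B w).det = (X - C t) ^ μ * h₀) (h2 : h₀.eval t ≠ 0)
    (hp : ∀ i : Fin N, (X - C t) ^ (μ + a * (N - i)) ∣ ((th D B)^[N] w ᵥ* (itM D B w).adjugate) i) :
    ∃ U Cm : LM N, (∀ i j, Ov 0 (Cm i j)) ∧ MSol D B (xt t 1) U Cm := by
  choose q hq hO using katb_row hh hp
  have h3 : h₀ ≠ 0 := fun h => h2 (by rw [h, eval_zero])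
  have h4 : D₀ ≠ 0 := fun h => h1 (by rw [h, eval_zero])
  have h5 := X_sub_C_ne_zero t
  have h6 : ev (xt t 1) (itM D B w).det ≠ 0 :=
    ev_xt_ne le_rfl (hh ▸ mul_ne_zero (pow_ne_zero _ h5) h3)
  have hG : Gau D B (h₀ * D) (Matrix.of q) 1 (itM D B w) := by
    refine gau_one.2 (funext fun i => ?_)
    change (h₀ * D) • th D B (itM D B w i) = D • (q i ᵥ* itM D B w)
    rw [hq, mul_comm, mul_smul]
  obtain ⟨U, Cm, h7, h8⟩ := kat_diag (D₀ := h₀ * D₀) (Q := Matrix.of q)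
    (by rw [eval_mul]; exact mul_ne_zero h2 h1) hO
  refine ⟨((itM D B w).map (ev (xt t 1)))⁻¹ * U, Cm, h7, hG.msol_back
    (ev_xt_ne le_rfl (mul_ne_zero h3 (hD ▸ mul_ne_zero (pow_ne_zero _ h5) h4))) h6 ?_⟩
  rwa [mul_nonsing_inv_cancel_left _ _ (by rw [katb_det]; exact h6.isUnit), hD, mul_left_comm]

end Pool.Agent.GR.CV
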