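import Pool.Agent.Lib.MP_aa40d3_nt.CV.Defs

/-! The derivative of Laurent series. -/

open Polynomial Matrix
open scoped Polynomial.Bivariate

namespace Pool.Agent.GR.CV

variable {N : ℕ}

theorem alg_eq (c : ℂ) : algebraMap ℂ LL c = HahnSeries.single 0 c :=
  LaurentSeries.algebraMap_apply ℂ c

theorem sL_ne : sL ≠ 0 := by
  exact HahnSeries.single_ne_zero one_ne_zero

theorem sL_zpow (k : ℤ) : sL ^ k = HahnSeries.single k 1 := by
  cases k with
  | ofNat n =>
    rw [Int.ofNat_eq_natCast, zpow_natCast, sL, HahnSeries.single_pow]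
    simp
  | negSucc n =>
    rw [zpow_negSucc, sL, HahnSeries.single_pow, HahnSeries.inv_single, Int.negSucc_eq]
    simp

theorem coeff_alg_mul (c : ℂ) (f : LL) (k : ℤ) : (algebraMap ℂ LL c * f).coeff k = c * f.coeff k := by
  rw [alg_eq, HahnSeries.coeff_single_zero_mul]

theorem coeff_zpow_mul (m : ℤ) (f : LL) (k : ℤ) : (sL ^ m * f).coeff k = f.coeff (k - m) := by
  rw [sL_zpow, HahnSeries.coeff_single_mul, one_mul]

theorem dL_coeff (f : LL) (k : ℤ) : (dL f).coeff k = (k + 1) * f.coeff (k + 1) := by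
  rw [dL, LaurentSeries.derivative_apply, LaurentSeries.hasseDeriv_coeff]
  simp

theorem sdL_coeff (f : LL) (k : ℤ) : (sL * dL f).coeff k = k * f.coeff k := by
  rw [sL, HahnSeries.coeff_single_mul, one_mul, dL_coeff]
  simp

theorem dL_add (f g : LL) : dL (f + g) = dL f + dL g := map_add _ f g

theorem dL_zero : dL 0 = 0 := map_zero (LaurentSeries.derivative ℂ)

theorem dL_sub (f g : LL) : dL (f - g) = dL f - dL g := map_sub _ f g

theorem dL_neg (f : LL) : dL (-f) = -dL f := map_neg _ f

theorem dL_sum {ι : Type} (s : Finset ι) (f : ι → LL) : dL (∑ i ∈ s, f i) = ∑ i ∈ s, dL (f i) :=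
  map_sum (LaurentSeries.derivative ℂ) f s

/-- Multiply by `sL` and compare coefficients (`sdL_coeff`); `HahnSeries.coeff_mul_left'` and
`coeff_mul_right'` write the three products as sums over the same antidiagonal, because the support
of `sL * dL f` lies in the support of `f`. -/
theorem dL_mul (f g : LL) : dL (f * g) = dL f * g + f * dL g := by
  have hs : ∀ h : LL, (sL * dL h).support ⊆ h.support := fun h k hk h0 =>
    hk (by rw [sdL_coeff, h0, mul_zero])
  refine mul_left_cancel₀ sL_ne ?_
  rw [mul_add, ← mul_assoc, mul_left_comm sL f]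
  ext k
  rw [HahnSeries.coeff_add, sdL_coeff, HahnSeries.coeff_mul,
    HahnSeries.coeff_mul_left' f.isPWO_support (hs f),
    HahnSeries.coeff_mul_right' g.isPWO_support (hs g), ← Finset.sum_add_distrib, Finset.mul_sum]
  refine Finset.sum_congr rfl fun ij hij => ?_
  have e : ij.1 + ij.2 = k := (Finset.mem_antidiagonal.1 hij).2.2
  rw [sdL_coeff, sdL_coeff, ← e]
  push_cast
  ring

theorem dL_alg (c : ℂ) : dL (algebraMap ℂ LL c) = 0 := by
  ext k
  rw [dL_coeff, alg_eq, HahnSeries.coeff_single]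
  by_cases h : k + 1 = 0
  · have e : (k : ℂ) + 1 = 0 := by exact_mod_cast h
    rw [e, zero_mul, HahnSeries.coeff_zero]
  · rw [if_neg h, mul_zero, HahnSeries.coeff_zero]

theorem dL_one : dL 1 = 0 := by
  rw [← map_one (algebraMap ℂ LL), dL_alg]

theorem dL_sL : dL sL = 1 := by
  ext k
  rw [dL_coeff, sL, HahnSeries.coeff_single, HahnSeries.coeff_one]
  by_cases h : k = 0
  · simp [h]
  · rw [if_neg (by omega), if_neg h, mul_zero]

theorem dL_pow (f : LL) (k : ℕ) : dL (f ^ k) = k * f ^ (k - 1) * dL f := by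
  induction k with
  | zero => simp [dL_one]
  | succ n ih =>
    rw [pow_succ, dL_mul, ih, Nat.add_sub_cancel]
    cases n with
    | zero => simp
    | succ m =>
      rw [Nat.add_sub_cancel]
      push_cast
      ring

theorem dL_inv (f : LL) : dL f⁻¹ = -(f⁻¹ ^ 2 * dL f) := by
  by_cases hf : f = 0
  · rw [hf, _root_.inv_zero, dL_zero, mul_zero, neg_zero]
  · have h1 : f * f⁻¹ = 1 := mul_inv_cancel₀ hf
    have h := dL_mul f f⁻¹
    rw [h1, dL_one] at h
    linear_combination (-f⁻¹) * h - dL f⁻¹ * h1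

theorem sdL_zpow (k : ℤ) : sL * dL (sL ^ k) = k * sL ^ k := by
  ext m
  rw [sdL_coeff, ← map_intCast (algebraMap ℂ LL) k, coeff_alg_mul, sL_zpow, HahnSeries.coeff_single]
  by_cases h : m = k
  · rw [h]
  · rw [if_neg h, mul_zero, mul_zero]

theorem sdL_xt (t : ℂ) (e : ℕ) : sL * dL (xt t e) = e * sL ^ e := by
  have h := sdL_zpow (e : ℤ)
  rw [zpow_natCast, Int.cast_natCast] at h
  rw [xt, dL_add, dL_alg, zero_add, h]

theorem sdL_inv : sL * dL sL⁻¹ = -sL⁻¹ := by
  have h := sdL_zpow (-1)
  rw [_root_.zpow_neg_one] at h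
  rw [h, Int.cast_neg, Int.cast_one]
  ring

theorem dL_ev (x : LL) (p : ℂ[X]) : dL (ev x p) = ev x (derivative p) * dL x := by
  induction p using Polynomial.induction_on' with
  | add p q hp hq => rw [map_add, dL_add, hp, hq, derivative_add, map_add, add_mul]
  | monomial n c =>
    rw [derivative_monomial, ev_apply, ev_apply, aeval_monomial, aeval_monomial, dL_mul, dL_alg,
      dL_pow, map_mul, map_natCast]
    ring

theorem map_dL_mul {α β γ : Type} [Fintype β] (U : Matrix α β LL) (V : Matrix β γ LL) :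
    (U * V).map dL = U.map dL * V + U * V.map dL := by
  refine Matrix.ext fun i j => ?_
  simp only [Matrix.map_apply, Matrix.mul_apply, Matrix.add_apply, dL_sum, dL_mul,
    Finset.sum_add_distrib]

theorem map_dL_smul {α β : Type} (f : LL) (U : Matrix α β LL) :
    (f • U).map dL = dL f • U + f • U.map dL := by
  refine Matrix.ext fun i j => ?_
  simp only [Matrix.map_apply, Matrix.smul_apply, Matrix.add_apply, smul_eq_mul, dL_mul]

theorem map_dL_ev {α β : Type} (x : LL) (G : Matrix α β ℂ[X]) :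
    (G.map (ev x)).map dL = dL x • (G.map derivative).map (ev x) := by
  refine Matrix.ext fun i j => ?_
  simp only [Matrix.map_apply, Matrix.smul_apply, smul_eq_mul, dL_ev, mul_comm]

end Pool.Agent.GR.CV
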