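import Pool.Agent.Lib.MP_aa40d3_nt.CV.SigP
import Pool.Agent.Lib.MP_aa40d3_nt.CV.Exp
import Pool.Agent.Lib.MP_aa40d3_nt.CV.ExtI

/-! Ramification at a branch point. -/

open Polynomial Matrix
open scoped Polynomial.Bivariate

namespace Pool.Agent.GR.CV

variable {N n : ℕ}

/-- If `sg τ ≠ τ`, the odd part `τ - sg τ` has an odd order `m` (`exists_lead`), and the odd part of
`τ'` has order `m - 2`, because `u` is even with nonzero constant coefficient. Induction: for every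
natural number `k` all `τ ∈ T` have `Ov k (τ - sg τ)`. -/
theorem even_of_stable {T : Set LL} {u : LL} (hu : Ov 0 u) (hu0 : u.coeff 0 ≠ 0) (hu' : sg u = u)
    (h0 : ∀ τ ∈ T, Ov 0 τ) (h : ∀ τ ∈ T, ∃ τ' ∈ T, 2 * sL ^ 2 * τ' = u * (sL * dL τ)) :
    ∀ τ ∈ T, sg τ = τ := by
  have key : ∀ k : ℕ, ∀ τ ∈ T, Ov k (τ - sg τ) := by
    intro k
    induction k with
    | zero =>
      intro τ hτ
      refine (h0 τ hτ).sub fun m hm => ?_
      rw [sg_coeff, h0 τ hτ m hm, mul_zero]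
    | succ k ih =>
      intro τ hτ
      obtain ⟨τ', hτ', e⟩ := h τ hτ
      have e' : 2 * sL ^ 2 * sg τ' = u * (sL * dL (sg τ)) := by
        have h1 := congrArg sgH e
        rw [map_mul, map_mul, map_pow, map_ofNat, map_mul sgH u, sgH_apply, sgH_apply, sgH_apply,
          sgH_apply, sg_sL, hu', sg_sdL] at h1
        linear_combination h1
      have e2 : sL ^ (2 : ℤ) * ((τ' - sg τ') + (τ' - sg τ')) = u * (sL * dL (τ - sg τ)) := by
        rw [dL_sub, zpow_ofNat]
        linear_combination e - e'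
      have h2 : Ov (2 + k) (u * (sL * dL (τ - sg τ))) := by
        rw [← e2]
        exact (ov_zpow_mul 2).2 ((ih τ' hτ').add (ih τ' hτ'))
      have h3 := hu.coeff_mul (ih τ hτ).sder
      rw [h2 _ (by omega), sdL_coeff] at h3
      push_cast
      refine (ih τ hτ).succ ?_
      rcases Nat.eq_zero_or_pos k with rfl | hk
      · simp [sg_coeff]
      · have h4 : ((k : ℤ) : ℂ) ≠ 0 := by exact_mod_cast hk.ne'
        exact (mul_eq_zero.1 ((mul_eq_zero.1 h3.symm).resolve_left hu0)).resolve_left h4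
  intro τ hτ
  have h5 : τ - sg τ = 0 := by
    ext k
    exact key (k.toNat + 1) τ hτ k (by omega)
  exact (sub_eq_zero.1 h5).symm

/-- Differentiate `Φ(x) *ᵥ c = τ • c`. -/
theorem eigen_der {D : ℂ[X]} {B Φ : PM N} {x τ : LL} {c : Fin N → LL}
    (hc : (ev x D • fun a => sL * dL (c a)) = (sL * dL x) • B.map (ev x) *ᵥ c)
    (h : Φ.map (ev x) *ᵥ c = τ • c) :
    (sL * dL x) • (D • Φ.map derivative - (B * Φ - Φ * B)).map (ev x) *ᵥ c =
      (ev x D * (sL * dL τ)) • c := by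
  have h1 : (sL * dL x) • (Φ.map derivative).map (ev x) *ᵥ c +
      Φ.map (ev x) *ᵥ (fun a => sL * dL (c a)) =
        (sL * dL τ) • c + τ • fun a => sL * dL (c a) := by
    funext i
    have h2 := congrArg dL (congrFun h i)
    simp only [mulVec, dotProduct, map_apply, Pi.smul_apply, smul_eq_mul, dL_sum, dL_mul,
      dL_ev] at h2
    simp only [mulVec, dotProduct, map_apply, Pi.smul_apply, Pi.add_apply, smul_eq_mul,
      Finset.mul_sum, ← Finset.sum_add_distrib]
    calc _ = sL * ∑ j, (ev x (derivative (Φ i j)) * dL x * c j + ev x (Φ i j) * dL (c j)) := by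
          rw [Finset.mul_sum]
          exact Finset.sum_congr rfl fun j _ => by ring
      _ = _ := by rw [h2]; ring
  have h3 : (D • Φ.map derivative - (B * Φ - Φ * B)).map (ev x) =
      ev x D • (Φ.map derivative).map (ev x) -
        (B.map (ev x) * Φ.map (ev x) - Φ.map (ev x) * B.map (ev x)) := by
    rw [← Matrix.map_mul, ← Matrix.map_mul]
    refine Matrix.ext fun i j => ?_
    simp only [map_apply, Matrix.sub_apply, Matrix.smul_apply, smul_eq_mul, map_sub, map_mul]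
  have h4 := congrArg (fun v => ev x D • v) h1
  have h5 := congrArg (fun v => Φ.map (ev x) *ᵥ v) hc
  have h6 := congrArg (fun v => τ • v) hc
  simp only [mulVec_smul] at h4 h5 h6
  rw [h3, sub_mulVec, sub_mulVec, smul_mulVec, ← mulVec_mulVec, ← mulVec_mulVec, h, mulVec_smul]
  funext i
  have h7 := congrFun h4 i
  have h8 := congrFun h5 i
  have h9 := congrFun h6 i
  simp only [Pi.smul_apply, Pi.add_apply, Pi.sub_apply, smul_eq_mul] at h7 h8 h9 ⊢
  linear_combination h7 - h8 + h9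

/-- Otherwise all values at `t i` commute with `A i` (`exp_half`), so `Δ Φ' - [pm, Φ]` vanishes at
`t i` (`pm_eval`) and is `(X - C (t i)) • Ψ` with `Ψ ∈ W`. Apply `even_of_stable` to the set of the
eigenvalues (`ov_of_eigen`, `ov_ev`, `eigen_der`), with `u = ev _ u₀`, `dl t = (X - C (t i)) * u₀`. -/
theorem ramAt {t : Fin n → ℂ} (ht : Function.Injective t) {A : Fin n → Matrix (Fin N) (Fin N) ℂ}
    {W : Subalgebra ℂ[X] (PM N)} {i : Fin n} (hA : A i * A i = (1 / 2 : ℂ) • A i)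
    (hW : ∀ Φ ∈ W, dl t • Φ.map derivative - (pm t A * Φ - Φ * pm t A) ∈ W)
    (hs : ∀ Φ, (X - C (t i) : ℂ[X]) • Φ ∈ W → Φ ∈ W) {c : Fin N → LL} (hc0 : c ≠ 0)
    (hc : (ev (xt (t i) 2) (dl t) • fun a => sL * dL (c a)) =
      (sL * dL (xt (t i) 2)) • (pm t A).map (ev (xt (t i) 2)) *ᵥ c)
    (he : ∀ Φ ∈ W, ∃ τ : LL, Φ.map (ev (xt (t i) 2)) *ᵥ c = τ • c)
    (ho : ∃ Φ ∈ W, ∃ τ : LL, Φ.map (ev (xt (t i) 2)) *ᵥ c = τ • c ∧ sg τ ≠ τ) : RamAt t A W i := by
  by_contra hr
  have hcomm : ∀ Φ ∈ W, A i * Φ.map (eval (t i)) = Φ.map (eval (t i)) * A i := by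
    intro Φ hΦ
    have h1 : Commute (NormedSpace.exp ((2 * Real.pi * Complex.I : ℂ) • A i))
        (Φ.map (eval (t i))) := by
      by_contra h
      exact hr ⟨Φ, hΦ, h⟩
    rw [exp_half hA] at h1
    have h2 := h1.eq
    rw [sub_mul, mul_sub, one_mul, mul_one, sub_right_inj, Matrix.smul_mul, Matrix.mul_smul] at h2
    exact smul_right_injective _ (by norm_num : (4 : ℂ) ≠ 0) h2
  obtain ⟨u₀, hu₀⟩ : X - C (t i) ∣ dl t := dvd_iff_isRoot.2 (dl_eval t i)
  have hu1 : u₀.eval (t i) ≠ 0 := by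
    have h3 := dl_deriv_ne ht i
    rw [hu₀] at h3
    simpa using h3
  obtain ⟨Φ₀, hΦ₀, τ₀, h4, h5⟩ := ho
  refine h5 (even_of_stable (T := {τ | ∃ Φ ∈ W, Φ.map (ev (xt (t i) 2)) *ᵥ c = τ • c})
    (u := ev (xt (t i) 2) u₀) (ov_ev _ _ _) ?_ ?_ ?_ ?_ τ₀ ⟨Φ₀, hΦ₀, h4⟩)
  · rwa [ev_coeff_zero one_le_two]
  · rw [sg_ev, sg_xt]
  · rintro τ ⟨Φ, -, h⟩
    exact ov_of_eigen (fun a b => ov_ev _ _ _) hc0 h
  · rintro τ ⟨Φ, hΦ, h⟩
    have h6 : (dl t • Φ.map derivative - (pm t A * Φ - Φ * pm t A)).map (evalRingHom (t i)) = 0 := by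
      have h7 : (dl t • Φ.map derivative - (pm t A * Φ - Φ * pm t A)).map (evalRingHom (t i)) =
          -((pm t A).map (evalRingHom (t i)) * Φ.map (evalRingHom (t i)) -
            Φ.map (evalRingHom (t i)) * (pm t A).map (evalRingHom (t i))) := by
        rw [← Matrix.map_mul, ← Matrix.map_mul]
        ext a b
        simp [dl_eval]
      rw [h7, coe_evalRingHom, pm_eval, Matrix.smul_mul, Matrix.mul_smul, hcomm Φ hΦ, sub_self,
        neg_zero]
    choose Ψ hΨ using fun a b => (dvd_iff_isRoot.2 (congrFun (congrFun h6 a) b) :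
      X - C (t i) ∣ (dl t • Φ.map derivative - (pm t A * Φ - Φ * pm t A)) a b)
    have h8 : dl t • Φ.map derivative - (pm t A * Φ - Φ * pm t A) =
        (X - C (t i) : ℂ[X]) • Matrix.of Ψ := by
      refine Matrix.ext fun a b => ?_
      exact hΨ a b
    have h9 : Matrix.of Ψ ∈ W := hs _ (h8 ▸ hW Φ hΦ)
    obtain ⟨τ', h10⟩ := he _ h9
    refine ⟨τ', ⟨_, h9, h10⟩, ?_⟩
    have h11 := eigen_der hc h
    have h12 : ((X - C (t i) : ℂ[X]) • Matrix.of Ψ).map (ev (xt (t i) 2)) =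
        sL ^ 2 • (Matrix.of Ψ).map (ev (xt (t i) 2)) := by
      rw [← ev_xt_X_sub (t i) 2]
      refine Matrix.ext fun a b => ?_
      exact map_mul (ev (xt (t i) 2)) _ _
    rw [h8, h12, smul_mulVec, h10, smul_smul, smul_smul, sdL_xt, hu₀, map_mul, ev_xt_X_sub] at h11
    have h13 := smul_left_injective LL hc0 h11
    refine mul_left_cancel₀ (pow_ne_zero 2 sL_ne) ?_
    push_cast at h13
    linear_combination h13

/-- A column of a frame. -/
theorem MSol.col {D : ℂ[X]} {B : PM N} {x : LL} {U : LM N} (h : MSol D B x U 0) (j : Fin N) :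
    (fun i => U i j) ≠ 0 ∧ (ev x D • fun a => sL * dL (U a j)) =
      (sL * dL x) • B.map (ev x) *ᵥ fun i => U i j := by
  refine ⟨fun h0 => h.1 (Matrix.det_eq_zero_of_column_eq_zero j fun i => congrFun h0 i), ?_⟩
  funext a
  have h1 := congrFun (congrFun h.2 a) j
  rw [Matrix.mul_zero, add_zero] at h1
  exact h1

end Pool.Agent.GR.CV
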