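import Pool.Agent.Lib.MP_aa40d3_nt.CV.SprA
import Pool.Agent.Lib.MP_aa40d3_nt.CV.PushP
import Pool.Agent.Lib.MP_aa40d3_nt.CV.GauT
import Pool.Agent.Lib.MP_aa40d3_nt.GR.PcMax

/-! Spreading out. -/

open Polynomial Matrix
open scoped Polynomial.Bivariate

namespace Pool.Agent.GR.CV

/-- Take `R'` from `exists_ring` with `F` containing the `t i`, the entries of the `A i`, and `need`
of `δ.map ι`, `S.D.map ι`, `ρ`, `G.det` and of the entries of `G`. Lift `t`, `A`, `ρ`, `G`; the gauge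
identity holds over `R'` (`Gau.of_map`, `pB_map`, `dl_map`, `pm_map`, `Sys.map_map`). For a maximal
ideal `m` of `R'` use `Sys.Fund.map` for `Ideal.quotientMap`, then `push_fund`, `Gau.map`, `Gau.hf`;
finally `pc_of_max`. -/
theorem pc_curve {R : Type} [CommRing R] [Algebra.FiniteType ℤ R] (ι : R →+* ℂ) {r d n : ℕ}
    {S : Sys R r} {q : R[X][Y]} {δ : R[X]} (h : Prep S d q δ) (hδ : δ.map ι ≠ 0)
    (hD : S.D.map ι ≠ 0) {t : Fin n → ℂ} {A : Fin n → Matrix (Fin (r * d)) (Fin (r * d)) ℂ}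
    {ρ : ℂ[X]} {G : PM (r * d)} (hρ : ρ ≠ 0) (hG : G.det ≠ 0)
    (hg : Gau (δ.map ι * (S.map ι).D) (pB (S.map ι) d (q.map (mapRingHom ι)) (δ.map ι)) (dl t)
      (pm t A) ρ G)
    (hm : ∀ m : Ideal R, m.IsMaximal → (S.map (Ideal.Quotient.mk m)).Fund) : PC t A := by
  classical
  let F : Finset ℂ := Finset.univ.image t ∪
    (Finset.univ.image fun x : Fin n × Fin (r * d) × Fin (r * d) => A x.1 x.2.1 x.2.2) ∪
    (Finset.univ.biUnion fun x : Fin (r * d) × Fin (r * d) => need (G x.1 x.2)) ∪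
    ({δ.map ι, S.D.map ι, ρ, G.det} : Finset ℂ[X]).biUnion need
  obtain ⟨R', j, hft, hj, hF⟩ := exists_ring ι F
  have hN : ∀ f ∈ ({δ.map ι, S.D.map ι, ρ, G.det} : Finset ℂ[X]), ∀ c ∈ need f, c ∈ R' :=
    fun f hf c hc => hF c (Finset.mem_union_right _ (Finset.mem_biUnion.2 ⟨f, hf, hc⟩))
  let t' : Fin n → R' := fun i => ⟨t i, hF _ (Finset.mem_union_left _ (Finset.mem_union_left _
    (Finset.mem_union_left _ (Finset.mem_image_of_mem _ (Finset.mem_univ i)))))⟩
  let A' : Fin n → Matrix (Fin (r * d)) (Fin (r * d)) R' := fun i => Matrix.of fun a b =>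
    ⟨A i a b, hF _ (Finset.mem_union_left _ (Finset.mem_union_left _ (Finset.mem_union_right _
      (Finset.mem_image.2 ⟨(i, a, b), Finset.mem_univ _, rfl⟩))))⟩
  obtain ⟨ρ', hρ'⟩ := exists_lift (hN ρ (by simp))
  choose G₀ hG₀ using fun a b => exists_lift (R' := R') (f := G a b) fun c hc =>
    hF c (Finset.mem_union_left _ (Finset.mem_union_right _
      (Finset.mem_biUnion.2 ⟨(a, b), Finset.mem_univ _, hc⟩)))
  let G' : Matrix (Fin (r * d)) (Fin (r * d)) R'[X] := Matrix.of G₀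
  have eG : G'.map (Polynomial.map R'.subtype) = G := Matrix.ext fun a b => hG₀ a b
  have eGd : G'.det.map R'.subtype = G.det := by
    rw [← eG]
    exact RingHom.map_det (mapRingHom R'.subtype) G'
  have em : ∀ f : R[X], (f.map j).map R'.subtype = f.map ι := fun f => by
    rw [Polynomial.map_map, hj]
  have g' : Gau ((δ * S.D).map j) ((pB S d q δ).map (Polynomial.map j)) (dl t') (pm t' A') ρ' G' := by
    refine Gau.of_map R'.subtype_injective ?_
    have e1 : ((pB S d q δ).map (Polynomial.map j)).map (Polynomial.map R'.subtype) =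
        (pB S d q δ).map (Polynomial.map ι) := Matrix.ext fun a b => em _
    rw [em, e1, Polynomial.map_mul, pB_map h.1, dl_map, pm_map, hρ', eG]
    exact hg
  refine pc_of_max (t0 := t') (A0 := A') R'.subtype R'.subtype_injective fun m hm' => ?_
  let φ := Ideal.Quotient.mk m
  let _ := Ideal.Quotient.field m
  obtain ⟨p, hp, hc⟩ := exists_char m
  have : Fact p.Prime := ⟨hp⟩
  have h1 := (hm _ (comap_max j m)).map
    (Ideal.quotientMap_injective (I := m) (f := j))
  rw [Sys.map_map, Ideal.quotientMap_comp_mk] at h1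
  have ne : ∀ f : R'[X], f.map R'.subtype ≠ 0 →
      f.map R'.subtype ∈ ({δ.map ι, S.D.map ι, ρ, G.det} : Finset ℂ[X]) → f.map φ ≠ 0 :=
    fun f h0 hf => map_ne_of_need h0 (hN _ hf) φ
  have hδ' : δ.map (φ.comp j) ≠ 0 := by
    rw [← Polynomial.map_map]
    exact ne _ (by rwa [em]) (by simp [em])
  have hD' : S.D.map (φ.comp j) ≠ 0 := by
    rw [← Polynomial.map_map]
    exact ne _ (by rwa [em]) (by simp [em])
  have h2 := push_fund (h.map (φ.comp j)) hδ' p h1
  have h3 := g'.map φ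
  have e2 : ((pB S d q δ).map (Polynomial.map j)).map (Polynomial.map φ) =
      (pB S d q δ).map (Polynomial.map (φ.comp j)) :=
    Matrix.ext fun a b => Polynomial.map_map _ _ _
  rw [Polynomial.map_map, e2, Polynomial.map_mul, pB_map h.1, dl_map, pm_map] at h3
  refine h3.hf hp.pos (CharP.cast_eq_zero _ p) (mul_ne_zero hδ' hD')
    (ne _ (by rwa [hρ']) (by simp [hρ'])) ?_ h2
  have e3 : (G'.map (Polynomial.map φ)).det = G'.det.map φ :=
    (RingHom.map_det (mapRingHom φ) G').symm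
  rw [e3]
  exact ne _ (by rwa [eGd]) (by simp [eGd])

end Pool.Agent.GR.CV
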