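import Pool.Agent.Lib.MP_aa40d3_nt.CV.Wd

/-! The rank of the algebra. -/

open Polynomial Matrix
open scoped Polynomial.Bivariate

namespace Pool.Agent.GR.CV

variable {N d : ℕ} {x : LL} {V : LM N} {sh : Fin N → Fin d} {ρ : ℂ[X]} {G Mu Φ : PM N}
  {y : Fin d → LL} {e : Fin d → Fin N} {o : Fin N}

section
variable {R K : Type} [CommRing R] [Field K] {φ : R →+* K} {V : Matrix (Fin N) (Fin N) K}
  {G Mu Φ : Matrix (Fin N) (Fin N) R} {y : Fin d → K}

theorem wdr_pow {M : Matrix (Fin N) (Fin N) K} (hM : M * V = V * diagonal fun j => y (sh j))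
    (k : ℕ) : M ^ k * V = V * diagonal fun j => y (sh j) ^ k := by
  induction k with
  | zero => simp
  | succ k ih =>
    rw [pow_succ, Matrix.mul_assoc, hM, ← Matrix.mul_assoc, ih, Matrix.mul_assoc,
      diagonal_mul_diagonal]
    simp only [pow_succ]

theorem wdr_map_pow (φ : R →+* K) (Mu : Matrix (Fin N) (Fin N) R) (k : ℕ) :
    (Mu ^ k).map φ = Mu.map φ ^ k :=
  map_pow φ.mapMatrix Mu k

theorem wdr_map_smul (φ : R →+* K) (c : R) (A : Matrix (Fin N) (Fin N) R) :
    (c • A).map φ = φ c • A.map φ := by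
  ext i j
  simp

theorem wdr_map_sum (φ : R →+* K) (p : Fin d → R) (Mu : Matrix (Fin N) (Fin N) R) :
    (∑ k : Fin d, p k • Mu ^ (k : ℕ)).map φ = ∑ k : Fin d, φ (p k) • Mu.map φ ^ (k : ℕ) := by
  have h := map_sum φ.mapMatrix (fun k : Fin d => p k • Mu ^ (k : ℕ)) Finset.univ
  simp only [RingHom.mapMatrix_apply] at h
  rw [h]
  exact Finset.sum_congr rfl fun k _ => by rw [wdr_map_smul, wdr_map_pow]

theorem wdr_adj (φ : R →+* K) (G : Matrix (Fin N) (Fin N) R) :
    G.adjugate.map φ * G.map φ = φ G.det • (1 : Matrix (Fin N) (Fin N) K) := by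
  rw [← Matrix.map_mul, adjugate_mul, wdr_map_smul, Matrix.map_one _ (map_zero _) (map_one _)]

theorem wdr_vand (hy : Function.Injective y) (f : Fin d → K) :
    ∃ c : Fin d → K, ∀ j, ∑ k : Fin d, c k * y j ^ (k : ℕ) = f j := by
  have hd : (vandermonde y).det ≠ 0 := det_vandermonde_ne_zero_iff.mpr hy
  refine ⟨(vandermonde y)⁻¹ *ᵥ f, fun j => ?_⟩
  have h : vandermonde y *ᵥ ((vandermonde y)⁻¹ *ᵥ f) = f := by
    rw [mulVec_mulVec, mul_nonsing_inv _ (Ne.isUnit hd), one_mulVec]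
  rw [← congrFun h j]
  simp only [mulVec, dotProduct, vandermonde_apply]
  exact Finset.sum_congr rfl fun k _ => mul_comm _ _

theorem wdr_entry {M : Matrix (Fin N) (Fin N) R}
    (hp : ∀ k j : Fin d, (M ^ (k : ℕ)) (e j) o = if j = k then 1 else 0) (c : Fin d → R)
    (j : Fin d) : (∑ k : Fin d, c k • M ^ (k : ℕ)) (e j) o = c j := by
  rw [Matrix.sum_apply]
  simp [hp]

theorem wdr_rep (hx : Function.Injective φ) {u : K} (hu : u ≠ 0) (hV : V.det ≠ 0)
    (hM : Mu.map φ * V = V * diagonal fun j => y (sh j)) (hy : Function.Injective y)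
    (hp : ∀ k j : Fin d, (Mu ^ (k : ℕ)) (e j) o = if j = k then 1 else 0) {f : Fin d → K}
    (hf : Φ.map φ * (u • (G.map φ * V)) = (u • (G.map φ * V)) * diagonal fun j => f (sh j)) :
    G.det • (Φ * G) = G * ∑ k : Fin d, (G.adjugate * Φ * G) (e k) o • Mu ^ (k : ℕ) := by
  obtain ⟨c, hc⟩ := wdr_vand hy f
  have h1 : (∑ k : Fin d, c k • Mu.map φ ^ (k : ℕ)) * V = V * diagonal fun j => f (sh j) := by
    rw [Finset.sum_mul]
    simp only [Matrix.smul_mul, wdr_pow hM]
    ext a b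
    simp only [Matrix.sum_apply, Matrix.smul_apply, mul_diagonal, smul_eq_mul, ← hc, Finset.mul_sum]
    exact Finset.sum_congr rfl fun k _ => by ring
  have h2 : Φ.map φ * G.map φ = G.map φ * ∑ k : Fin d, c k • Mu.map φ ^ (k : ℕ) := by
    rw [Matrix.mul_smul, Matrix.smul_mul] at hf
    have h3 := smul_right_injective (Matrix (Fin N) (Fin N) K) hu hf
    rw [Matrix.mul_assoc, ← h1, ← Matrix.mul_assoc, ← Matrix.mul_assoc] at h3
    have h4 := congrArg (· * V⁻¹) h3
    simpa only [Matrix.mul_assoc, mul_nonsing_inv _ (Ne.isUnit hV), Matrix.mul_one] using h4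
  have hp' : ∀ k j : Fin d, (Mu.map φ ^ (k : ℕ)) (e j) o = if j = k then 1 else 0 := by
    intro k j
    rw [← wdr_map_pow, map_apply, hp]
    split_ifs <;> simp
  have h5 : ∀ k, φ ((G.adjugate * Φ * G) (e k) o) = φ G.det * c k := by
    intro k
    have h6 : (G.adjugate * Φ * G).map φ = φ G.det • ∑ k : Fin d, c k • Mu.map φ ^ (k : ℕ) := by
      rw [Matrix.map_mul, Matrix.map_mul, Matrix.mul_assoc, h2, ← Matrix.mul_assoc, wdr_adj,
        Matrix.smul_mul, Matrix.one_mul]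
    have h7 := congrFun (congrFun h6 (e k)) o
    rwa [map_apply, Matrix.smul_apply, wdr_entry hp', smul_eq_mul] at h7
  apply Matrix.map_injective hx
  simp only
  rw [wdr_map_smul, Matrix.map_mul, Matrix.map_mul, wdr_map_sum, h2, ← Matrix.mul_smul,
    Finset.smul_sum]
  simp only [h5, smul_smul]

theorem wdr_eigen {τ : K} (hG : φ G.det ≠ 0) {p : Fin d → R}
    (h : G.det • (Φ * G) = G * ∑ k : Fin d, p k • Mu ^ (k : ℕ)) {c : Fin N → K}
    (hc : Mu.map φ *ᵥ c = τ • c) (a : K) : ∃ τ' : K,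
      Φ.map φ *ᵥ (a • G.map φ *ᵥ c) = τ' • (a • G.map φ *ᵥ c) := by
  have h1 : ∀ k : ℕ, Mu.map φ ^ k *ᵥ c = τ ^ k • c := by
    intro k
    induction k with
    | zero => simp
    | succ k ih => rw [pow_succ, ← mulVec_mulVec, hc, mulVec_smul, ih, smul_smul, pow_succ']
  have h2 := congrArg (fun A : Matrix (Fin N) (Fin N) R => A.map φ *ᵥ c) h
  simp only [wdr_map_smul, Matrix.map_mul, wdr_map_sum, smul_mulVec, ← mulVec_mulVec, sum_mulVec,
    h1, smul_smul, ← Finset.sum_smul, mulVec_smul] at h2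
  refine ⟨(φ G.det)⁻¹ * ∑ k : Fin d, φ (p k) * τ ^ (k : ℕ), ?_⟩
  rw [mulVec_smul, smul_comm _ a, mul_smul, ← h2, smul_smul (φ G.det)⁻¹, inv_mul_cancel₀ hG,
    one_smul]

theorem wdr_eigen_Mu {τ : K} {c : Fin N → K} (hc : Mu.map φ *ᵥ c = τ • c) (a : K) :
    (G * Mu * G.adjugate).map φ *ᵥ (a • G.map φ *ᵥ c) = (φ G.det * τ) • (a • G.map φ *ᵥ c) := by
  rw [Matrix.map_mul, Matrix.map_mul, mulVec_smul, mulVec_mulVec, Matrix.mul_assoc, wdr_adj,
    Matrix.mul_smul, Matrix.mul_one, smul_mulVec, ← mulVec_mulVec, hc, mulVec_smul, smul_smul,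
    smul_smul, smul_smul]
  congr 1
  ring

end

/-- Solve `∑ k, c k * y j ^ k = f j` (Vandermonde or Lagrange). Then
`Φ(x) * G(x) = G(x) * ∑ k, c k • Mu(x) ^ k` (cancel `V`); multiply by the adjugate of `G` and read
the entry `(e k, o)`. -/
theorem WW_rep (hx : Function.Injective (ev x)) (hρ : ρ ≠ 0) (hV : V.det ≠ 0)
    (hM : Mu.map (ev x) * V = V * diagonal fun j => y (sh j)) (hy : Function.Injective y)
    (hp : ∀ k j : Fin d, (Mu ^ (k : ℕ)) (e j) o = if j = k then 1 else 0)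
    (h : Φ ∈ WW x (ga ρ G x V) sh) :
    G.det • (Φ * G) = G * ∑ k : Fin d, (G.adjugate * Φ * G) (e k) o • Mu ^ (k : ℕ) := by
  obtain ⟨f, hf⟩ := h
  have hρ' : ev x ρ ≠ 0 := fun h0 => hρ (hx (by rw [h0, map_zero]))
  exact wdr_rep (K := LL) hx (inv_ne_zero hρ') hV hM hy hp hf

/-- The linear map `Φ ↦ fun k => (G.adjugate * Φ * G) (e k) o` is injective on `WW` (`WW_rep`) and
sends `G * Mu ^ k * G.adjugate` to `G.det ^ 2 • Pi.single k 1`. -/
theorem WW_rank (hx : Function.Injective (ev x)) (hρ : ρ ≠ 0) (hV : V.det ≠ 0) (hG : G.det ≠ 0)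
    (hM : Mu.map (ev x) * V = V * diagonal fun j => y (sh j)) (hy : Function.Injective y)
    (hp : ∀ k j : Fin d, (Mu ^ (k : ℕ)) (e j) o = if j = k then 1 else 0) :
    Module.finrank ℂ[X] (WW x (ga ρ G x V) sh) = d := by
  let T : WW x (ga ρ G x V) sh →ₗ[ℂ[X]] (Fin d → ℂ[X]) :=
    { toFun := fun Φ k => (G.adjugate * Φ.1 * G) (e k) o
      map_add' := fun Φ Ψ => by
        funext k
        simp [Matrix.mul_add, Matrix.add_mul]
      map_smul' := fun c Φ => by
        funext k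
        simp }
  have hT : Function.Injective T := by
    rw [injective_iff_map_eq_zero]
    intro Φ h0
    have h1 := WW_rep hx hρ hV hM hy hp Φ.2
    have h2 : ∀ k, (G.adjugate * Φ.1 * G) (e k) o = 0 := fun k => congrFun h0 k
    simp only [h2, zero_smul, Finset.sum_const_zero, Matrix.mul_zero] at h1
    have h3 := congrArg (· * G.adjugate) h1
    simp only [Matrix.smul_mul, Matrix.mul_assoc, mul_adjugate, Matrix.mul_smul, Matrix.mul_one,
      Matrix.zero_mul, smul_smul] at h3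
    exact Subtype.ext ((smul_eq_zero.mp h3).resolve_left (mul_ne_zero hG hG))
  have : Module.Finite ℂ[X] (WW x (ga ρ G x V) sh) := Module.Finite.of_injective T hT
  apply le_antisymm
  · simpa using LinearMap.finrank_le_finrank_of_injective hT
  · let b : Fin d → WW x (ga ρ G x V) sh := fun k => ⟨_, WW_mem (ρ := ρ) (G := G) hM k⟩
    have hb : LinearIndependent ℂ[X] b := by
      apply LinearIndependent.of_comp T
      rw [Fintype.linearIndependent_iff]
      intro g hg j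
      have h1 := congrFun hg j
      have h2 : ∀ k : Fin d, T (b k) j = G.det * G.det * if j = k then 1 else 0 := by
        intro k
        change (G.adjugate * (G * Mu ^ (k : ℕ) * G.adjugate) * G) (e j) o = _
        rw [Matrix.mul_assoc, Matrix.mul_assoc, adjugate_mul, Matrix.mul_smul, Matrix.mul_one,
          Matrix.mul_smul, ← Matrix.mul_assoc, adjugate_mul, Matrix.smul_mul, Matrix.one_mul,
          smul_smul, Matrix.smul_apply, hp, smul_eq_mul]
      simp only [Finset.sum_apply, Pi.smul_apply, Function.comp_apply, h2, smul_eq_mul, mul_ite,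
        mul_one, mul_zero, Finset.sum_ite_eq, Finset.mem_univ, if_true, Pi.zero_apply] at h1
      exact (mul_eq_zero.mp h1).resolve_right (mul_ne_zero hG hG)
    simpa using hb.fintype_card_le_finrank

/-- A common eigenvector. -/
theorem eigen_of_rep {x' τ : LL} (hG : ev x' G.det ≠ 0) {p : Fin d → ℂ[X]}
    (h : G.det • (Φ * G) = G * ∑ k : Fin d, p k • Mu ^ (k : ℕ)) {c : Fin N → LL}
    (hc : Mu.map (ev x') *ᵥ c = τ • c) (a : LL) : ∃ τ' : LL,
      Φ.map (ev x') *ᵥ (a • G.map (ev x') *ᵥ c) = τ' • (a • G.map (ev x') *ᵥ c) := by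
  exact wdr_eigen (K := LL) hG h hc a

theorem eigen_Mu {x' τ : LL} {c : Fin N → LL} (hc : Mu.map (ev x') *ᵥ c = τ • c) (a : LL) :
    (G * Mu * G.adjugate).map (ev x') *ᵥ (a • G.map (ev x') *ᵥ c) =
      (ev x' G.det * τ) • (a • G.map (ev x') *ᵥ c) := by
  exact wdr_eigen_Mu (K := LL) hc a

end Pool.Agent.GR.CV
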