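import Pool.Agent.Lib.MP_aa40d3_nt.CV.Fuchs
import Pool.Agent.Lib.MP_aa40d3_nt.CV.Cyc
import Pool.Agent.Lib.MP_aa40d3_nt.CV.WdR
import Pool.Agent.Lib.MP_aa40d3_nt.CV.Ram
import Pool.Agent.Lib.MP_aa40d3_nt.CV.PushB
import Pool.Agent.Lib.MP_aa40d3_nt.CV.PushA
import Pool.Agent.Lib.MP_aa40d3_nt.CV.GauA
import Pool.Agent.Lib.MP_aa40d3_nt.CV.Spr
import Pool.Agent.Lib.MP_aa40d3_nt.CV.KatD

/-! Systems on a curve with generic branch points. -/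

open Polynomial Matrix
open scoped Polynomial.Bivariate

namespace Pool.Agent.GR.CV

variable {r d n : ℕ}

theorem exists_frames (hr : 1 ≤ r) (hd : 2 ≤ d) {S : Sys ℂ r} {q : ℂ[X][Y]} {δ : ℂ[X]}
    (h : Prep S d q δ) (hδ : δ ≠ 0) (hK : ∀ z, ∃ U Cm : LM (r * d), (∀ i j, Ov 0 (Cm i j)) ∧
      MSol (δ * S.D) (pB S d q δ) (xt z 1) U Cm)
    {t : Fin n → ℂ} (ht : Function.Injective t) {M : Finset (Fin n)}
    (hB : ∀ i ∈ M, S.Bra d (t i)) (hP : ∀ i, i ∉ M → S.Unr (xt (t i) 1) (d - 1))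
    (hU : ∀ c, c ∉ Set.range t → S.Unr (xt c 1) d) : ∃ U : ℂ → LM (r * d),
      Fr r (δ * S.D) (pB S d q δ) t M U ∧ ∀ i ∈ M, ∃ (j : Fin (r * d)) (τ : LL), sg τ ≠ τ ∧
        ((pM S d).map (ev (xt (t i) 2)) *ᵥ fun a => U (t i) a j) = τ • fun a => U (t i) a j := by
  have key : ∀ z : ℂ, ∃ U : LM (r * d), (z ∉ Set.range t → TG (δ * S.D) (pB S d q δ) z U) ∧
      (∀ i, t i = z → i ∉ M → TP r (δ * S.D) (pB S d q δ) z U) ∧ ∀ i, t i = z → i ∈ M →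
        TB r (δ * S.D) (pB S d q δ) z U ∧ ∃ (j : Fin (r * d)) (τ : LL), sg τ ≠ τ ∧
          ((pM S d).map (ev (xt z 2)) *ᵥ fun a => U a j) = τ • fun a => U a j := by
    intro z
    by_cases hz : z ∈ Set.range t
    · obtain ⟨i, rfl⟩ := hz
      by_cases hi : i ∈ M
      · obtain ⟨U, h1⟩ := push_bra hr hd h (hB i hi)
        exact ⟨U, fun h2 => absurd ⟨i, rfl⟩ h2, fun j hj h2 => absurd (ht hj ▸ hi) h2,
          fun _ _ _ => h1⟩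
      · obtain ⟨U, h1⟩ := push_pun h (by omega) hδ (hP i hi) (hK _)
        exact ⟨U, fun h2 => absurd ⟨i, rfl⟩ h2, fun _ _ _ => h1,
          fun j hj h2 => absurd (ht hj ▸ h2) hi⟩
    · obtain ⟨U, y, -, h1, -⟩ := push_unr h (hU z hz)
      exact ⟨U, fun _ => h1, fun i hi => absurd ⟨i, hi⟩ hz, fun i hi => absurd ⟨i, hi⟩ hz⟩
  choose U h1 h2 h3 using key
  exact ⟨U, ⟨h1, fun i hi => h2 _ i rfl hi, fun i hi => (h3 _ i rfl hi).1⟩,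
    fun i hi => (h3 _ i rfl hi).2⟩

theorem ga_col {N : ℕ} (ρ : ℂ[X]) (G : PM N) (x : LL) (U : LM N) (j : Fin N) :
    (fun a => ga ρ G x U a j) = (ev x ρ)⁻¹ • G.map (ev x) *ᵥ fun a => U a j := rfl

end Pool.Agent.GR.CV
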