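import Pool.Agent.Lib.MP_aa40d3_nt.CV.Lau

/-! Orders of Laurent series. -/

open Polynomial Matrix
open scoped Polynomial.Bivariate

namespace Pool.Agent.GR.CV

variable {N : ℕ} {m m' : ℤ} {f g : LL}

theorem Ov.zero (m : ℤ) : Ov m 0 := fun _ _ => rfl

theorem Ov.mono (h : Ov m f) (hm : m' ≤ m) : Ov m' f := fun k hk => h k (hk.trans_le hm)

theorem Ov.add (h : Ov m f) (h' : Ov m g) : Ov m (f + g) := by
  intro k hk
  rw [HahnSeries.coeff_add, h k hk, h' k hk, add_zero]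

theorem Ov.neg (h : Ov m f) : Ov m (-f) := by
  intro k hk
  rw [HahnSeries.coeff_neg, h k hk, neg_zero]

theorem Ov.sub (h : Ov m f) (h' : Ov m g) : Ov m (f - g) := by
  intro k hk
  rw [HahnSeries.coeff_sub, h k hk, h' k hk, sub_zero]

theorem Ov.sum {ι : Type} {s : Finset ι} {f : ι → LL} (h : ∀ i ∈ s, Ov m (f i)) :
    Ov m (∑ i ∈ s, f i) := by
  intro k hk
  rw [HahnSeries.coeff_sum]
  exact Finset.sum_eq_zero fun i hi => h i hi k hk

theorem Ov.mul (h : Ov m f) (h' : Ov m' g) : Ov (m + m') (f * g) := by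
  intro k hk
  rw [HahnSeries.coeff_mul]
  refine Finset.sum_eq_zero fun ij hij => ?_
  obtain ⟨-, -, h3⟩ := Finset.mem_antidiagonal.1 hij
  rcases lt_or_ge ij.1 m with h1 | h1
  · rw [h _ h1, zero_mul]
  · rw [h' ij.2 (by omega), mul_zero]

theorem Ov.mul_left (h : Ov 0 f) (h' : Ov m g) : Ov m (f * g) := by
  simpa using h.mul h'

theorem Ov.mul_right (h : Ov m f) (h' : Ov 0 g) : Ov m (f * g) := by
  simpa using h.mul h'

theorem Ov.coeff_mul (h : Ov m f) (h' : Ov m' g) :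
    (f * g).coeff (m + m') = f.coeff m * g.coeff m' := by
  rw [HahnSeries.coeff_mul]
  refine Finset.sum_eq_single (m, m') (fun ij hij hne => ?_) fun hn => ?_
  · obtain ⟨-, -, h3⟩ := Finset.mem_antidiagonal.1 hij
    rcases lt_trichotomy ij.1 m with h1 | h1 | h1
    · rw [h _ h1, zero_mul]
    · exact absurd (Prod.ext h1 (by omega)) hne
    · rw [h' ij.2 (by omega), mul_zero]
  · by_contra hc
    exact hn (Finset.mem_antidiagonal.2 ⟨left_ne_zero_of_mul hc, right_ne_zero_of_mul hc, rfl⟩)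

theorem Ov.succ (h : Ov m f) (h0 : f.coeff m = 0) : Ov (m + 1) f := by
  intro k hk
  rcases lt_or_eq_of_le (Int.lt_add_one_iff.1 hk) with h1 | h1
  · exact h k h1
  · rw [h1, h0]

theorem ov_alg (c : ℂ) : Ov 0 (algebraMap ℂ LL c) := by
  intro k hk
  rw [alg_eq, HahnSeries.coeff_single_of_ne hk.ne]

theorem ov_one : Ov 0 1 := by
  simpa using ov_alg 1

theorem Ov.pow (h : Ov 0 f) (k : ℕ) : Ov 0 (f ^ k) := by
  induction k with
  | zero => simpa using ov_one
  | succ k ih =>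
    rw [pow_succ]
    exact ih.mul_left h

theorem ov_zpow (k : ℤ) : Ov k (sL ^ k) := by
  intro j hj
  rw [sL_zpow, HahnSeries.coeff_single_of_ne hj.ne]

theorem ov_zpow_mul (k : ℤ) : Ov (k + m) (sL ^ k * f) ↔ Ov m f := by
  constructor
  · intro h j hj
    have h1 := h (j + k) (by omega)
    rwa [coeff_zpow_mul, add_sub_cancel_right] at h1
  · exact fun h => (ov_zpow k).mul h

theorem ov_series (p : PowerSeries ℂ) : Ov 0 (HahnSeries.ofPowerSeries ℤ ℂ p) := by
  intro k hk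
  rw [PowerSeries.coeff_coe, if_pos hk]

theorem exists_ov (f : LL) : ∃ m : ℕ, Ov (-m) f := by
  refine ⟨f.order.natAbs, fun k hk => HahnSeries.coeff_eq_zero_of_lt_order ?_⟩
  omega

theorem exists_ov_fin {ι : Type} [Finite ι] (f : ι → LL) : ∃ m : ℕ, ∀ i, Ov (-m) (f i) := by
  choose a ha using fun i => exists_ov (f i)
  obtain ⟨b, hb⟩ := (Set.finite_range a).bddAbove
  refine ⟨b, fun i => (ha i).mono ?_⟩
  have h1 : a i ≤ b := hb ⟨i, rfl⟩
  omega

end Pool.Agent.GR.CV
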