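import Pool.Agent.Lib.MP_aa40d3_nt.CV.Ov

/-! Leading terms and matrices of series. -/

open Polynomial Matrix
open scoped Polynomial.Bivariate

namespace Pool.Agent.GR.CV

variable {N : ℕ} {m m' : ℤ} {f g : LL}

/-- `m = f.order`. -/
theorem exists_lead (h : f ≠ 0) : ∃ m, Ov m f ∧ f.coeff m ≠ 0 := by
  exact ⟨f.order, fun _ hk => HahnSeries.coeff_eq_zero_of_lt_order hk,
    fun h0 => h (HahnSeries.coeff_order_eq_zero.1 h0)⟩

/-- With `f⁻¹` of order `m'` the product has a nonzero coefficient at `m + m'`, so `m' = -m`. -/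
theorem Ov.inv (h : Ov m f) (h0 : f.coeff m ≠ 0) : Ov (-m) f⁻¹ := by
  have hf : f ≠ 0 := fun e => h0 (by rw [e]; rfl)
  obtain ⟨k, hk, hk0⟩ := exists_lead (inv_ne_zero hf)
  have h1 := h.coeff_mul hk
  rw [mul_inv_cancel₀ hf, HahnSeries.coeff_one] at h1
  by_cases e : m + k = 0
  · exact hk.mono (by omega)
  · rw [if_neg e] at h1
    exact absurd h1.symm (mul_ne_zero h0 hk0)

theorem Ov.cancel (h : Ov m f) (h0 : f.coeff m ≠ 0) (h' : Ov (m + m') (f * g)) : Ov m' g := by
  have hf : f ≠ 0 := fun e => h0 (by rw [e]; rfl)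
  have h1 := (h.inv h0).mul h'
  rwa [inv_mul_cancel_left₀ hf, neg_add_cancel_left] at h1

theorem Ov.der (h : Ov 0 f) : Ov 0 (dL f) := by
  intro k hk
  rw [dL_coeff]
  by_cases e : k + 1 = 0
  · have : (k : ℂ) + 1 = 0 := by exact_mod_cast e
    rw [this, zero_mul]
  · rw [h _ (by omega), mul_zero]

theorem Ov.sder (h : Ov m f) : Ov m (sL * dL f) := by
  intro k hk
  rw [sdL_coeff, h k hk, mul_zero]

theorem Ov.sder_one (h : Ov 0 f) : Ov 1 (sL * dL f) := by
  intro k hk
  rw [sdL_coeff]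
  by_cases e : k = 0
  · rw [e, Int.cast_zero, zero_mul]
  · rw [h _ (by omega), mul_zero]

/-- Otherwise the orders of the `τ ^ k * c` tend to `-∞`. -/
theorem ov_of_pow {τ c : LL} (hc : c ≠ 0) (h : ∀ k : ℕ, Ov m (τ ^ k * c)) : Ov 0 τ := by
  by_cases hτ : τ = 0
  · rw [hτ]
    exact Ov.zero 0
  obtain ⟨a, ha, ha0⟩ := exists_lead hτ
  obtain ⟨b, hb, hb0⟩ := exists_lead hc
  have key : ∀ k : ℕ, Ov (k * a + b) (τ ^ k * c) ∧ (τ ^ k * c).coeff (k * a + b) ≠ 0 := by
    intro k
    induction k with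
    | zero => simpa using ⟨hb, hb0⟩
    | succ k ih =>
      have e : ((k + 1 : ℕ) : ℤ) * a + b = a + (k * a + b) := by push_cast; ring
      rw [e, pow_succ', mul_assoc]
      exact ⟨ha.mul ih.1, by rw [ha.coeff_mul ih.1]; exact mul_ne_zero ha0 ih.2⟩
  by_cases h0 : 0 ≤ a
  · exact ha.mono h0
  · refine absurd (h ((b - m).toNat + 1) _ ?_) (key ((b - m).toNat + 1)).2
    have h1 : b - m ≤ ((b - m).toNat : ℤ) := Int.self_le_toNat _
    have h2 : (0 : ℤ) ≤ ((b - m).toNat : ℤ) := Int.natCast_nonneg _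
    push_cast
    nlinarith

/-- An eigenvalue of a matrix of power series: `V ^ k *ᵥ c = τ ^ k • c`, `ov_of_pow`. -/
theorem ov_of_eigen {V : LM N} (hV : ∀ i j, Ov 0 (V i j)) {c : Fin N → LL} (hc : c ≠ 0) {τ : LL}
    (h : V *ᵥ c = τ • c) : Ov 0 τ := by
  obtain ⟨i, hi⟩ := Function.ne_iff.1 hc
  obtain ⟨n, hn⟩ := exists_ov_fin c
  have key : ∀ (k : ℕ) (j : Fin N), Ov (-n) (τ ^ k * c j) := by
    intro k
    induction k with
    | zero => simpa using hn
    | succ k ih =>
      intro j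
      have e : τ ^ (k + 1) * c j = ∑ l, V j l * (τ ^ k * c l) := by
        have h1 : ∑ l, V j l * c l = τ * c j := congrFun h j
        rw [pow_succ, mul_assoc, ← h1, Finset.mul_sum]
        exact Finset.sum_congr rfl fun l _ => by ring
      rw [e]
      exact Ov.sum fun l _ => (hV j l).mul_left (ih l)
  exact ov_of_pow hi fun k => key k i

theorem ov_mat_mul {α β γ : Type} [Fintype β] {U : Matrix α β LL} {V : Matrix β γ LL}
    (hU : ∀ i j, Ov m (U i j)) (hV : ∀ i j, Ov m' (V i j)) (i : α) (j : γ) :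
    Ov (m + m') ((U * V) i j) := by
  rw [Matrix.mul_apply]
  exact Ov.sum fun l _ => (hU i l).mul (hV l j)

theorem coeff_mat_mul {α β γ : Type} [Fintype β] {U : Matrix α β LL} {V : Matrix β γ LL}
    (hU : ∀ i j, Ov m (U i j)) (hV : ∀ i j, Ov m' (V i j)) :
    ((U * V).map fun f => f.coeff (m + m')) =
      (U.map fun f => f.coeff m) * V.map fun f => f.coeff m' := by
  ext i j
  simp only [Matrix.map_apply, Matrix.mul_apply, HahnSeries.coeff_sum]
  exact Finset.sum_congr rfl fun l _ => (hU i l).coeff_mul (hV l j)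

/-- The subring of power series. -/
noncomputable def ovmS : Subring LL where
  carrier := {f | Ov 0 f}
  mul_mem' := fun h h' => Ov.mul_left h h'
  one_mem' := ov_one
  add_mem' := fun h h' => Ov.add h h'
  zero_mem' := Ov.zero 0
  neg_mem' := fun h => Ov.neg h

/-- The constant term. -/
noncomputable def ovmC : ovmS →+* ℂ where
  toFun f := (f : LL).coeff 0
  map_one' := by simp
  map_mul' := fun f g => by simpa using Ov.coeff_mul f.2 g.2
  map_zero' := rfl
  map_add' := fun _ _ => rfl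

/-- The series with `Ov 0` form a subring with the ring homomorphism `coeff 0` to `ℂ`; lift `V` to
this subring, its determinant is a unit there (`Ov.inv`); take `det⁻¹ • adjugate`. -/
theorem ov_mat_inv {V : LM N} (hV : ∀ i j, Ov 0 (V i j))
    (h0 : (V.map fun f => f.coeff 0).det ≠ 0) :
    ∃ V' : LM N, V * V' = 1 ∧ V' * V = 1 ∧ ∀ i j, Ov 0 (V' i j) := by
  let W : Matrix (Fin N) (Fin N) ovmS := Matrix.of fun i j => ⟨V i j, hV i j⟩
  have hW : W.map ovmS.subtype = V := rfl
  have hd : V.det = (W.det : LL) := by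
    rw [← hW]
    exact (RingHom.map_det ovmS.subtype W).symm
  have hc : V.det.coeff 0 ≠ 0 := by
    rw [hd]
    exact (RingHom.map_det ovmC W).trans_ne h0
  have hO : Ov 0 V.det := hd ▸ W.det.2
  have hne : V.det ≠ 0 := fun e => hc (by rw [e]; rfl)
  refine ⟨V⁻¹, Matrix.mul_nonsing_inv V hne.isUnit, Matrix.nonsing_inv_mul V hne.isUnit,
    fun i j => ?_⟩
  have h1 : V.adjugate = W.adjugate.map ovmS.subtype := by
    rw [← hW]
    exact (RingHom.map_adjugate ovmS.subtype W).symm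
  have h2 : Ov 0 (V.adjugate i j) := by
    rw [h1]
    exact (W.adjugate i j).2
  have h3 := hO.inv hc
  rw [neg_zero] at h3
  have h4 : V⁻¹ i j = V.det⁻¹ * V.adjugate i j := by
    rw [Matrix.inv_def, Ring.inverse_eq_inv']
    rfl
  rw [h4]
  exact h3.mul_left h2

end Pool.Agent.GR.CV
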