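import Pool.Agent.Lib.MP_aa40d3_nt.CV.OvM

/-! Expansions of polynomials. -/

open Polynomial Matrix
open scoped Polynomial.Bivariate

namespace Pool.Agent.GR.CV

variable {t : ℂ} {e : ℕ}

theorem ev_C (x : LL) (c : ℂ) : ev x (C c) = algebraMap ℂ LL c := by
  rw [ev_apply, aeval_C]

theorem ev_X (x : LL) : ev x X = x := by
  rw [ev_apply, aeval_X]

theorem ev_xt_X_sub (t : ℂ) (e : ℕ) : ev (xt t e) (X - C t) = sL ^ e := by
  rw [map_sub, ev_X, ev_C, xt, add_sub_cancel_left]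

theorem ov_ev (t : ℂ) (e : ℕ) (p : ℂ[X]) : Ov 0 (ev (xt t e) p) := by
  have hx : Ov 0 (xt t e) := by
    refine (ov_alg t).add ?_
    rw [← zpow_natCast]
    exact (ov_zpow e).mono (Int.natCast_nonneg e)
  induction p using Polynomial.induction_on' with
  | add p q hp hq => rw [map_add]; exact hp.add hq
  | monomial n a =>
    rw [← C_mul_X_pow_eq_monomial, map_mul, map_pow, ev_C, ev_X]
    exact (ov_alg a).mul_left (hx.pow n)

/-- `p - C (p.eval t)` is divisible by `X - C t`. -/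
theorem ov_ev_sub (t : ℂ) (e : ℕ) (p : ℂ[X]) :
    Ov e (ev (xt t e) p - algebraMap ℂ LL (p.eval t)) := by
  obtain ⟨q, hq⟩ := X_sub_C_dvd_sub_C_eval (a := t) (p := p)
  rw [← ev_C (xt t e), ← map_sub, hq, map_mul, ev_xt_X_sub, ← zpow_natCast]
  exact (ov_zpow e).mul_right (ov_ev t e q)

theorem ev_coeff_zero (he : 1 ≤ e) (p : ℂ[X]) : (ev (xt t e) p).coeff 0 = p.eval t := by
  have h := ov_ev_sub t e p 0 (by exact_mod_cast he)
  rw [HahnSeries.coeff_sub, alg_eq, HahnSeries.coeff_single_same] at h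
  exact sub_eq_zero.mp h

/-- `p = (X - C t) ^ k * q` with `q.eval t ≠ 0` (`exists_eq_pow_rootMultiplicity_mul_and_not_dvd`). -/
theorem ev_xt_ne (he : 1 ≤ e) {p : ℂ[X]} (hp : p ≠ 0) : ev (xt t e) p ≠ 0 := by
  obtain ⟨q, hq, hnd⟩ := exists_eq_pow_rootMultiplicity_mul_and_not_dvd p hp t
  rw [hq, map_mul, map_pow, ev_xt_X_sub]
  refine mul_ne_zero (pow_ne_zero _ (pow_ne_zero _ sL_ne)) fun h0 => hnd ?_
  rw [dvd_iff_isRoot, IsRoot.def, ← ev_coeff_zero he, h0, HahnSeries.coeff_zero]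

theorem ov_ev_inv (he : 1 ≤ e) {p : ℂ[X]} (hp : p.eval t ≠ 0) : Ov 0 (ev (xt t e) p)⁻¹ := by
  exact (ov_ev t e p).inv (by rwa [ev_coeff_zero he])

/-- Induction on the degree of `D`: a root `z` of `D` is a root of `p` (`ev_coeff_zero`); divide both
by `X - C z` and cancel (`ev_xt_ne`). -/
theorem dvd_of_local {D p : ℂ[X]} (hD : D ≠ 0) (h : ∀ z, D.eval z = 0 → ∃ (e : ℕ) (w : LL), 1 ≤ e ∧
    Ov 0 w ∧ ev (xt z e) p = ev (xt z e) D * w) : D ∣ p := by
  induction hn : D.natDegree using Nat.strong_induction_on generalizing D p with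
  | _ n ih =>
    by_cases h0 : D.degree = 0
    · exact (isUnit_iff_degree_eq_zero.mpr h0).dvd
    obtain ⟨z, hz⟩ := IsAlgClosed.exists_root D h0
    obtain ⟨D', rfl⟩ := dvd_iff_isRoot.mpr hz
    have hp : p.IsRoot z := by
      obtain ⟨e, w, he, hw, hh⟩ := h z hz
      have h1 := (ov_ev z e ((X - C z) * D')).coeff_mul hw
      rw [add_zero, ← hh, ev_coeff_zero he, ev_coeff_zero he, hz.eq_zero, zero_mul] at h1
      exact h1
    obtain ⟨p', rfl⟩ := dvd_iff_isRoot.mpr hp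
    have hD' : D' ≠ 0 := right_ne_zero_of_mul hD
    refine mul_dvd_mul_left _ (ih D'.natDegree ?_ hD' (fun y hy => ?_) rfl)
    · rw [← hn, natDegree_mul (X_sub_C_ne_zero z) hD', natDegree_X_sub_C]
      omega
    · obtain ⟨e, w, he, hw, hh⟩ := h y (by rw [eval_mul, hy, mul_zero])
      refine ⟨e, w, he, hw, mul_left_cancel₀ (ev_xt_ne (t := y) he (X_sub_C_ne_zero z)) ?_⟩
      rw [← map_mul, hh, map_mul, mul_assoc]

theorem pol_mono (n : ℕ) (a : ℂ) (k : ℤ) :
    (ev sL⁻¹ (monomial n a)).coeff k = if k = -n then a else 0 := by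
  rw [← C_mul_X_pow_eq_monomial, map_mul, map_pow, ev_C, ev_X, coeff_alg_mul, inv_pow,
    ← zpow_natCast, ← _root_.zpow_neg, sL_zpow, HahnSeries.coeff_single]
  split_ifs <;> simp

theorem ev_inv_coeff (p : ℂ[X]) (k : ℕ) : (ev sL⁻¹ p).coeff (-k) = p.coeff k := by
  induction p using Polynomial.induction_on' with
  | add p q hp hq => rw [map_add, HahnSeries.coeff_add, hp, hq, coeff_add]
  | monomial n a =>
    rw [pol_mono, coeff_monomial]
    simp only [neg_inj, Nat.cast_inj, eq_comm]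

theorem ev_inv_coeff_pos (p : ℂ[X]) {k : ℤ} (hk : 0 < k) : (ev sL⁻¹ p).coeff k = 0 := by
  induction p using Polynomial.induction_on' with
  | add p q hp hq => rw [map_add, HahnSeries.coeff_add, hp, hq, add_zero]
  | monomial n a => rw [pol_mono, if_neg (by omega)]

theorem ev_inv_inj : Function.Injective (ev sL⁻¹) := by
  intro p q h
  ext k
  rw [← ev_inv_coeff, ← ev_inv_coeff, h]

theorem ov_ev_inv_iff (p : ℂ[X]) (m : ℕ) : Ov (1 - m) (ev sL⁻¹ p) ↔ p.degree < m := by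
  rw [degree_lt_iff_coeff_zero]
  constructor
  · intro h k hk
    rw [← ev_inv_coeff]
    exact h _ (by omega)
  · intro h k hk
    obtain ⟨n, rfl⟩ : ∃ n : ℕ, k = -n := ⟨(-k).toNat, by omega⟩
    rw [ev_inv_coeff]
    exact h n (by omega)

theorem eq_zero_of_ov {p : ℂ[X]} (h : Ov 1 (ev sL⁻¹ p)) : p = 0 := by
  ext k
  rw [← ev_inv_coeff, coeff_zero]
  exact h _ (by omega)

/-- The polar part. -/
theorem exists_polar (f : LL) : ∃ p : ℂ[X], Ov 1 (f - ev sL⁻¹ p) := by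
  obtain ⟨m, hm⟩ := exists_ov f
  refine ⟨∑ i ∈ Finset.range (m + 1), monomial i (f.coeff (-i)), fun k hk => ?_⟩
  obtain ⟨n, rfl⟩ : ∃ n : ℕ, k = -n := ⟨(-k).toNat, by omega⟩
  rw [HahnSeries.coeff_sub, ev_inv_coeff, finsetSum_coeff]
  simp only [coeff_monomial, Finset.sum_ite_eq', Finset.mem_range]
  split_ifs with h
  · exact sub_self _
  · rw [sub_zero]
    exact hm _ (by omega)

end Pool.Agent.GR.CV
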