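import Pool.Agent.Lib.MP_aa40d3_nt.CV.Pol

/-! A reduced basis at infinity: bounds. -/

open Polynomial Matrix
open scoped Polynomial.Bivariate

namespace Pool.Agent.GR.CV

variable {N : ℕ} {U : LM N}

/-- `l(1/s) = ex sL⁻¹ U l ᵥ* U⁻¹`; `exists_ov_fin` for the entries of `U⁻¹`, `eq_zero_of_ov`. -/
theorem pop_up (hU : U.det ≠ 0) : ∃ K₀ : ℤ, ∀ l : Fin N → ℂ[X],
    (∀ i, Ov (K₀ + 1) (ex sL⁻¹ U l i)) → l = 0 := by
  obtain ⟨m, hm⟩ := exists_ov_fin fun p : Fin N × Fin N => U⁻¹ p.1 p.2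
  refine ⟨m, fun l hl => funext fun i => eq_zero_of_ov ?_⟩
  have h1 : (fun i => ev sL⁻¹ (l i)) = ex sL⁻¹ U l ᵥ* U⁻¹ := by
    rw [ex, vecMul_vecMul, mul_nonsing_inv U (Ne.isUnit hU), vecMul_one]
  rw [show ev sL⁻¹ (l i) = ∑ a, ex sL⁻¹ U l a * U⁻¹ a i from congrFun h1 i]
  exact Ov.sum fun a _ => ((hl a).mul (hm (a, i))).mono (by omega)

/-- Dimension count. Let the entries of `q(1/s) • U` satisfy `Ov (-c)`. The linear map over `ℂ` that
sends `a : Fin N × Fin m → ℂ` to the coefficients at `k`, `-(c + m) ≤ k ≤ K₀`, of the entries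
`i ≠ j` of `ex sL⁻¹ U (q • fun i => ∑ k, monomial k (a (i, k)))` has a kernel if
`(N - 1) * (m + c') < N * m`, where `c'` is a natural number with `c + K₀ + 1 ≤ c'`; take
`m = N * c' + 1`. -/
theorem pop_low {q : ℂ[X]} (hq : q ≠ 0) (U : LM N) (K₀ : ℤ) (j : Fin N) :
    ∃ l : Fin N → ℂ[X], l ≠ 0 ∧ ∀ i, i ≠ j → Ov (K₀ + 1) (ex sL⁻¹ U (q • l) i) := by
  classical
  obtain ⟨n, rfl⟩ : ∃ n, N = n + 1 := ⟨N - 1, by have := j.pos; omega⟩
  obtain ⟨c₁, hc₁⟩ := exists_ov (ev sL⁻¹ q)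
  obtain ⟨c₂, hc₂⟩ := exists_ov_fin fun p : Fin (n + 1) × Fin (n + 1) => U p.1 p.2
  obtain ⟨c, hc⟩ : ∃ c : ℕ, c₁ + c₂ + K₀ ≤ c := ⟨_, Int.self_le_toNat _⟩
  obtain ⟨m, hm⟩ : ∃ m, m = n * c + 1 := ⟨_, rfl⟩
  let T : (Fin (n + 1) → Fin m → ℂ) →ₗ[ℂ] (Fin n → Fin (m + c) → ℂ) :=
    { toFun := fun a i k =>
        (ex sL⁻¹ U (q • fun b => ofFn m (a b)) (j.succAbove i)).coeff (K₀ - (k : ℕ))
      map_add' := fun a a' => funext fun i => funext fun k => by
        have h1 : (fun b => ofFn m ((a + a') b)) =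
            (fun b => ofFn m (a b)) + fun b => ofFn m (a' b) := funext fun b => map_add _ _ _
        rw [h1, smul_add, ex_add, Pi.add_apply, HahnSeries.coeff_add]
        rfl
      map_smul' := fun t a => funext fun i => funext fun k => by
        have h1 : (fun b => ofFn m ((t • a) b)) = C t • fun b => ofFn m (a b) :=
          funext fun b => (map_smul (ofFn m) t (a b)).trans (smul_eq_C_mul t)
        rw [h1, smul_comm, ex_smul, ev_C, Pi.smul_apply, smul_eq_mul, coeff_alg_mul]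
        rfl }
  have hk : LinearMap.ker T ≠ ⊥ := LinearMap.ker_ne_bot_of_finrank_lt (by
    simp only [Module.finrank_pi_fintype, Module.finrank_self, Finset.sum_const, Finset.card_univ,
      Fintype.card_fin, smul_eq_mul, mul_one]
    nlinarith)
  obtain ⟨a, ha, ha0⟩ := (Submodule.ne_bot_iff _).1 hk
  refine ⟨fun b => ofFn m (a b), fun h => ha0 (funext fun b => injective_ofFn m ?_), fun i hi => ?_⟩
  · rw [congrFun h b]
    exact (map_zero _).symm
  · obtain ⟨i, rfl⟩ := Fin.exists_succAbove_eq hi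
    have h2 : Ov (-c₁ + (1 - m + -c₂))
        (ex sL⁻¹ U (q • fun b => ofFn m (a b)) (j.succAbove i)) := by
      rw [ex_smul, Pi.smul_apply, smul_eq_mul]
      exact hc₁.mul (Ov.sum fun b _ =>
        ((ov_ev_inv_iff _ m).2 (ofFn_degree_lt _)).mul (hc₂ (b, j.succAbove i)))
    intro k hk
    by_cases h3 : k < -c₁ + (1 - m + -c₂)
    · exact h2 k h3
    · have h4 := congrFun (congrFun (LinearMap.mem_ker.1 ha) i) ⟨(K₀ - k).toNat, by omega⟩
      rw [show k = K₀ - ((K₀ - k).toNat : ℕ) by omega]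
      exact h4

end Pool.Agent.GR.CV
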