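import Pool.Agent.Lib.MP_aa40d3_nt.CV.Dx

/-! The direct image. -/

open Polynomial Matrix
open scoped Polynomial.Bivariate

namespace Pool.Agent.GR.CV

variable {R R' Ω : Type} [CommRing R] [CommRing R'] [CommRing Ω] {r d : ℕ} {S : Sys R r}
  {q : R[X][Y]} {δ : R[X]}

theorem sum_ix {α : Type} [AddCommMonoid α] (f : Fin (r * d) → α) :
    ∑ i, f i = ∑ a : Fin r, ∑ k : Fin d, f (ix a k) := by
  rw [← finProdFinEquiv.sum_comp, Fintype.sum_prod_type]
  rfl

/-- The remainder has degree less than `d` (`degree_modByMonic_lt`; the case of a trivial ring is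
separate), `as_sum_range'`, `modByMonic_add_div`. -/
theorem mod_expand {P : R[X][Y]} (hP : P.Monic) (hd : P.natDegree = d) (f : R[X][Y]) :
    P ∣ f - ∑ k : Fin d, C ((f %ₘ P).coeff k) * Y ^ (k : ℕ) := by
  nontriviality R
  have h1 : (f %ₘ P).degree < d := by
    rw [← hd, ← degree_eq_natDegree hP.ne_zero]
    exact degree_modByMonic_lt f hP
  have h2 : ∑ k : Fin d, C ((f %ₘ P).coeff k) * Y ^ (k : ℕ) = f %ₘ P := by
    simp only [C_mul_X_pow_eq_monomial]
    exact sum_fin (fun k a => monomial k a) (by simp) h1 ▸ sum_monomial_eq _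
  rw [h2]
  exact ⟨f /ₘ P, by rw [sub_eq_iff_eq_add', modByMonic_add_div]⟩

theorem om_mul {γ : Type} (y : Ω) (U : Matrix (Fin (r * d)) γ Ω) (a : Fin r) (c : γ) :
    (Om r d y * U) a c = ∑ k : Fin d, y ^ (k : ℕ) * U (ix a k) c := by
  rw [Matrix.mul_apply, sum_ix, Finset.sum_eq_single a]
  · simp [Om]
  · intro b _ hb
    simp [Om, hb.symm]
  · simp

theorem om_map {Ω' : Type} [CommRing Ω'] (f : Ω →+* Ω') (y : Ω) :
    (Om r d y).map f = Om r d (f y) := by
  ext a j
  simp [Om, apply_ite f]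

/-- `om_mul`, `mod_expand`. -/
theorem om_pB (h : Prep S d q δ) (ψ : R[X][Y] →+* Ω) (hψ : ψ S.P = 0) :
    Om r d (ψ Y) * (pB S d q δ).map (fun c => ψ (C c)) =
      ψ (C δ) • (S.A.map ψ * Om r d (ψ Y)) + ψ (C S.D * (q * dX S.P)) • Om' r d (ψ Y) := by
  ext a j
  have h1 := map_dvd ψ (mod_expand h.1 h.2.1 (C δ * S.A a (co j) * Y ^ (sh j : ℕ) +
    if a = co j then C S.D * (q * dX S.P) * derivative (Y ^ (sh j : ℕ)) else 0))
  rw [hψ, zero_dvd_iff, map_sub, sub_eq_zero] at h1
  have h2 : (S.A.map ψ * Om r d (ψ Y)) a j = ψ (S.A a (co j)) * ψ Y ^ (sh j : ℕ) := by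
    simp [Matrix.mul_apply, Om]
  rw [om_mul, Matrix.add_apply, Matrix.smul_apply, Matrix.smul_apply, h2]
  simp only [Matrix.map_apply, pB, Matrix.of_apply, co_ix, sh_ix]
  simp only [map_sum, map_mul ψ (C (coeff _ _)), map_pow, mul_comm (ψ (C (coeff _ _)))] at h1
  rw [← h1]
  by_cases ha : a = co j <;> simp [Om', ha, derivative_X_pow, mul_assoc]

theorem om_pM (h : Prep S d q δ) (ψ : R[X][Y] →+* Ω) (hψ : ψ S.P = 0) :
    Om r d (ψ Y) * (pM S d).map (fun c => ψ (C c)) = ψ Y • Om r d (ψ Y) := by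
  ext a j
  have h1 := map_dvd ψ (mod_expand h.1 h.2.1 (Y ^ ((sh j : ℕ) + 1)))
  rw [hψ, zero_dvd_iff, map_sub, sub_eq_zero] at h1
  rw [om_mul, Matrix.smul_apply]
  simp only [Matrix.map_apply, pM, Matrix.of_apply, co_ix, sh_ix]
  simp only [map_sum, map_mul ψ (C (coeff _ _)), map_pow, mul_comm (ψ (C (coeff _ _)))] at h1
  by_cases ha : a = co j
  · simp only [ha, if_true, Om, Matrix.of_apply, smul_eq_mul]
    rw [← h1, pow_succ']
  · simp [ha, Om]

/-- A polynomial of degree less than `d` that is divisible by `P` is zero. -/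
theorem eq_zero_of_dvd {P : R[X][Y]} (hP : P.Monic) (hd : P.natDegree = d) {c : Fin d → R[X]}
    (h : P ∣ ∑ k : Fin d, C (c k) * Y ^ (k : ℕ)) : c = 0 := by
  nontriviality R
  have h1 : (∑ k : Fin d, C (c k) * Y ^ (k : ℕ)).degree < P.degree := by
    rw [degree_eq_natDegree hP.ne_zero, hd]
    exact degree_sum_fin_lt c
  have h2 := ((modByMonic_eq_self_iff hP).2 h1).symm.trans ((modByMonic_eq_zero_iff_dvd hP).2 h)
  funext k
  have h3 := congrArg (coeff · k) h2
  simpa [finsetSum_coeff, coeff_X_pow, Fin.val_inj] using h3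

/-- By induction on `k < d`, the column `ix a 0` of `pM ^ k` is the unit vector at `ix a k`, since
`Y ^ (k + 1) %ₘ P = Y ^ (k + 1)` for `k + 1 < d`. -/
theorem pM_pow (h : Prep S d q δ) [NeZero d] (a : Fin r) (k j : Fin d) :
    (pM S d ^ (k : ℕ)) (ix a j) (ix a 0) = if j = k then 1 else 0 := by
  nontriviality R
  have key : ∀ k (hk : k < d) (i : Fin (r * d)),
      (pM S d ^ k) i (ix a 0) = if i = ix a ⟨k, hk⟩ then 1 else 0 := by
    intro k
    induction k with
    | zero => exact fun hk i => by rw [pow_zero, Matrix.one_apply]; rfl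
    | succ k ih =>
      intro hk i
      have h1 : (Y ^ (k + 1) : R[X][Y]) %ₘ S.P = Y ^ (k + 1) := by
        rw [modByMonic_eq_self_iff h.1, degree_X_pow, degree_eq_natDegree h.1.ne_zero, h.2.1]
        exact_mod_cast hk
      rw [pow_succ', Matrix.mul_apply]
      simp only [ih (by omega), mul_ite, mul_one, mul_zero, Finset.sum_ite_eq', Finset.mem_univ,
        if_true]
      simp only [pM, Matrix.of_apply, co_ix, sh_ix, h1, coeff_X_pow]
      rw [← ite_and]
      refine if_congr ⟨fun h2 => ?_, fun h2 => by simp [h2]⟩ rfl rfl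
      rw [← ix_co_sh i, h2.1]
      exact congrArg _ (Fin.ext h2.2)
  rw [key k k.2]
  refine if_congr ⟨fun h2 => ?_, fun h2 => by rw [h2]⟩ rfl rfl
  simpa using congrArg sh h2

theorem pB_map (hP : S.P.Monic) (φ : R →+* R') : (pB S d q δ).map (Polynomial.map φ) =
    pB (S.map φ) d (q.map (mapRingHom φ)) (δ.map φ) := by
  ext1 i j
  simp only [pB, Matrix.map_apply, Matrix.of_apply, Sys.map]
  rw [← coe_mapRingHom, ← coeff_map, map_modByMonic _ hP, dX_map]
  congr 2
  split_ifs <;> simp [derivative_X_pow]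

theorem Prep.map (h : Prep S d q δ) (φ : R →+* R') [Nontrivial R'] :
    Prep (S.map φ) d (q.map (mapRingHom φ)) (δ.map φ) := by
  refine ⟨h.1.map _, (h.1.natDegree_map _).trans h.2.1, ?_⟩
  have h1 := Polynomial.map_dvd (mapRingHom φ) h.2.2
  simpa [Sys.map] using h1

end Pool.Agent.GR.CV
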