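import Pool.Agent.Lib.MP_aa40d3_nt.CV.Sig

/-! The substitution `s ↦ s ^ 2`. -/

open Polynomial Matrix
open scoped Polynomial.Bivariate

namespace Pool.Agent.GR.CV

theorem ps_coeff_even (f : LL) (k : ℤ) : (ps f).coeff (2 * k) = f.coeff k := by
  exact HahnSeries.embDomain_coeff (a := k)

theorem ps_coeff_odd (f : LL) {k : ℤ} (hk : Odd k) : (ps f).coeff k = 0 := by
  refine HahnSeries.embDomain_of_notMem_range ?_
  rintro ⟨a, ha⟩
  have ha' : 2 * a = k := ha
  obtain ⟨b, hb⟩ := hk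
  omega

theorem sg_ps (f : LL) : sg (ps f) = ps f := by
  ext k
  rw [sg_coeff]
  rcases Int.even_or_odd k with h | h
  · rw [h.neg_one_zpow, one_mul]
  · rw [ps_coeff_odd f h, mul_zero]

theorem sigp_single (k : ℤ) (c : ℂ) :
    ps (HahnSeries.single k c) = HahnSeries.single (2 * k) c :=
  HahnSeries.embDomain_single

theorem ps_alg (c : ℂ) : ps (algebraMap ℂ LL c) = algebraMap ℂ LL c := by
  rw [alg_eq, sigp_single, mul_zero]

theorem ps_sL : ps sL = sL ^ 2 := by
  rw [← zpow_natCast, sL_zpow]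
  exact sigp_single 1 1

theorem ps_xt (t : ℂ) : ps (xt t 1) = xt t 2 := by
  rw [xt, xt, map_add, ps_alg, pow_one, ps_sL]

theorem sdL_ps (f : LL) : sL * dL (ps f) = 2 * ps (sL * dL f) := by
  ext k
  rw [two_mul, HahnSeries.coeff_add, sdL_coeff]
  rcases Int.even_or_odd' k with ⟨a, rfl | rfl⟩
  · rw [ps_coeff_even, ps_coeff_even, sdL_coeff]
    push_cast
    ring
  · rw [ps_coeff_odd _ ⟨a, rfl⟩, ps_coeff_odd _ ⟨a, rfl⟩, mul_zero, add_zero]

theorem ps_ev (x : LL) (p : ℂ[X]) : ps (ev x p) = ev (ps x) p := by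
  induction p using Polynomial.induction_on' with
  | add p q hp hq => rw [map_add, map_add, map_add, hp, hq]
  | monomial n a =>
    rw [ev_apply, ev_apply, aeval_monomial, aeval_monomial, map_mul, map_pow, ps_alg]

theorem ps_aeval2 (x y : LL) (p : ℂ[X][Y]) :
    ps (aevalAeval x y p) = aevalAeval (ps x) (ps y) p := by
  induction p using Polynomial.induction_on' with
  | add p q hp hq => rw [map_add, map_add, map_add, hp, hq]
  | monomial n a =>
    rw [← C_mul_X_pow_eq_monomial, map_mul, map_mul, map_mul, map_pow, map_pow, map_pow,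
      aevalAeval_C, aevalAeval_C, aevalAeval_Y, aevalAeval_Y, ← ev_apply, ← ev_apply, ps_ev]

variable {r : ℕ} {S : Sys ℂ r} {t : ℂ} {y : LL}

/-- The equation for a given fundamental matrix. -/
def LocG (S : Sys ℂ r) (x y : LL) (G B : Matrix (Fin r) (Fin r) LL) : Prop :=
  aevalAeval x y S.P = 0 ∧ G.det ≠ 0 ∧
    ev x S.D • (sL • G.map dL + G * B) = (sL * dL x) • (S.A.map (aevalAeval x y) * G)

theorem Sys.Loc.locG {x : LL} (h : S.Loc x y) : ∃ G, LocG S x y G 0 := by
  obtain ⟨h1, G, h2, h3⟩ := h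
  refine ⟨G, h1, h2, Matrix.ext fun a b => ?_⟩
  have h4 : ev x S.D * dL (G a b) = dL x * (S.A.map (aevalAeval x y) * G) a b :=
    congrFun (congrFun h3 a) b
  simp only [Matrix.mul_zero, add_zero, Matrix.smul_apply, smul_eq_mul, Matrix.map_apply]
  rw [mul_left_comm, h4, mul_assoc]

/-- Apply `ps` to the equation and multiply by two. -/
theorem LocG.ps {G : Matrix (Fin r) (Fin r) LL} (h : LocG S (xt t 1) y G 0) :
    LocG S (xt t 2) (ps y) (G.map ps) 0 := by
  obtain ⟨h1, h2, h3⟩ := h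
  refine ⟨by rw [← ps_xt, ← ps_aeval2, h1, map_zero], ?_, ?_⟩
  · rw [← RingHom.mapMatrix_apply, ← RingHom.map_det]
    exact (_root_.map_ne_zero _).2 h2
  · refine Matrix.ext fun a b => ?_
    have h4 := congrArg CV.ps (congrFun (congrFun h3 a) b)
    simp only [Matrix.mul_zero, add_zero, Matrix.smul_apply, Matrix.map_apply, smul_eq_mul,
      Matrix.mul_apply] at h4 ⊢
    rw [map_mul, ps_ev, map_mul _ (sL * dL (xt t 1)), map_sum] at h4
    simp only [map_mul _ (aevalAeval _ _ _), ps_aeval2, ps_xt] at h4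
    rw [sdL_ps]
    nth_rewrite 2 [← ps_xt]
    rw [sdL_ps]
    linear_combination 2 * h4

/-- Apply `sgH` to the equation. -/
theorem LocG.sg {G : Matrix (Fin r) (Fin r) LL} (h : LocG S (xt t 2) y G 0) :
    LocG S (xt t 2) (sg y) (G.map sg) 0 := by
  obtain ⟨h1, h2, h3⟩ := h
  refine ⟨by rw [← sg_xt, ← sg_aeval2, h1]; exact map_zero sgH, ?_, ?_⟩
  · have : (G.map CV.sg).det = sgH G.det := (RingHom.map_det sgH G).symm
    rw [this]
    exact (_root_.map_ne_zero _).2 h2
  · refine Matrix.ext fun a b => ?_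
    have h4 := congrArg sgH (congrFun (congrFun h3 a) b)
    simp only [Matrix.mul_zero, add_zero, Matrix.smul_apply, Matrix.map_apply, smul_eq_mul,
      Matrix.mul_apply] at h4 ⊢
    rw [map_mul, map_mul _ (sL * dL (xt t 2)), map_sum] at h4
    simp only [map_mul _ (aevalAeval _ _ _), sgH_apply, sg_aeval2, sg_ev, sg_sdL, sg_xt] at h4
    exact h4

end Pool.Agent.GR.CV
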