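import Pool.Agent.Lib.MP_aa40d3_nt.CV.SepB
import Pool.Agent.Lib.MP_aa40d3_nt.CV.SigP

/-! Frames for the direct image. -/

open Polynomial Matrix
open scoped Polynomial.Bivariate

namespace Pool.Agent.GR.CV

variable {r d : ℕ} {S : Sys ℂ r} {q : ℂ[X][Y]} {δ : ℂ[X]} {x : LL}

theorem om_dL (y : LL) : (Om r d y).map dL = dL y • Om' r d y := by
  refine Matrix.ext fun a j => ?_
  simp only [Om, Om', Matrix.map_apply, Matrix.of_apply, Matrix.smul_apply, smul_eq_mul]
  split_ifs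
  · rw [dL_pow]; ring
  · rw [dL_zero, mul_zero]

theorem pushl_C (x y : LL) (c : ℂ[X]) : aevalAeval x y (C c) = ev x c := by
  rw [ev_apply]; simp

theorem pushl_Y (x y : LL) : aevalAeval x y (Y : ℂ[X][Y]) = y := by
  simp

/-- Differentiate `P(x, y) = 0` (`dL_aeval2`) and multiply by `q(x, y)`. -/
theorem Prep.der (h : Prep S d q δ) {y : LL} (hy : aevalAeval x y S.P = 0) :
    ev x δ * dL y = -(aevalAeval x y (q * dX S.P) * dL x) := by
  obtain ⟨-, -, w, hw⟩ := h
  have h1 := dL_aeval2 x y S.P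
  rw [hy, dL_zero] at h1
  have h2 := congrArg (aevalAeval x y) hw
  rw [map_mul, map_sub, map_mul, hy, zero_mul, pushl_C] at h2
  rw [map_mul]
  linear_combination -dL y * h2 - aevalAeval x y q * h1

theorem pushl_blk (G B : Fin d → Matrix (Fin r) (Fin r) LL) (j : Fin d)
    (A : Matrix (Fin r) (Fin r) LL) (u v : LL)
    (h : u • (sL • (G j).map dL + G j * B j) = v • (A * G j)) :
    u • (sL • (blk G j).map dL + blk G j * bd B) = v • (A * blk G j) := by
  rw [blk_mul_bd, mul_blk]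
  refine Matrix.ext fun a i => ?_
  have h1 := congrFun (congrFun h a) (co i)
  simp only [blk, Matrix.map_apply, Matrix.of_apply, Matrix.smul_apply, Matrix.add_apply,
    smul_eq_mul] at h1 ⊢
  split_ifs
  · exact h1
  · rw [dL_zero]; ring

theorem pushl_alg {Ω m n : Type} [CommRing Ω] [Fintype m] [Fintype n] {O O' Bk Bk' : Matrix m n Ω}
    {U U' Bd Pb : Matrix n n Ω} {A : Matrix m m Ω} {e D s x' y' w : Ω} (hU : O * U = Bk)
    (h1 : O * Pb = e • (A * O) + (D * w) • O') (h2 : y' • O' * U + O * U' = Bk')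
    (h3 : D • (s • Bk' + Bk * Bd) = (s * x') • (A * Bk)) (h4 : e * y' = -(w * x')) :
    O * (e * D) • (s • U' + U * Bd) = O * (s * x') • (Pb * U) := by
  rw [Matrix.mul_smul, Matrix.mul_smul, Matrix.mul_add, Matrix.mul_smul, ← Matrix.mul_assoc,
    ← Matrix.mul_assoc, h1, hU, Matrix.add_mul, Matrix.smul_mul, Matrix.smul_mul,
    Matrix.mul_assoc, hU, eq_sub_of_add_eq' h2, Matrix.smul_mul]
  refine Matrix.ext fun a i => ?_
  have h5 := congrFun (congrFun h3 a) i
  simp only [Matrix.smul_apply, Matrix.add_apply, Matrix.sub_apply, smul_eq_mul] at h5 ⊢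
  linear_combination e * h5 - D * s * (O' * U) a i * h4

theorem pushl_alg2 {Ω m n : Type} [CommRing Ω] [Fintype n] {O Bk : Matrix m n Ω}
    {U Pm Dg : Matrix n n Ω} {y : Ω} (hU : O * U = Bk) (h1 : O * Pm = y • O)
    (h2 : Bk * Dg = y • Bk) : O * (Pm * U) = O * (U * Dg) := by
  rw [← Matrix.mul_assoc, ← Matrix.mul_assoc, h1, Matrix.smul_mul, hU, h2]

/-- Take `U` from `om_surj`. Multiply both equations by `Om r d (y j)` (`om_inj`); differentiate
`Om r d (y j) * U = blk G j`; `om_pB`, `om_pM` for `ψ = aevalAeval x (y j)`. -/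
theorem push_loc (h : Prep S d q δ) {y : Fin d → LL} (hy : Function.Injective y)
    {G B : Fin d → Matrix (Fin r) (Fin r) LL} (hG : ∀ j, LocG S x (y j) (G j) (B j)) :
    ∃ U : LM (r * d), MSol (δ * S.D) (pB S d q δ) x U (bd B) ∧
      ((pM S d).map (ev x) * U = U * diagonal fun i => y (sh i)) ∧
      ∀ j, Om r d (y j) * U = blk G j := by
  obtain ⟨U, hU⟩ := om_surj (r := r) hy (fun j => blk G j)
  have hC : ∀ j, (fun c : ℂ[X] => (aevalAeval x (y j) : ℂ[X][Y] →ₐ[ℂ] LL).toRingHom (C c)) =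
      ev x := fun j => funext fun c => pushl_C x (y j) c
  have hY : ∀ j, (aevalAeval x (y j) : ℂ[X][Y] →ₐ[ℂ] LL).toRingHom Y = y j :=
    fun j => pushl_Y x (y j)
  refine ⟨U, ⟨det_ne_of_blk (fun j => (hG j).2.1) hU, om_inj hy fun j => ?_⟩,
    om_inj hy fun j => ?_, hU⟩
  · have h1 := om_pB h (aevalAeval x (y j) : ℂ[X][Y] →ₐ[ℂ] LL).toRingHom (hG j).1
    rw [hC, hY] at h1
    have h1' : Om r d (y j) * (pB S d q δ).map (ev x) =
        ev x δ • (S.A.map (aevalAeval x (y j)) * Om r d (y j)) +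
          (ev x S.D * aevalAeval x (y j) (q * dX S.P)) • Om' r d (y j) := by
      rw [h1, ← pushl_C x (y j) δ, ← pushl_C x (y j) S.D, ← map_mul]
      rfl
    have h2 := congrArg (fun V => Matrix.map V dL) (hU j)
    simp only [map_dL_mul, om_dL] at h2
    rw [map_mul]
    exact pushl_alg (hU j) h1' h2 (pushl_blk G B j _ _ _ (hG j).2.2) (h.der (hG j).1)
  · have h1 := om_pM h (aevalAeval x (y j) : ℂ[X][Y] →ₐ[ℂ] LL).toRingHom (hG j).1
    rw [hC, hY] at h1
    exact pushl_alg2 (hU j) h1 (blk_mul_diagonal G j y)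

end Pool.Agent.GR.CV
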