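import Pool.Agent.Lib.MP_aa40d3_nt.CV.Push

/-! The connection in coordinates. -/

open Polynomial Matrix
open scoped Polynomial.Bivariate

namespace Pool.Agent.GR.CV

variable {R : Type} [CommRing R] {r d : ℕ} {S : Sys R r} {q : R[X][Y]} {δ : R[X]}

/-- `q • nab u` is, modulo `P`, the expression with `δ`. -/
theorem Prep.nab (h : Prep S d q δ) (u : Fin r → R[X][Y]) (a : Fin r) :
    S.P ∣ q * S.nab u a -
      (C S.D * (C δ * dX (u a) - q * dX S.P * derivative (u a)) - C δ * (S.A *ᵥ u) a) := by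
  have e : q * S.nab u a -
      (C S.D * (C δ * dX (u a) - q * dX S.P * derivative (u a)) - C δ * (S.A *ᵥ u) a) =
      (q * derivative S.P - C δ) * (C S.D * dX (u a) - (S.A *ᵥ u) a) := by
    simp only [Sys.nab, Pi.sub_apply, Pi.smul_apply, smul_eq_mul]
    ring
  rw [e]
  exact h.2.2.mul_right _

/-- The operator respects congruences. -/
theorem nab_congr (S : Sys R r) {u v : Fin r → R[X][Y]} (h : ∀ a, S.P ∣ u a - v a) (a : Fin r) :
    S.P ∣ S.nab u a - S.nab v a := by
  choose c hc using h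
  have hu : u = v + fun b => S.P * c b := funext fun b => by
    rw [Pi.add_apply, ← hc b]
    ring
  have hA : S.P ∣ (S.A *ᵥ fun b => S.P * c b) a := by
    rw [mulVec, dotProduct]
    exact Finset.dvd_sum fun b _ => (dvd_mul_right _ _).mul_left _
  have e : S.nab u a - S.nab v a =
      S.P * (C S.D * (derivative S.P * dX (c a) - dX S.P * derivative (c a))) -
        derivative S.P * (S.A *ᵥ fun b => S.P * c b) a := by
    rw [hu]
    simp only [Sys.nab, Pi.sub_apply, Pi.smul_apply, smul_eq_mul, mulVec_add, Pi.add_apply, dX_add,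
      dX_mul, derivative_add, derivative_mul]
    ring
  rw [e]
  exact dvd_sub (dvd_mul_right _ _) (hA.mul_left _)

/-- The vector with coordinates `u`. -/
noncomputable def asm (r d : ℕ) (u : Fin (r * d) → R[X]) : Fin r → R[X][Y] :=
  fun a => ∑ k : Fin d, C (u (ix a k)) * Y ^ (k : ℕ)

theorem pushn_om {Ω : Type} [CommRing Ω] (ψ : R[X][Y] →+* Ω) (u : Fin (r * d) → R[X]) (a : Fin r) :
    ψ (asm r d u a) = (Om r d (ψ Y) *ᵥ fun i => ψ (C (u i))) a := by
  rw [asm, mulVec, dotProduct, sum_ix, map_sum, Finset.sum_eq_single a]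
  · refine Finset.sum_congr rfl fun k _ => ?_
    rw [map_mul, map_pow, mul_comm]
    simp [Om]
  · intro b _ hb
    refine Finset.sum_eq_zero fun k _ => ?_
    simp [Om, hb.symm]
  · simp

theorem pushn_om' {Ω : Type} [CommRing Ω] (ψ : R[X][Y] →+* Ω) (u : Fin (r * d) → R[X])
    (a : Fin r) :
    ψ (derivative (asm r d u a)) = (Om' r d (ψ Y) *ᵥ fun i => ψ (C (u i))) a := by
  rw [asm, mulVec, dotProduct, sum_ix, derivative_sum, map_sum, Finset.sum_eq_single a]
  · refine Finset.sum_congr rfl fun k _ => ?_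
    rw [derivative_C_mul, derivative_X_pow, map_mul, mul_comm]
    simp [Om']
  · intro b _ hb
    refine Finset.sum_eq_zero fun k _ => ?_
    simp [Om', hb.symm]
  · simp

theorem pushn_mulVec {Ω : Type} [CommRing Ω] (ψ : R[X][Y] →+* Ω)
    (B : Matrix (Fin (r * d)) (Fin (r * d)) R[X]) (u : Fin (r * d) → R[X]) :
    (fun i => ψ (C ((B *ᵥ u) i))) = B.map (fun c => ψ (C c)) *ᵥ fun i => ψ (C (u i)) :=
  funext fun i => RingHom.map_mulVec (ψ.comp C) B u i

theorem pushn_dX (u : Fin (r * d) → R[X]) (c : R[X]) (a : Fin r) :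
    asm r d (c • fun i => derivative (u i)) a = C c * dX (asm r d u a) := by
  rw [asm, asm, dX_sum, Finset.mul_sum]
  refine Finset.sum_congr rfl fun k _ => ?_
  rw [dX_mul, dX_C, dX_Y_pow, Pi.smul_apply, smul_eq_mul, C_mul]
  ring

theorem pushn_sub (u v : Fin (r * d) → R[X]) (a : Fin r) :
    asm r d (u - v) a = asm r d u a - asm r d v a := by
  rw [asm, asm, asm, ← Finset.sum_sub_distrib]
  refine Finset.sum_congr rfl fun k _ => ?_
  rw [Pi.sub_apply, C_sub, sub_mul]

/-- The connection in coordinates: `Prep.nab`, and `om_pB` for `ψ = AdjoinRoot.mk S.P`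
(`AdjoinRoot.mk_eq_mk`). -/
theorem Prep.asm_nab (h : Prep S d q δ) (u : Fin (r * d) → R[X]) (a : Fin r) :
    S.P ∣ q * S.nab (asm r d u) a -
      asm r d (((δ * S.D) • fun i => derivative (u i)) - pB S d q δ *ᵥ u) a := by
  have h1 := h.nab (asm r d u) a
  have h2 : S.P ∣ asm r d (pB S d q δ *ᵥ u) a - (C δ * (S.A *ᵥ asm r d u) a +
      C S.D * (q * dX S.P) * derivative (asm r d u a)) := by
    rw [← AdjoinRoot.mk_eq_mk, pushn_om, pushn_mulVec, mulVec_mulVec,
      om_pB h _ AdjoinRoot.mk_self, add_mulVec, smul_mulVec, smul_mulVec, ← mulVec_mulVec, map_add,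
      map_mul _ (C δ), map_mul _ _ (derivative _), pushn_om', RingHom.map_mulVec]
    have e : (AdjoinRoot.mk S.P) ∘ asm r d u =
        Om r d (AdjoinRoot.mk S.P Y) *ᵥ fun i => AdjoinRoot.mk S.P (C (u i)) :=
      funext fun b => pushn_om _ u b
    rw [e]
    rfl
  have h3 := dvd_add h1 h2
  rw [pushn_sub, pushn_dX, C_mul]
  convert h3 using 1
  ring

theorem Prep.asm_mul (h : Prep S d q δ) (u : Fin (r * d) → R[X]) (a : Fin r) :
    S.P ∣ Y * asm r d u a - asm r d (pM S d *ᵥ u) a := by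
  rw [← AdjoinRoot.mk_eq_mk, map_mul, pushn_om, pushn_om, pushn_mulVec, mulVec_mulVec,
    om_pM h _ AdjoinRoot.mk_self, smul_mulVec]
  rfl

theorem Prep.exists_asm (h : Prep S d q δ) (v : Fin r → R[X][Y]) :
    ∃ u, ∀ a, S.P ∣ v a - asm r d u a := by
  refine ⟨fun i => (v (co i) %ₘ S.P).coeff (sh i), fun a => ?_⟩
  simpa [asm] using mod_expand h.1 h.2.1 (v a)

theorem Prep.asm_inj (h : Prep S d q δ) {u : Fin (r * d) → R[X]} (hu : ∀ a, S.P ∣ asm r d u a) :
    u = 0 := by
  funext i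
  have := congrFun (eq_zero_of_dvd h.1 h.2.1 (c := fun k => u (ix (co i) k)) (hu (co i))) (sh i)
  simpa using this

end Pool.Agent.GR.CV
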