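import Pool.Agent.Lib.MP_aa40d3_nt.CV.GauL
import Pool.Agent.Lib.MP_aa40d3_nt.CV.Exp

/-! Residues. -/

open Polynomial Matrix
open scoped Polynomial.Bivariate

namespace Pool.Agent.GR.CV

variable {N r : ℕ} {δ : ℂ[X]} {Q : PM N} {t : ℂ} {U : LM N}

theorem res_ex (x : LL) (U : LM N) (c : Fin N → ℂ) (j : Fin N) :
    ex x U (fun i => C (c i)) j = ∑ i, algebraMap ℂ LL (c i) * U i j := by
  simp only [ex, vecMul, dotProduct, ev_C]

theorem res_coeff (x : LL) (U : LM N) (c : Fin N → ℂ) (j : Fin N) (k : ℤ) :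
    (ex x U (fun i => C (c i)) j).coeff k = ∑ i, c i * (U i j).coeff k := by
  rw [res_ex, HahnSeries.coeff_sum]
  exact Finset.sum_congr rfl fun i _ => coeff_alg_mul _ _ _

theorem res_ov (x : LL) (hU : ∀ i j, Ov 0 (U i j)) (c : Fin N → ℂ) (j : Fin N) :
    Ov 0 (ex x U (fun i => C (c i)) j) := by
  rw [res_ex]
  exact Ov.sum fun i _ => (ov_alg _).mul_left (hU i j)

theorem res_eval (Q : PM N) (t : ℂ) (l : Fin N → ℂ[X]) (j : Fin N) :
    ((l ᵥ* Q) j).eval t = ((fun i => (l i).eval t) ᵥ* Q.map (eval t)) j := by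
  simp only [vecMul, dotProduct, eval_finsetSum, eval_mul, map_apply]

theorem res_eval_th (hδ : δ.eval t = 0) (l : Fin N → ℂ[X]) :
    (fun j => (th δ Q l j).eval t) = (fun i => (l i).eval t) ᵥ* Q.map (eval t) := by
  funext j
  rw [th, Pi.add_apply, eval_add, res_eval, Pi.smul_apply, smul_eq_mul, eval_mul, hδ, zero_mul,
    zero_add]

theorem res_rank {e : ℕ} (hδ : δ.eval t = 0) (hU : Det t e U) (J : Finset (Fin N)) (k : ℤ)
    (h : ∀ c : Fin N → ℂ, (∀ j ∈ J, (ex (xt t e) U (fun i => C (c i)) j).coeff k = 0) →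
      ∀ j, Ov e (ex (xt t e) U (th δ Q fun i => C (c i)) j)) :
    (Q.map (eval t)).rank ≤ J.card := by
  rw [← Fintype.card_coe J]
  refine rank_le_card (Matrix.of fun i (j : J) => (U i j).coeff k).vecMulLinear fun c hc => ?_
  have h1 := res_eval_th (Q := Q) hδ fun i => C (c i)
  simp only [eval_C] at h1
  rw [← h1]
  refine funext (hU.2 _ (h c fun j hj => ?_))
  rw [res_coeff]
  exact congrFun hc ⟨j, hj⟩

theorem res_two {m : ℤ} {f : LL} (h : Ov m (2 * f)) : Ov m f := by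
  intro k hk
  have h1 := h k hk
  rw [← map_ofNat (algebraMap ℂ LL) 2, coeff_alg_mul] at h1
  exact (mul_eq_zero.1 h1).resolve_left two_ne_zero

/-- Write `δ = (X - C t) * u`. For a constant row `c` with expansion `v`, `MSol.ex_th` and
`th_const` give `ex (c ᵥ* Q) = u • (s v_s + v ᵥ* Cm)`. If the constant coefficients of the `v j`,
`j ∈ J`, vanish, this satisfies `Ov 1`. `rank_le_card`. -/
theorem res_P (hδ : δ.eval t = 0) (h : TP r δ Q t U) (hU : Det t 1 U) :
    (Q.map (eval t)).rank ≤ r := by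
  obtain ⟨Cm, J, hJ, hC, hC0, hS⟩ := h
  obtain ⟨u, rfl⟩ := dvd_iff_isRoot.2 hδ
  refine (res_rank hδ hU J 0 fun c hc j => ?_).trans hJ
  have hv := res_ov (xt t 1) hU.1 c
  have h1 := congrFun (hS.ex_th fun i => C (c i)) j
  rw [Pi.smul_apply, Pi.smul_apply, smul_eq_mul, smul_eq_mul, sdL_xt, map_mul, ev_xt_X_sub,
    Nat.cast_one, one_mul, mul_assoc] at h1
  rw [mul_left_cancel₀ (pow_ne_zero 1 sL_ne) h1]
  refine (ov_ev t 1 u).mul_left (Ov.add (hv j).sder_one (Ov.sum fun i _ => ?_))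
  by_cases hi : i ∈ J
  · exact ((hv i).succ (hc i hi)).mul_right (hC i j)
  · simp only [hC0 i hi j, mul_zero]
    exact Ov.zero _

/-- `MSol.ex_th`, `sdL_xt`, `ev_xt_X_sub`; cancel `sL ^ 2`. -/
theorem res_th {u : ℂ[X]} (h : MSol ((X - C t) * u) Q (xt t 2) U 0) (l : Fin N → ℂ[X])
    (j : Fin N) : 2 * ex (xt t 2) U (th ((X - C t) * u) Q l) j =
      ev (xt t 2) u * (sL * dL (ex (xt t 2) U l j)) := by
  have h1 := congrFun (h.ex_th l) j
  rw [Pi.smul_apply, Pi.smul_apply, smul_eq_mul, smul_eq_mul, sdL_xt, map_mul, ev_xt_X_sub,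
    vecMul_zero, add_zero, Nat.cast_ofNat, mul_comm 2, mul_assoc, mul_assoc] at h1
  exact mul_left_cancel₀ (pow_ne_zero 2 sL_ne) h1

/-- Now `sg (v j) = v (π j)`, so all coefficients of `s` vanish if this holds for `j ∈ J`, and then
`s v_s` satisfies `Ov 2`. -/
theorem res_B (hδ : δ.eval t = 0) (h : TB r δ Q t U) (hU : Det t 2 U) :
    (Q.map (eval t)).rank ≤ r := by
  obtain ⟨hS, π, J, hJ, hπ, hJ'⟩ := h
  obtain ⟨u, rfl⟩ := dvd_iff_isRoot.2 hδ
  refine (res_rank hδ hU J 1 fun c hc j => ?_).trans hJ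
  have h1 : (ex (xt t 2) U (fun i => C (c i)) (π j)).coeff 1 =
      -(ex (xt t 2) U (fun i => C (c i)) j).coeff 1 := by
    rw [res_coeff, res_coeff, ← Finset.sum_neg_distrib]
    refine Finset.sum_congr rfl fun i _ => ?_
    rw [← hπ, sg_coeff, zpow_one, neg_one_mul, mul_neg]
  have h2 : (ex (xt t 2) U (fun i => C (c i)) j).coeff 1 = 0 := by
    by_cases hj : j ∈ J
    · exact hc j hj
    · rcases hJ' j hj with h3 | h3
      · rw [h3] at h1
        exact self_eq_neg.1 h1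
      · rw [hc _ h3] at h1
        exact neg_eq_zero.1 h1.symm
  refine res_two ?_
  rw [res_th hS]
  refine (ov_ev t 2 u).mul_left ((res_ov (xt t 2) hU.1 c j).sder_one.succ ?_)
  rw [sdL_coeff, h2, mul_zero]

/-- Let `v₁`, `v₂` be the expansions of `th c` and `th (th c)`, for a constant row `c`. By `res_th`,
`v₁` satisfies `Ov 1` and `2 v₂ = u * (s * (v₁)_s)`, which is `u(t) * v₁` modulo `s ^ 2`. Apply `hU` to
`th (th c) - C (u(t) / 2) • th c`; `δ'(t) = u(t)`. -/
theorem res_half (hδ : δ.eval t = 0) (h : MSol δ Q (xt t 2) U 0) (hU : Det t 2 U) :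
    Q.map (eval t) * Q.map (eval t) = ((derivative δ).eval t / 2) • Q.map (eval t) := by
  obtain ⟨u, rfl⟩ := dvd_iff_isRoot.2 hδ
  have hd : (derivative ((X - C t) * u)).eval t = u.eval t := by simp
  rw [hd]
  refine Matrix.ext_iff_vecMul.2 fun c => ?_
  have h0 := res_eval_th (Q := Q) hδ fun i => C (c i)
  simp only [eval_C] at h0
  have h1 : ∀ j, Ov 1 (ex (xt t 2) U (th ((X - C t) * u) Q fun i => C (c i)) j) := fun j => by
    refine res_two ?_
    rw [res_th h]
    exact (ov_ev t 2 u).mul_left (res_ov (xt t 2) hU.1 c j).sder_one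
  generalize (th ((X - C t) * u) Q fun i => C (c i)) = l at h0 h1
  have h2 := hU.2 (th ((X - C t) * u) Q l - C (u.eval t / 2) • l) fun j => by
    refine res_two ?_
    have e : (2 : LL) * algebraMap ℂ LL (u.eval t / 2) = algebraMap ℂ LL (u.eval t) := by
      rw [← map_ofNat (algebraMap ℂ LL) 2, ← map_mul, mul_div_cancel₀ _ two_ne_zero]
    have e' : 2 * ex (xt t 2) U (th ((X - C t) * u) Q l - C (u.eval t / 2) • l) j =
        (ev (xt t 2) u - algebraMap ℂ LL (u.eval t)) * (sL * dL (ex (xt t 2) U l j)) +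
          algebraMap ℂ LL (u.eval t) * (sL * dL (ex (xt t 2) U l j) - ex (xt t 2) U l j) := by
      rw [ex_sub, ex_smul, Pi.sub_apply, Pi.smul_apply, smul_eq_mul, mul_sub, res_th h, ev_C,
        ← mul_assoc 2, e]
      ring
    rw [e']
    refine ((ov_ev_sub t 2 u).mul_right ((h1 j).sder.mono zero_le_one)).add
      ((ov_alg _).mul_left (((h1 j).sder.sub (h1 j)).succ ?_))
    rw [HahnSeries.coeff_sub, sdL_coeff, Int.cast_one, one_mul, sub_self]
  rw [← vecMul_vecMul, vecMul_smul, ← h0, ← res_eval_th hδ]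
  funext j
  have h3 := h2 j
  rwa [Pi.sub_apply, eval_sub, sub_eq_zero, Pi.smul_apply, smul_eq_mul, eval_mul, eval_C] at h3

end Pool.Agent.GR.CV
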