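import Pool.Agent.Lib.MP_aa40d3_nt.CV.PushN

/-! Separability and Vandermonde systems. -/

open Polynomial Matrix
open scoped Polynomial.Bivariate

namespace Pool.Agent.GR.CV

variable {r d : ℕ}

theorem sep_eval (x y : LL) (p : ℂ[X][Y]) : aevalAeval x y p = (p.map (ev x)).eval y := by
  induction p using Polynomial.induction_on' with
  | add p q hp hq => rw [map_add, Polynomial.map_add, eval_add, hp, hq]
  | monomial n a =>
    rw [← C_mul_X_pow_eq_monomial, map_mul, map_pow, aevalAeval_C, aevalAeval_Y,
      Polynomial.map_mul, Polynomial.map_pow, map_C, map_X, eval_mul, eval_pow, eval_C, eval_X,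
      ev_apply]

theorem sep_res {K : Type} [Field K] {f : K[X]} (hf : f.Monic) (hd : f.natDegree = d)
    {y : Fin d → K} (hy : Function.Injective y) (h : ∀ j, f.eval (y j) = 0) :
    f.resultant (derivative f) d (d - 1) ≠ 0 := by
  have h1 : ∏ j, (X - C (y j)) ∣ f :=
    Finset.prod_dvd_of_coprime ((pairwise_coprime_X_sub_C hy).set_pairwise _)
      fun j _ => dvd_iff_isRoot.2 (h j)
  have h2 : f = ∏ j, (X - C (y j)) :=
    eq_of_monic_of_dvd_of_natDegree_le (monic_prod_X_sub_C _ _) hf h1 (by
      rw [natDegree_finsetProd_X_sub_C_eq_card, Finset.card_univ, Fintype.card_fin, hd])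
  have h3 : f.Separable := by
    rw [h2]
    exact separable_prod_X_sub_C_iff.2 hy
  have h4 : f.resultant (derivative f) ≠ 0 := resultant_ne_zero _ _ h3
  have h5 : (derivative f).natDegree ≤ d - 1 := hd ▸ natDegree_derivative_le f
  obtain ⟨k, hk⟩ := Nat.exists_eq_add_of_le h5
  rw [hk, resultant_add_right_deg _ _ _ _ _ le_rfl, ← hd, coeff_natDegree, hf.leadingCoeff,
    one_pow, one_mul]
  exact h4

/-- `δ` is the resultant of `P` and `P_y` (`exists_mul_add_mul_eq_C_resultant` with degrees `d` and
`d - 1`). Its image in `LL` is the resultant of the images (`resultant_map_map`); the image of `P` is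
`∏ j, (X - C (y j))`, which is separable (`separable_prod_X_sub_C_iff`); `resultant_ne_zero` or
`resultant_eq_prod_eval`. -/
theorem exists_prep {R : Type} [CommRing R] (ι : R →+* ℂ) {S : Sys R r} (hP : S.P.Monic)
    (hd : S.P.natDegree = d) (h0 : d ≠ 0) {x : LL} {y : Fin d → LL} (hy : Function.Injective y)
    (h : ∀ j, aevalAeval x (y j) (S.map ι).P = 0) : ∃ q δ, Prep S d q δ ∧ δ.map ι ≠ 0 := by
  have h5 : (derivative S.P).natDegree ≤ d - 1 := hd ▸ natDegree_derivative_le S.P
  obtain ⟨p, q, -, -, e⟩ :=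
    exists_mul_add_mul_eq_C_resultant S.P (derivative S.P) hd.le h5 (Or.inl h0)
  refine ⟨q, S.P.resultant (derivative S.P) d (d - 1), ⟨hP, hd, -p, ?_⟩, fun hz => ?_⟩
  · rw [← e]
    ring
  · let φ : R[X] →+* LL := (ev x).comp (mapRingHom ι)
    have h1 := sep_res (f := S.P.map φ) (hP.map φ) ((hP.natDegree_map φ).trans hd) hy fun j => by
      have h2 := h j
      rw [sep_eval] at h2
      rw [← h2]
      simp only [φ, Sys.map, Polynomial.map_map]
    apply h1
    rw [derivative_map, resultant_map_map]
    simp only [φ, RingHom.comp_apply, coe_mapRingHom]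
    rw [hz, map_zero]

end Pool.Agent.GR.CV
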