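import Pool.Agent.Lib.MP_aa40d3_nt.CV.Sep

/-! Vandermonde systems. -/

open Polynomial Matrix
open scoped Polynomial.Bivariate

namespace Pool.Agent.GR.CV

variable {r d : ℕ}

variable {K γ : Type} [Field K] {y : Fin d → K}

/-- `om_mul` and `Matrix.eq_zero_of_forall_index_sum_pow_mul_eq_zero`. -/
theorem om_inj (hy : Function.Injective y) {U V : Matrix (Fin (r * d)) γ K}
    (h : ∀ j, Om r d (y j) * U = Om r d (y j) * V) : U = V := by
  ext i c
  have h0 := Matrix.eq_zero_of_forall_index_sum_pow_mul_eq_zero hy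
    (v := fun k => U (ix (co i) k) c - V (ix (co i) k) c) fun j => by
      have := congrFun (congrFun (h j) (co i)) c
      rw [om_mul, om_mul, ← sub_eq_zero, ← Finset.sum_sub_distrib] at this
      simpa only [mul_sub] using this
  have := congrFun h0 (sh i)
  simpa [sub_eq_zero] using this

/-- The Vandermonde matrix is invertible. -/
theorem om_surj (hy : Function.Injective y) (F : Fin d → Matrix (Fin r) γ K) :
    ∃ U : Matrix (Fin (r * d)) γ K, ∀ j, Om r d (y j) * U = F j := by
  have hd : IsUnit (vandermonde y).det := (det_vandermonde_ne_zero_iff.mpr hy).isUnit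
  refine ⟨Matrix.of fun i c => ((vandermonde y)⁻¹ *ᵥ fun j => F j (co i) c) (sh i), fun j => ?_⟩
  ext a c
  have := congrFun (mulVec_mulVec (fun j => F j a c) (vandermonde y) (vandermonde y)⁻¹) j
  rw [mul_nonsing_inv _ hd, one_mulVec] at this
  rw [om_mul, ← this]
  simp only [of_apply, co_ix, sh_ix]
  rfl

theorem blk_mulVec (G : Fin d → Matrix (Fin r) (Fin r) K) (j : Fin d) (c : Fin (r * d) → K) :
    blk G j *ᵥ c = G j *ᵥ fun a => c (ix a j) := by
  funext a
  rw [mulVec, mulVec, dotProduct, dotProduct, sum_ix]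
  refine Finset.sum_congr rfl fun b _ => ?_
  simp [blk]

theorem blk_mul_bd (G B : Fin d → Matrix (Fin r) (Fin r) K) (j : Fin d) :
    blk G j * bd B = blk (fun k => G k * B k) j := by
  ext a i
  rw [mul_apply, sum_ix]
  by_cases hi : sh i = j
  · simp [blk, bd, hi, mul_apply]
  · simp [blk, bd, hi]

theorem mul_blk (G : Fin d → Matrix (Fin r) (Fin r) K) (j : Fin d) (A : Matrix (Fin r) (Fin r) K) :
    A * blk G j = blk (fun _ => A * G j) j := by
  ext a i
  by_cases hi : sh i = j <;> simp [blk, mul_apply, hi]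

theorem blk_mul_diagonal (G : Fin d → Matrix (Fin r) (Fin r) K) (j : Fin d) (f : Fin d → K) :
    (blk G j * diagonal fun i => f (sh i)) = f j • blk G j := by
  ext a i
  refine (mul_diagonal (fun i => f (sh i)) (blk G j) a i).trans ?_
  rw [Matrix.smul_apply, smul_eq_mul, mul_comm]
  by_cases hi : sh i = j <;> simp [blk, hi]

/-- The same statement, with the usual instance of the matrix product (suitable for `rw`). -/
theorem sepb_blk_mul_diagonal (G : Fin d → Matrix (Fin r) (Fin r) K) (j : Fin d) (f : Fin d → K) :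
    blk G j * (diagonal fun i : Fin (r * d) => f (sh i)) = f j • blk G j :=
  blk_mul_diagonal G j f

/-- If `U *ᵥ c = 0`, then `G j *ᵥ (fun a => c (ix a j)) = 0` for all `j`. -/
theorem det_ne_of_blk {G : Fin d → Matrix (Fin r) (Fin r) K} (hG : ∀ j, (G j).det ≠ 0)
    {U : Matrix (Fin (r * d)) (Fin (r * d)) K} (h : ∀ j, Om r d (y j) * U = blk G j) :
    U.det ≠ 0 := by
  intro h0
  obtain ⟨c, hc, hU⟩ := Matrix.exists_mulVec_eq_zero_iff.mpr h0
  refine hc (funext fun i => ?_)
  have h1 : G (sh i) *ᵥ (fun a => c (ix a (sh i))) = 0 := by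
    rw [← blk_mulVec, ← h, ← mulVec_mulVec, hU, mulVec_zero]
  simpa using congrFun (Matrix.eq_zero_of_mulVec_eq_zero (hG _) h1) (co i)

end Pool.Agent.GR.CV
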