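import Pool.Agent.Lib.MP_aa40d3_nt.CV.Pol

/-! The substitutions `s ↦ -s` and `s ↦ s ^ 2`. -/

open Polynomial Matrix
open scoped Polynomial.Bivariate

namespace Pool.Agent.GR.CV

theorem sg_add (f g : LL) : sg (f + g) = sg f + sg g := by
  ext k
  simp only [sg_coeff, HahnSeries.coeff_add, mul_add]

/-- `HahnSeries.coeff_mul_left'`, `coeff_mul_right'`; the support of `sg f` lies in that of `f`. -/
theorem sg_mul (f g : LL) : sg (f * g) = sg f * sg g := by
  ext k
  have hs : ∀ h : LL, (sg h).support ⊆ h.support := fun h k hk h0 => hk (by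
    rw [sg_coeff, h0, mul_zero])
  rw [HahnSeries.coeff_mul_left' f.isPWO_support (hs f), sg_coeff,
    HahnSeries.coeff_mul_left' f.isPWO_support (fun _ h => h)]
  have h1 : ∀ (u : LL) (_ : u.support ⊆ g.support) (v : LL),
      ∑ ij ∈ Finset.antidiagonal f.isPWO_support u.isPWO_support k,
        v.coeff ij.1 * u.coeff ij.2 =
      ∑ ij ∈ Finset.antidiagonal f.isPWO_support g.isPWO_support k,
        v.coeff ij.1 * u.coeff ij.2 := by
    intro u hu v
    refine Finset.sum_subset (Finset.antidiagonal_mono_right hu) fun ij hij hn => ?_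
    rw [Finset.mem_antidiagonal] at hij hn
    have : u.coeff ij.2 = 0 := by
      by_contra hc
      exact hn ⟨hij.1, hc, hij.2.2⟩
    rw [this, mul_zero]
  rw [h1 (sg g) (hs g), Finset.mul_sum]
  refine Finset.sum_congr rfl fun ij hij => ?_
  rw [Finset.mem_antidiagonal] at hij
  rw [sg_coeff, sg_coeff, ← hij.2.2, zpow_add₀ (by norm_num : (-1 : ℂ) ≠ 0)]
  ring

theorem sg_alg (c : ℂ) : sg (algebraMap ℂ LL c) = algebraMap ℂ LL c := by
  ext k
  rw [sg_coeff, alg_eq, HahnSeries.coeff_single]
  split_ifs with h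
  · simp [h]
  · simp

/-- The substitution `s ↦ -s` as a ring homomorphism. -/
noncomputable def sgH : LL →+* LL where
  toFun := sg
  map_one' := by simpa using sg_alg 1
  map_mul' := sg_mul
  map_zero' := by simpa using sg_alg 0
  map_add' := sg_add

theorem sgH_apply (f : LL) : sgH f = sg f := rfl

theorem sg_sg (f : LL) : sg (sg f) = f := by
  ext k
  rw [sg_coeff, sg_coeff, ← mul_assoc, ← mul_zpow]
  simp

theorem sg_sL : sg sL = -sL := by
  ext k
  rw [sg_coeff, HahnSeries.coeff_neg, sL, HahnSeries.coeff_single]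
  split_ifs with h
  · simp [h]
  · simp

theorem sg_xt (t : ℂ) : sg (xt t 2) = xt t 2 := by
  rw [xt, sg_add, sg_alg, pow_two, sg_mul, sg_sL]
  ring

theorem sg_sdL (f : LL) : sg (sL * dL f) = sL * dL (sg f) := by
  ext k
  rw [sg_coeff, sdL_coeff, sdL_coeff, sg_coeff]
  ring

theorem sg_ev (x : LL) (p : ℂ[X]) : sg (ev x p) = ev (sg x) p := by
  induction p using Polynomial.induction_on with
  | C c => rw [ev_apply, ev_apply, aeval_C, aeval_C, sg_alg]
  | add p q hp hq => rw [map_add, map_add, sg_add, hp, hq]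
  | monomial k c h =>
    rw [pow_succ, ← mul_assoc, map_mul, map_mul (ev (sg x)), sg_mul, h, ev_apply x X,
      ev_apply (sg x) X, aeval_X, aeval_X]

theorem sg_aeval2 (x y : LL) (p : ℂ[X][Y]) :
    sg (aevalAeval x y p) = aevalAeval (sg x) (sg y) p := by
  induction p using Polynomial.induction_on with
  | C c => rw [aevalAeval_C, aevalAeval_C]; exact sg_ev x c
  | add p q hp hq => rw [map_add, map_add, sg_add, hp, hq]
  | monomial k c h =>
    rw [pow_succ, ← mul_assoc, map_mul, map_mul (aevalAeval (sg x) (sg y)), sg_mul, h,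
      aevalAeval_Y, aevalAeval_Y]

theorem sg_ne {f : LL} {k : ℤ} (hk : Odd k) (h : f.coeff k ≠ 0) : sg f ≠ f := by
  intro he
  have h1 := congrArg (fun u : LL => u.coeff k) he
  simp only [sg_coeff, hk.neg_one_zpow] at h1
  apply h
  linear_combination (-1 / 2 : ℂ) * h1

end Pool.Agent.GR.CV
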