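import Mathlib

/-! Definitions used in the statement: linear systems on a plane curve. -/

open Polynomial Matrix
open scoped Polynomial.Bivariate

namespace Pool.Agent.GR.CV

/-- The system `D(x) dZ/dx = A(x, y) Z` of rank `r` on the curve `P(x, y) = 0`. -/
structure Sys (R : Type) [CommRing R] (r : ℕ) : Type where
  P : R[X][Y]
  D : R[X]
  A : Matrix (Fin r) (Fin r) R[X][Y]

variable {R R' : Type} [CommRing R] [CommRing R'] {r : ℕ}

/-- Apply a ring homomorphism to all coefficients. -/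
noncomputable def Sys.map (S : Sys R r) (φ : R →+* R') : Sys R' r :=
  ⟨S.P.map (mapRingHom φ), S.D.map φ, S.A.map (Polynomial.map (mapRingHom φ))⟩

/-- The derivative with respect to `x`. -/
noncomputable def dX (p : R[X][Y]) : R[X][Y] := p.sum fun k c => monomial k (derivative c)

/-- `P_y (D du/dx - A u)` on the curve, where `P_y du/dx = P_y u_x - P_x u_y`. -/
noncomputable def Sys.nab (S : Sys R r) (u : Fin r → R[X][Y]) : Fin r → R[X][Y] :=
  (fun a => C S.D * (derivative S.P * dX (u a) - dX S.P * derivative (u a))) -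
    derivative S.P • S.A *ᵥ u

/-- A fundamental matrix of solutions that are functions on the curve. -/
def Sys.Fund (S : Sys R r) : Prop :=
  ∃ Φ : Matrix (Fin r) (Fin r) R[X][Y], (∃ q c, c ≠ 0 ∧ S.P ∣ q * Φ.det - C c) ∧
    ∀ a b, S.P ∣ S.nab (fun i => Φ i b) a

/-- The local parameter `s`. -/
noncomputable def sL : LaurentSeries ℂ := HahnSeries.single 1 1

/-- The series `t + s ^ e`. -/
noncomputable def xt (t : ℂ) (e : ℕ) : LaurentSeries ℂ := algebraMap ℂ _ t + sL ^ e

/-- `(x, y)` is a branch of the curve on which the system has a fundamental matrix of Laurent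
series. -/
def Sys.Loc (S : Sys ℂ r) (x y : LaurentSeries ℂ) : Prop :=
  aevalAeval x y S.P = 0 ∧ ∃ G : Matrix (Fin r) (Fin r) (LaurentSeries ℂ), G.det ≠ 0 ∧
    aeval x S.D • G.map (LaurentSeries.derivative ℂ) =
      LaurentSeries.derivative ℂ x • (S.A.map (aevalAeval x y) * G)

/-- There are `m` such branches over `x`. -/
def Sys.Unr (S : Sys ℂ r) (x : LaurentSeries ℂ) (m : ℕ) : Prop :=
  ∃ y : Fin m → LaurentSeries ℂ, Function.Injective y ∧ ∀ j, S.Loc x (y j)

/-- A simple branch point. -/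
def Sys.Bra (S : Sys ℂ r) (d : ℕ) (t : ℂ) : Prop :=
  S.Unr (xt t 1) (d - 2) ∧ ∃ y, S.Loc (xt t 2) y ∧ ∃ k, Odd k ∧ y.coeff k ≠ 0

/-- On some disc there are a branch of the curve and a fundamental matrix of solutions all of whose
entries are algebraic functions. -/
def Sys.Alg (S : Sys ℂ r) : Prop :=
  ∃ (x₀ : ℂ) (ε : ℝ) (y : ℂ → ℂ) (Z : ℂ → Matrix (Fin r) (Fin r) ℂ), 0 < ε ∧
    (∀ x ∈ Metric.ball x₀ ε, DifferentiableAt ℂ y x ∧ S.P.evalEval x (y x) = 0 ∧
      S.D.eval x ≠ 0 ∧ (Z x).det ≠ 0 ∧ ∀ a b, HasDerivAt (fun z => Z z a b)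
        (((S.D.eval x)⁻¹ • (S.A.map (evalEval x (y x)) * Z x)) a b) x) ∧
    ∀ a b, ∃ Q : ℂ[X][Y], Q ≠ 0 ∧ ∀ x ∈ Metric.ball x₀ ε, Q.evalEval x (Z x a b) = 0

end Pool.Agent.GR.CV
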