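import Pool.Agent.Lib.MP_aa40d3_nt.CV.Lau
import Pool.Agent.Lib.MP_aa40d3_nt.CV.GauT

/-! The algebra of the covering. -/

open Polynomial Matrix
open scoped Polynomial.Bivariate

namespace Pool.Agent.GR.CV

section
variable {R K : Type} [CommRing R] [Field K] (φ : R →+* K) {N : ℕ}
  {Φ Φ' B : Matrix (Fin N) (Fin N) R} {U U' : Matrix (Fin N) (Fin N) K} {f g : Fin N → K}

theorem wd_diag (a : K) (f : Fin N → K) : (diagonal fun j => a * f j) = a • diagonal f := by
  rw [← diagonal_smul]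
  rfl

theorem wd_stab {δ : R} {s t : K} (hx : s * t ≠ 0) (hf : Φ.map φ * U = U * diagonal f)
    (hd : t • Φ'.map φ * U + Φ.map φ * U' = U' * diagonal f + U * diagonal g)
    (hU : φ δ • (s • U' + U * 0) = (s * t) • (B.map φ * U)) :
    (δ • Φ' - (B * Φ - Φ * B)).map φ * U = U * diagonal fun j => φ δ * s / (s * t) * g j := by
  refine smul_right_injective _ hx ?_
  rw [Matrix.mul_zero, add_zero, smul_smul] at hU
  have h1 := congrArg (Φ.map φ * ·) hU
  have h2 := congrArg (· * diagonal f) hU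
  simp only [Matrix.mul_smul, Matrix.smul_mul, Matrix.mul_assoc] at h1 h2 hd
  show (s * t) • (_ * U) = (s * t) • (U * _)
  rw [wd_diag, Matrix.mul_smul, smul_smul, mul_div_cancel₀ _ hx, Matrix.map_sub _ (map_sub _),
    Matrix.map_sub _ (map_sub _), Matrix.map_mul, Matrix.map_mul,
    Matrix.map_smul' _ _ _ (map_mul _), Matrix.sub_mul, Matrix.sub_mul, Matrix.smul_mul,
    Matrix.mul_assoc, Matrix.mul_assoc, hf]
  linear_combination (norm := module) (φ δ * s) • hd - h1 + h2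

theorem wd_sat {c : R} (hc : φ c ≠ 0) (hf : (c • Φ).map φ * U = U * diagonal f) :
    Φ.map φ * U = U * diagonal fun j => (φ c)⁻¹ * f j := by
  rw [wd_diag, Matrix.mul_smul, ← hf, Matrix.map_smul' _ _ _ (map_mul _), Matrix.smul_mul,
    inv_smul_smul₀ hc]

theorem wd_mem (G : Matrix (Fin N) (Fin N) R) (a : K) (hM : Φ.map φ * U = U * diagonal f) (k : ℕ) :
    (G * Φ ^ k * G.adjugate).map φ * a • (G.map φ * U) =
      a • (G.map φ * U) * diagonal fun j => φ G.det * f j ^ k := by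
  have hk : (Φ ^ k).map φ * U = U * diagonal fun j => f j ^ k := by
    induction k with
    | zero => simp
    | succ k ih =>
      rw [pow_succ, Matrix.map_mul, Matrix.mul_assoc, hM, ← Matrix.mul_assoc, ih, Matrix.mul_assoc,
        diagonal_mul_diagonal]
      simp only [pow_succ]
  rw [wd_diag, Matrix.mul_smul, Matrix.smul_mul, ← Matrix.mul_assoc, ← Matrix.map_mul,
    Matrix.mul_assoc _ G.adjugate, adjugate_mul, Matrix.mul_smul, Matrix.mul_one,
    Matrix.map_smul' _ _ _ (map_mul _), Matrix.map_mul, Matrix.smul_mul, Matrix.mul_assoc, hk,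
    Matrix.mul_smul, Matrix.mul_assoc]

end

variable {N d : ℕ} {x : LL} {U V : LM N} {sh : Fin N → Fin d} {D ρ : ℂ[X]} {B G Mu Φ : PM N}

theorem WW_comm (hx : Function.Injective (ev x)) (hU : U.det ≠ 0) :
    ∀ Φ ∈ WW x U sh, ∀ Ψ ∈ WW x U sh, Φ * Ψ = Ψ * Φ := by
  rintro Φ ⟨f, hf⟩ Ψ ⟨g, hg⟩
  refine Matrix.map_injective hx
    (((Matrix.isUnit_iff_isUnit_det U).2 (IsUnit.mk0 _ hU)).mul_right_cancel ?_)
  show (Φ * Ψ).map (ev x) * U = (Ψ * Φ).map (ev x) * U
  rw [Matrix.map_mul, Matrix.map_mul, Matrix.mul_assoc, Matrix.mul_assoc, hg, hf,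
    ← Matrix.mul_assoc, ← Matrix.mul_assoc, hf, hg, Matrix.mul_assoc, Matrix.mul_assoc,
    diagonal_mul_diagonal, diagonal_mul_diagonal]
  simp only [mul_comm]

/-- Differentiate; the new function is `ev x D * (sL * dL (f k)) / (sL * dL x)`. -/
theorem WW_stab (h : MSol D B x U 0) (hx : sL * dL x ≠ 0) :
    ∀ Φ ∈ WW x U sh, D • Φ.map derivative - (B * Φ - Φ * B) ∈ WW x U sh := by
  rintro Φ ⟨f, hf⟩
  refine ⟨fun k => ev x D * sL / (sL * dL x) * dL (f k), ?_⟩
  have hd := congrArg (fun M : LM N => M.map dL) hf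
  simp only [map_dL_mul, map_dL_ev, diagonal_map dL_zero] at hd
  exact wd_stab (K := LL) (ev x) hx hf hd h.2

theorem WW_sat (hx : Function.Injective (ev x)) {c : ℂ[X]} (hc : c ≠ 0) (h : c • Φ ∈ WW x U sh) :
    Φ ∈ WW x U sh := by
  obtain ⟨f, hf⟩ := h
  exact ⟨fun k => (ev x c)⁻¹ * f k,
    wd_sat (K := LL) (ev x) (fun h => hc (hx (h.trans (map_zero _).symm))) hf⟩

variable {y : Fin d → LL} {e : Fin d → Fin N} {o : Fin N}

theorem WW_mem (hM : Mu.map (ev x) * V = V * diagonal fun j => y (sh j)) (k : ℕ) :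
    G * Mu ^ k * G.adjugate ∈ WW x (ga ρ G x V) sh := by
  exact ⟨fun a => ev x G.det * y a ^ k, wd_mem (K := LL) (ev x) G _ hM k⟩

end Pool.Agent.GR.CV
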